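import Pool.Agent.K4H55.CX.Desc
import Pool.Agent.K4H55.BK.ShaB

/-!
The Selmer group over a Galois extension of `2`-power degree.
-/

set_option autoImplicit false
set_option linter.unusedSectionVars false

namespace Pool.Agent.K4H55.CX

open NumberField IsDedekindDomain WithZero
open Pool.Agent.K4H55.BD
open scoped TensorProduct

section tower

variable {K F L M : Type} [Field K] [NumberField K] [Field F] [NumberField F] [Algebra K F]
  [Field L] [NumberField L] [Algebra K L] [Field M] [NumberField M] [Algebra F M] [Algebra L M]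
  [Algebra K M] [IsScalarTower K F M] [IsScalarTower K L M] {θ : L} {a b : 𝓞 K}

/-- the classes -/
structure SS (hF : Cub F (algebraMap L M θ))
    (hθ : θ ^ 3 + algebraMap K L a * θ + algebraMap K L b = 0) (z : M) : Prop where
  ne : z ≠ 0
  nrm : IsSquare (Algebra.norm F z)
  val : ∀ w : HeightOneSpectrum (𝓞 M),
    algebraMap (𝓞 K) (𝓞 M) (2 * (4 * a ^ 3 + 27 * b ^ 2)) ∉ w.asIdeal →
      IsSquare (w.valuation M z)
  loc : ∀ v : HeightOneSpectrum (𝓞 K), 2 * (4 * a ^ 3 + 27 * b ^ 2) ∈ v.asIdeal →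
    ∀ ψ : F →ₐ[K] v.adicCompletion K, LG a b θ v (psi hF hθ ψ z)

variable {hF : Cub F (algebraMap L M θ)}
  {hθ : θ ^ 3 + algebraMap K L a * θ + algebraMap K L b = 0}

lemma SS.mul {z z' : M} (h : SS hF hθ z) (h' : SS hF hθ z') : SS hF hθ (z * z') := by
  refine ⟨mul_ne_zero h.ne h'.ne, ?_, fun w hw => ?_, fun v hv ψ => ?_⟩
  · rw [map_mul]; exact h.nrm.mul h'.nrm
  · rw [map_mul]; exact (h.val w hw).mul (h'.val w hw)
  · rw [map_mul]; exact (h.loc v hv ψ).mul (h'.loc v hv ψ)

lemma SS.sq {z : M} (hz : z ≠ 0) : SS hF hθ (z ^ 2) := by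
  refine ⟨pow_ne_zero 2 hz, ?_, fun w hw => ?_, fun v hv ψ => ?_⟩
  · rw [map_pow]; exact IsSquare.sq _
  · rw [map_pow]; exact IsSquare.sq _
  · rw [map_pow]; exact LG.sq (IsSquare.sq _)

lemma SS.act {z : M} (h : SS hF hθ z) (σ : F ≃ₐ[K] F) : SS hF hθ (act hF hθ σ z) := by
  refine ⟨act_ne hF hθ σ h.ne, ?_, fun w' hw' => ?_, fun v hv ψ => ?_⟩
  · rw [act_norm]
    exact h.nrm.map σ
  · obtain ⟨w, e, h1, h2⟩ := val_hom (CX.act hF hθ σ) w'
    rw [h1]
    refine (h.val w fun hmem => hw' ?_).pow e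
    obtain ⟨y, hy, hy'⟩ := (h2 _).1 hmem
    have : y = algebraMap (𝓞 K) (𝓞 M) (2 * (4 * a ^ 3 + 27 * b ^ 2)) := by
      apply RingOfIntegers.ext
      rw [hy]
      exact act_K hF hθ σ _
    rwa [← this]
  · rw [psi_act]
    exact h.loc v hv _

/-- places above -/
lemma exists_above {L M : Type} [Field L] [NumberField L] [Field M] [NumberField M] [Algebra L M]
    (w : HeightOneSpectrum (𝓞 L)) : ∃ w' : HeightOneSpectrum (𝓞 M), low (K := L) w' = w := by
  have hmax : w.asIdeal.IsMaximal := w.isMaximal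
  obtain ⟨Q, hQ, hl⟩ := Ideal.exists_maximal_ideal_liesOver_of_isIntegral (S := 𝓞 M) w.asIdeal
  have hne : Q ≠ ⊥ := Ideal.ne_bot_of_liesOver_of_ne_bot w.ne_bot Q
  refine ⟨⟨Q, hQ.isPrime, hne⟩, ?_⟩
  apply HeightOneSpectrum.ext
  exact hl.over.symm

/-- **The Selmer group does not grow.** -/
theorem sel_up [IsGalois K F] (hK : Cub K θ) (hF : Cub F (algebraMap L M θ))
    (hθ : θ ^ 3 + algebraMap K L a * θ + algebraMap K L b = 0) (hS : SelG a b θ) {k : ℕ}
    (hk : Module.finrank K F = 2 ^ k)
    (hψ : ∀ v : HeightOneSpectrum (𝓞 K), 2 * (4 * a ^ 3 + 27 * b ^ 2) ∈ v.asIdeal →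
      Nonempty (F →ₐ[K] v.adicCompletion K))
    (hram : ∀ u : HeightOneSpectrum (𝓞 F),
      2 * (4 * a ^ 3 + 27 * b ^ 2) ∉ (low (K := K) u).asIdeal →
      (∀ X : 𝓞 K, X ^ 3 + a * X + b ∉ (low (K := K) u).asIdeal) ∨
      ∀ x : K, u.valuation F (algebraMap K F x) = (low (K := K) u).valuation K x) :
    SelTriv (algebraMap (𝓞 K) (𝓞 F) a) (algebraMap (𝓞 K) (𝓞 F) b) (algebraMap L M θ) := by
  classical
  have hfin : FiniteDimensional K F := inferInstance
  have : Finite (F ≃ₐ[K] F) := inferInstance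
  set d : 𝓞 K := 2 * (4 * a ^ 3 + 27 * b ^ 2) with hd
  have hcard : Nat.card (F ≃ₐ[K] F) = 2 ^ k := by rw [IsGalois.card_aut_eq_finrank, hk]
  -- no nonsquare class over `F`
  have main : ∀ z : M, SS hF hθ z → IsSquare z := by
    intro z hz
    by_contra hcon
    obtain ⟨z', h1, h2, h3⟩ := fixed_class (act hF hθ) (act_one hF hθ) (act_mul hF hθ)
      (SS hF hθ) (fun z h => h.ne) (fun z z' h h' => h.mul h') (fun σ z h => h.act σ) hcard hz hcon
    obtain ⟨a0, T, hT, ha0, hn⟩ := descent hK hF hθ h1.ne h1.nrm h3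
    have hA : SS hF hθ (algebraMap L M a0) := by
      rw [ha0]
      exact h1.mul (SS.sq hT)
    have ha00 : a0 ≠ 0 := by
      rintro rfl
      exact hA.ne (map_zero _)
    have hsq : IsSquare a0 := by
      refine hS a0 ha00 hn (fun w hw => ?_) (fun v hv => ?_)
      · by_cases hr : ∀ X : 𝓞 K, X ^ 3 + a * X + b ∉ (low (K := K) w).asIdeal
        · exact par_adm hK hθ w hr ha00 hn
        · obtain ⟨w', hw'⟩ := exists_above (M := M) w
          have hdw : d ∉ (low (K := K) w).asIdeal := hw
          set u := low (K := F) w' with hu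
          have hlow : low (K := K) u = low (K := K) w := by
            apply HeightOneSpectrum.ext
            ext x
            rw [← hw', hu, mem_low, mem_low, mem_low, mem_low]
            have e1 : algebraMap (𝓞 F) (𝓞 M) (algebraMap (𝓞 K) (𝓞 F) x) =
                algebraMap (𝓞 L) (𝓞 M) (algebraMap (𝓞 K) (𝓞 L) x) := by
              apply RingOfIntegers.ext
              show algebraMap F M (algebraMap K F (x : K)) = algebraMap L M (algebraMap K L (x : K))
              rw [← IsScalarTower.algebraMap_apply K F M, ← IsScalarTower.algebraMap_apply K L M]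
            rw [e1]
          have hun : ∀ x : K, u.valuation F (algebraMap K F x) = (low (K := K) w).valuation K x := by
            rcases hram u (by rw [hlow]; exact hdw) with h4 | h4
            · rw [hlow] at h4
              exact absurd h4 hr
            · rw [hlow] at h4
              exact h4
          have hFd : algebraMap (𝓞 F) (𝓞 M) (2 * (4 * (algebraMap (𝓞 K) (𝓞 F) a) ^ 3 +
              27 * (algebraMap (𝓞 K) (𝓞 F) b) ^ 2)) ∉ w'.asIdeal := by
            intro h4
            apply hdw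
            rw [← hlow, mem_low, hu, mem_low]
            convert h4 using 2
            simp only [hd, map_mul, map_add, map_pow, map_ofNat]
          have h5 : ∀ x : K, w'.valuation M (algebraMap K M x) = (low (K := K) w).valuation K x := by
            intro x
            rw [IsScalarTower.algebraMap_apply K F M, unr hF (eqF hθ) w' hFd, ← hu, hun]
          have h6 : ∀ x : K, w.valuation L (algebraMap K L x) = (low (K := K) w).valuation K x :=
            unr hK hθ w hw
          have h7 : ∀ y : L, w.valuation L y ^ (w.asIdeal.ramificationIdx' w'.asIdeal) =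
              w'.valuation M (algebraMap L M y) := by
            intro y
            have h8 : ∀ w1 : HeightOneSpectrum (𝓞 L), w1 = low (K := L) w' →
                w1.valuation L y ^ (w1.asIdeal.ramificationIdx' w'.asIdeal) =
                w'.valuation M (algebraMap L M y) := by
              rintro w1 rfl
              exact HeightOneSpectrum.valuation_liesOver (K := L) M (low (K := L) w') w' y
            exact h8 w hw'.symm
          have he : w.asIdeal.ramificationIdx' w'.asIdeal = 1 := by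
            obtain ⟨π, hπ⟩ := (low (K := K) w).valuation_exists_uniformizer K
            have h8 := h7 (algebraMap K L π)
            rw [← IsScalarTower.algebraMap_apply K L M, h5, h6, hπ, ← exp_nsmul, exp_inj] at h8
            simp only [nsmul_eq_mul] at h8
            omega
          have h9 := h7 a0
          rw [he, pow_one] at h9
          rw [h9]
          refine hA.val w' fun h10 => hw ?_
          have h11 : algebraMap (𝓞 L) (𝓞 M) (algebraMap (𝓞 K) (𝓞 L) d) ∈ w'.asIdeal := by
            convert h10 using 1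
            apply RingOfIntegers.ext
            show algebraMap L M (algebraMap K L (d : K)) = algebraMap K M (d : K)
            rw [← IsScalarTower.algebraMap_apply K L M]
          rw [← hw', mem_low]
          exact h11
      · obtain ⟨ψ⟩ := hψ v hv
        have h4 := hA.loc v hv ψ
        rwa [psi_L hF hθ hK] at h4
    apply h2
    have h4 := hsq.map (algebraMap L M)
    rw [ha0] at h4
    obtain ⟨s, hs⟩ := h4
    refine ⟨s / T, ?_⟩
    field_simp
    linear_combination hs
  intro α h1 h2 h3 h4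
  refine main α ⟨h1, h2, fun w hw => h3 w fun h5 => hw ?_, fun v hv ψ => ?_⟩
  · convert h5 using 1
    apply RingOfIntegers.ext
    show algebraMap K M ((2 * (4 * a ^ 3 + 27 * b ^ 2) : 𝓞 K) : K) = algebraMap F M _
    rw [IsScalarTower.algebraMap_apply K F M]
    congr 1
    have e : (2 * (4 * (algebraMap (𝓞 K) (𝓞 F) a) ^ 3 + 27 * (algebraMap (𝓞 K) (𝓞 F) b) ^ 2) :
        𝓞 F) = algebraMap (𝓞 K) (𝓞 F) (2 * (4 * a ^ 3 + 27 * b ^ 2)) := by
      simp only [map_mul, map_add, map_pow, map_ofNat]
    rw [e]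
    rfl
  · refine psi_loc hF hθ ψ (h4 (plc ψ) ?_)
    have h5 := mem_plc_K (ψ := ψ) hv
    simpa only [map_mul, map_add, map_pow, map_ofNat] using h5

end tower

section fin

variable {K F L : Type} [Field K] [NumberField K] [Field F] [NumberField F] [Algebra K F]
  [Field L] [NumberField L] [Algebra K L] {θ : L} {a b : 𝓞 K}

/-- no root in an extension of `2`-power degree -/
lemma noroot_up (hK : Cub K θ) (hθ : θ ^ 3 + algebraMap K L a * θ + algebraMap K L b = 0) {k : ℕ}
    (hk : Module.finrank K F = 2 ^ k) (x : F) :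
    x ^ 3 + algebraMap K F a * x + algebraMap K F b ≠ 0 := by
  intro hx
  have hirr := cp_irr (a : K) (b : K) (cub_noroot hK hθ)
  have hmin : cp (a : K) (b : K) = minpoly K x := by
    refine minpoly.eq_of_irreducible_of_monic hirr ?_ (cp_monic _ _)
    rw [cp]
    simp only [map_add, map_mul, map_pow, Polynomial.aeval_X, Polynomial.aeval_C]
    exact hx
  have h1 := minpoly.degree_dvd (K := K) (x := x) (IsIntegral.of_finite K x)
  rw [← hmin, cp_deg, hk] at h1
  have h2 := (Nat.prime_three.dvd_of_dvd_pow h1)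
  omega

/-- the cubic extension -/
lemma exists_cubic {F : Type} [Field F] (a b : F) (h : ∀ x : F, x ^ 3 + a * x + b ≠ 0) :
    ∃ (M : Type) (_ : Field M) (_ : Algebra F M) (t : M),
      t ^ 3 + algebraMap F M a * t + algebraMap F M b = 0 ∧ Cub F t := by
  have hI : Fact (Irreducible (cp a b)) := ⟨cp_irr _ _ h⟩
  exact ⟨AdjoinRoot (cp a b), AdjoinRoot.instField, inferInstance, AdjoinRoot.root (cp a b),
    cp_root a b, cp_cub a b h⟩

/-- **Points over Galois extensions of `2`-power degree.** -/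
theorem fin_up [IsGalois K F] (hΔ : 4 * a ^ 3 + 27 * b ^ 2 ≠ 0) (hK : Cub K θ)
    (hθ : θ ^ 3 + algebraMap K L a * θ + algebraMap K L b = 0) (hS : SelG a b θ) {k : ℕ}
    (hk : Module.finrank K F = 2 ^ k)
    (hψ : ∀ v : HeightOneSpectrum (𝓞 K), 2 * (4 * a ^ 3 + 27 * b ^ 2) ∈ v.asIdeal →
      Nonempty (F →ₐ[K] v.adicCompletion K))
    (hram : ∀ u : HeightOneSpectrum (𝓞 F),
      2 * (4 * a ^ 3 + 27 * b ^ 2) ∉ (low (K := K) u).asIdeal →
      (∀ X : 𝓞 K, X ^ 3 + a * X + b ∉ (low (K := K) u).asIdeal) ∨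
      ∀ x : K, u.valuation F (algebraMap K F x) = (low (K := K) u).valuation K x) :
    (Finite (crv (algebraMap K F a) (algebraMap K F b)).toAffine.Point ∧
      Odd (Nat.card (crv (algebraMap K F a) (algebraMap K F b)).toAffine.Point)) ∧
    (∀ (k : ℕ) (s : Pool.Agent.TH841.NF.D.Sha (crv (algebraMap K F a) (algebraMap K F b))),
      (2 ^ k : ℕ) • s = 0 → s = 0) ∧
    ∀ x : Pool.Agent.Y667.BKP.H1f 2 (crv (algebraMap K F a) (algebraMap K F b)), x = 0 := by
  classical
  set aF : 𝓞 F := algebraMap (𝓞 K) (𝓞 F) a with haF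
  set bF : 𝓞 F := algebraMap (𝓞 K) (𝓞 F) b with hbF
  have hroot : ∀ x : F, x ^ 3 + (aF : F) * x + (bF : F) ≠ 0 := noroot_up hK hθ hk
  obtain ⟨M, _, _, t, ht, hcub⟩ := exists_cubic _ _ hroot
  have hfM : Module.Finite F M := Module.Finite.of_basis hcub.basis
  have hch : CharZero M := charZero_of_injective_algebraMap (algebraMap F M).injective
  have hfQ : Module.Finite ℚ M := Module.Finite.trans F M
  have hnf : NumberField M := { to_charZero := hch, to_finiteDimensional := hfQ }
  let _ : Algebra K M := ((algebraMap F M).comp (algebraMap K F)).toAlgebra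
  have htow : IsScalarTower K F M := IsScalarTower.of_algebraMap_eq fun x => rfl
  obtain ⟨Φ, hΦ1, hΦ2⟩ := lift_ex hK hθ (algebraMap K M) (t := t) ht
  let _ : Algebra L M := Φ.toAlgebra
  have htow2 : IsScalarTower K L M := IsScalarTower.of_algebraMap_eq fun x => (hΦ1 x).symm
  have hθM : algebraMap L M θ = t := hΦ2
  have hF : Cub F (algebraMap L M θ) := by
    rw [hθM]
    exact hcub
  have hsel := sel_up (M := M) hK hF hθ hS hk hψ hram
  have hΔF : 4 * aF ^ 3 + 27 * bF ^ 2 ≠ 0 := by
    have e : 4 * aF ^ 3 + 27 * bF ^ 2 = algebraMap (𝓞 K) (𝓞 F) (4 * a ^ 3 + 27 * b ^ 2) := by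
      simp only [haF, hbF, map_mul, map_add, map_pow, map_ofNat]
    rw [e]
    intro h
    exact hΔ ((FaithfulSMul.algebraMap_injective (𝓞 K) (𝓞 F)) (by rw [h, map_zero]))
  have h1 := Pool.Agent.K4H55.BK.bk (D := 1) hΔF hF (eqF hθ) hsel one_ne_zero
    (fun v _ => ⟨1, by simp⟩) (fun v _ h2 => absurd h2 (by
      intro h3
      exact v.isPrime.ne_top ((Ideal.eq_top_iff_one _).2 h3)))
  have e : crv ((aF : F) * ((1 : 𝓞 F) : F) ^ 2) ((bF : F) * ((1 : 𝓞 F) : F) ^ 3) =
      crv (algebraMap K F a) (algebraMap K F b) := by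
    have e1 : ((1 : 𝓞 F) : F) = 1 := map_one _
    rw [e1, one_pow, one_pow, mul_one, mul_one]
    rfl
  rw [e] at h1
  exact h1

end fin

end Pool.Agent.K4H55.CX
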