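import Pool.Agent.K4H55.CX.Unit
import Pool.Agent.K4H55.CX.Up

/-!
The L-function over an abelian extension.
-/

set_option autoImplicit false
set_option linter.unusedSectionVars false

namespace Pool.Agent.K4H55.CX

open NumberField IsDedekindDomain Filter Topology
open Pool.Agent.K4H55.BI Pool.Agent.K4H55.BK
open scoped ComplexConjugate

lemma cop_ne {x : integralClosure ℤ ℂ} (h : IsCoprime x 2) : x ≠ 0 := by
  obtain ⟨lam, hlam, h2⟩ := exists_lam
  rintro rfl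
  exact notMem_of_cop h hlam h2 lam.zero_mem

variable {K : Type} [Field K] [NumberField K] [hP : IsPrincipalIdealRing (𝓞 K)] {σ : K →+* ℂ}
  {δ : K} {n : 𝓞 K} {c : Ideal (𝓞 K) → ℂ} {𝒢 : Type} [CommGroup 𝒢] [Finite 𝒢]
  {T : 𝒢 → Finset (HeightOneSpectrum (𝓞 K))} {χ : 𝒢 → 𝓞 K → ℂ}
  {F : Type} [Field F] [NumberField F] [Algebra K F]

/-- the decomposition law -/
structure Law (F : Type) [Field F] [NumberField F] [Algebra K F] (χ : 𝒢 → 𝓞 K → ℂ) : Prop where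
  norm : ∀ (v : HeightOneSpectrum (𝓞 K)) (u : HeightOneSpectrum (𝓞 F)),
    u.asIdeal.comap (algebraMap (𝓞 K) (𝓞 F)) = v.asIdeal →
      Ideal.absNorm u.asIdeal = Ideal.absNorm v.asIdeal ^ ord χ (gen v)
  card : ∀ v : HeightOneSpectrum (𝓞 K),
    Nat.card {u : HeightOneSpectrum (𝓞 F) //
      u.asIdeal.comap (algebraMap (𝓞 K) (𝓞 F)) = v.asIdeal} * ord χ (gen v) =
        Nat.card {g // χ g (gen v) ≠ 0}

/-- the product of the factors above `v` -/
lemma above_prod (hcf : CF T χ) (hl : Law F χ) [Fintype 𝒢] (v : HeightOneSpectrum (𝓞 K)) (s : ℂ) :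
    ∏ᶠ u : {u : HeightOneSpectrum (𝓞 F) //
      u.asIdeal.comap (algebraMap (𝓞 K) (𝓞 F)) = v.asIdeal},
        facF n c v (Ideal.absNorm u.1.asIdeal) s = ∏ g, efx n c (χ g) s v := by
  classical
  have h1 := hl.card v
  rw [hcf.local v n c s h1]
  set m := Nat.card {u : HeightOneSpectrum (𝓞 F) //
      u.asIdeal.comap (algebraMap (𝓞 K) (𝓞 F)) = v.asIdeal} with hm
  have hpos : 0 < Nat.card {g // χ g (gen v) ≠ 0} := by
    have : Nonempty {g // χ g (gen v) ≠ 0} := ⟨⟨1, by rw [hcf.triv]; exact one_ne_zero⟩⟩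
    exact Nat.card_pos
  have hm0 : m ≠ 0 := by
    intro h0
    rw [h0, zero_mul] at h1
    omega
  have hfin : Finite {u : HeightOneSpectrum (𝓞 F) //
      u.asIdeal.comap (algebraMap (𝓞 K) (𝓞 F)) = v.asIdeal} := Nat.finite_of_card_ne_zero hm0
  have : Fintype {u : HeightOneSpectrum (𝓞 F) //
      u.asIdeal.comap (algebraMap (𝓞 K) (𝓞 F)) = v.asIdeal} := Fintype.ofFinite _
  rw [finprod_eq_prod_of_fintype, Finset.prod_congr rfl fun u _ => by rw [hl.norm v u.1 u.2],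
    Finset.prod_const, Finset.card_univ, ← Nat.card_eq_fintype_card]

/-- **The L-function over an abelian extension.** -/
theorem ab_unit (h : IQ K σ δ) (hf : BF σ δ n c) (hcf : CF T χ) (hl : Law F χ)
    (hT : ∀ g, ∀ v ∈ T g, (2 : 𝓞 K) ∉ v.asIdeal ∧ n ∉ v.asIdeal ∧
      ∃ m : ℤ, c v.asIdeal = m ∧ m % 2 = 1)
    {z : ℂ} (hz : Tendsto (fun t => Fser σ δ c 0 t) (𝓝[>] 0) (𝓝 z)) {ω : ℂ}
    (hω : ∀ l ∈ AddSubgroup.closure (Vals σ δ n c), ∃ j : ℤ, l = j * ω)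
    (hω' : ω ∈ AddSubgroup.closure (Vals σ δ n c))
    (hodd : ∀ y ∈ AddSubgroup.closure (Vals σ δ n c),
      z ≠ 2 * (Nat.card {u : 𝓞 K // u ^ 4 = 1} : ℂ) * y) :
    ∃ (G : ℂ → ℂ) (τ x : integralClosure ℤ ℂ) (k : ℤ), Differentiable ℂ G ∧
      (∀ s : ℂ, 2 < s.re → HasProd (fun v : HeightOneSpectrum (𝓞 K) =>
        ∏ᶠ u : {u : HeightOneSpectrum (𝓞 F) //
          u.asIdeal.comap (algebraMap (𝓞 K) (𝓞 F)) = v.asIdeal},
            facF n c v (Ideal.absNorm u.1.asIdeal) s) (G s)) ∧ Odd k ∧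
      ‖(τ : ℂ)‖ ^ 2 = ∏ᶠ g, ∏ v ∈ T g, (Ideal.absNorm v.asIdeal : ℝ) ∧ IsCoprime x 2 ∧
      k * τ * G 1 = x * ((2 * Real.pi / ‖σ δ‖) ^ 2 / (Nat.card (𝓞 K)ˣ : ℂ) * z) ^ Nat.card 𝒢 := by
  classical
  have : Fintype 𝒢 := Fintype.ofFinite _
  choose G τ x k h1 h2 h3 h4 h5 h6 using fun g => chr_unit h hf (hcf.ch g) (hT g) hz hω hω' hodd
  refine ⟨fun s => ∏ g, G g s, ∏ g, τ g, ∏ g, x g, ∏ g, k g, ?_, fun s hs => ?_, ?_, ?_, ?_, ?_⟩
  · exact Differentiable.fun_finsetProd fun g _ => h1 g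
  · simp only [above_prod (n := n) (c := c) hcf hl]
    exact hasProd_prod fun g _ => h2 g s hs
  · exact Finset.prod_induction k Odd (fun a b ha hb => ha.mul hb) odd_one fun g _ => h3 g
  · rw [finprod_eq_prod_of_fintype]
    have e : ((∏ g, τ g : integralClosure ℤ ℂ) : ℂ) = ∏ g, (τ g : ℂ) := by
      push_cast
      rfl
    rw [e, norm_prod, ← Finset.prod_pow]
    exact Finset.prod_congr rfl fun g _ => h4 g
  · exact IsCoprime.prod_left fun g _ => h5 g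
  · have e1 : ((∏ g, τ g : integralClosure ℤ ℂ) : ℂ) = ∏ g, (τ g : ℂ) := by
      push_cast
      rfl
    have e2 : ((∏ g, x g : integralClosure ℤ ℂ) : ℂ) = ∏ g, (x g : ℂ) := by
      push_cast
      rfl
    have e3 : ((∏ g, k g : ℤ) : ℂ) = ∏ g, (k g : ℂ) := by push_cast; rfl
    simp only
    rw [e1, e2, e3, ← Finset.prod_mul_distrib, ← Finset.prod_mul_distrib,
      Finset.prod_congr rfl fun g _ => h6 g, Finset.prod_mul_distrib, Finset.prod_const,
      Finset.card_univ, ← Nat.card_eq_fintype_card]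

lemma A_eq (h : IQ K σ δ) : (kap (ordK h) : ℂ) / nu (𝓞 K) =
    (2 * Real.pi / ‖σ δ‖) ^ 2 / (Nat.card (𝓞 K)ˣ : ℂ) := by
  rw [nu_card h]
  unfold kap
  have e2 : (ordK h).δ = σ δ := rfl
  rw [e2]
  push_cast
  rfl

lemma A_ne (h : IQ K σ δ) : (2 * Real.pi / ‖σ δ‖ : ℂ) ^ 2 / (Nat.card (𝓞 K)ˣ : ℂ) ≠ 0 := by
  rw [← A_eq h]
  have hk0 : (kap (ordK h) : ℂ) ≠ 0 := by exact_mod_cast (kap_pos (ordK h)).ne'
  exact div_ne_zero hk0 (nu_ne (ordK h))

/-- the central value of the form itself -/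
theorem chr_one (h : IQ K σ δ) (hf : BF σ δ n c) {z : ℂ}
    (hz : Tendsto (fun t => Fser σ δ c 0 t) (𝓝[>] 0) (𝓝 z)) :
    ∃ G : ℂ → ℂ, Differentiable ℂ G ∧
      (∀ s : ℂ, 2 < s.re → HasProd (efx n c (fun _ => 1) s) (G s)) ∧
      G 1 = (2 * Real.pi / ‖σ δ‖) ^ 2 / (Nat.card (𝓞 K)ˣ : ℂ) * z := by
  classical
  have hχ : CH (∅ : Finset (HeightOneSpectrum (𝓞 K))) (fun _ => (1 : ℂ)) :=
    { one := rfl
      mul := fun x y => by norm_num
      zero := fun x => by simp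
      prd := fun _ _ _ => rfl
      unit := fun _ _ => rfl
      prim := fun v hv => absurd hv (Finset.notMem_empty v)
      pow := ⟨0, fun _ _ => by simp⟩ }
  obtain ⟨G', g1, g2, g3⟩ := value_x h hf (T := ∅) (by
    rw [Finset.image_empty]
    exact ⟨fun p hp => absurd hp (Finset.notMem_empty p),
      fun p hp => absurd hp (Finset.notMem_empty p),
      fun p hp => absurd hp (Finset.notMem_empty p)⟩) hχ.hc hχ.unit
      (fun v hv => absurd hv (Finset.notMem_empty v))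
  refine ⟨G', g1, g2, ?_⟩
  have h6 : ∑ x ∈ rs (ordK h) (md ((∅ : Finset (HeightOneSpectrum (𝓞 K))).image gen)),
      conj ((fun _ => (1 : ℂ)) x) * fv (ordK h) (fun x => c (Ideal.span {x})) ((ordK h).ι x /
        (ordK h).ι (md ((∅ : Finset (HeightOneSpectrum (𝓞 K))).image gen))) = z := by
    have h7 := bt_empty (D := ordK h) (fv (ordK h) (fun x => c (Ideal.span {x})))
      (fun z y => fv_periodic (ordK h) _ z y)
    have h0 : fv (ordK h) (fun x => c (Ideal.span {x})) 0 = z := by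
      rw [Fser_eq h] at hz
      exact fv_eq hz
    rw [h0] at h7
    rw [← h7]
    unfold bt
    rw [Finset.image_empty]
    refine Finset.sum_congr rfl fun x _ => ?_
    have h5 : chi (∅ : Finset (𝓞 K)) x = 1 := by unfold chi; simp
    rw [h5, map_one]
  have h8 : gx (ordK h) ((∅ : Finset (HeightOneSpectrum (𝓞 K))).image gen)
      (br fun _ => (1 : ℂ)) 1 = 1 := by
    refine Eq.trans ?_ (gs_empty (ordK h))
    rw [Finset.image_empty]
    unfold gx gs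
    refine Finset.sum_congr rfl fun x _ => ?_
    have h5 : chi (∅ : Finset (𝓞 K)) x = 1 := by unfold chi; simp
    have h10 : br (fun _ : 𝓞 K => (1 : ℂ)) x = 1 := map_one _
    rw [h5, h10]
  rw [g3, h6, h8, ← A_eq h]
  ring

/-- central values which are not zero -/
lemma ne_of_unit {G1 B : ℂ} {τ x : integralClosure ℤ ℂ} {k : ℤ} {m : ℕ} (hx : IsCoprime x 2)
    (hB : B ≠ 0) (h : k * (τ : ℂ) * G1 = x * B ^ m) : G1 ≠ 0 := by
  rintro rfl
  rw [mul_zero] at h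
  have h1 : (x : ℂ) ≠ 0 := fun h0 => cop_ne hx (Subtype.ext h0)
  exact mul_ne_zero h1 (pow_ne_zero m hB) h.symm

end Pool.Agent.K4H55.CX
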