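import Pool.Agent.K4H55.CX.Val

/-!
Euler products over abelian extensions.
-/

set_option autoImplicit false
set_option linter.unusedSectionVars false

namespace Pool.Agent.K4H55.CX

open NumberField IsDedekindDomain Filter Topology
open Pool.Agent.K4H55.BI Pool.Agent.K4H55.BK

section grp

/-- products over the roots of unity -/
lemma prod_roots {f : ℕ} (hf : 0 < f) (a : ℂ) :
    ∏ z ∈ Polynomial.nthRootsFinset f (1 : ℂ), (1 - a * z) = 1 - a ^ f := by
  classical
  have hζ := Complex.isPrimitiveRoot_exp f hf.ne'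
  by_cases ha : a = 0
  · subst ha
    rw [zero_pow hf.ne']
    simp
  · have h1 := congrArg (Polynomial.eval a⁻¹) (Polynomial.X_pow_sub_one_eq_prod hf hζ)
    rw [Polynomial.eval_prod] at h1
    simp only [Polynomial.eval_sub, Polynomial.eval_pow, Polynomial.eval_X, Polynomial.eval_one,
      Polynomial.eval_C] at h1
    have h2 : ∏ z ∈ Polynomial.nthRootsFinset f (1 : ℂ), (1 - a * z) =
        ∏ z ∈ Polynomial.nthRootsFinset f (1 : ℂ), (a * (a⁻¹ - z)) := by
      refine Finset.prod_congr rfl fun z _ => ?_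
      field_simp
    rw [h2, Finset.prod_mul_distrib, Finset.prod_const, hζ.card_nthRootsFinset, ← h1]
    have h3 : a ^ f ≠ 0 := pow_ne_zero f ha
    rw [inv_pow]
    field_simp

variable {A : Type} [Group A] [Fintype A]

/-- products over a finite group -/
theorem prod_grp (e : A →* ℂ) : ∃ r : ℕ, r * Nat.card (Set.range e) = Nat.card A ∧
    0 < Nat.card (Set.range e) ∧
    ∀ a : ℂ, ∏ g : A, (1 - a * e g) = (1 - a ^ Nat.card (Set.range e)) ^ r := by
  classical
  set S : Finset ℂ := Finset.univ.image e with hS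
  have hSr : (S : Set ℂ) = Set.range e := by rw [hS]; simp
  have hcS : Nat.card (Set.range e) = S.card := by
    rw [← hSr, Nat.card_eq_fintype_card]
    simp
  set f := S.card with hf
  have h1S : (1 : ℂ) ∈ S := Finset.mem_image.2 ⟨1, Finset.mem_univ _, map_one e⟩
  have hfpos : 0 < f := Finset.card_pos.2 ⟨1, h1S⟩
  have hne : ∀ z ∈ S, z ≠ 0 := by
    intro z hz h0
    obtain ⟨g, -, rfl⟩ := Finset.mem_image.1 hz
    have h2 : e g * e g⁻¹ = 1 := by rw [← map_mul, mul_inv_cancel, map_one]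
    rw [h0, zero_mul] at h2
    exact zero_ne_one h2
  have hpow : ∀ z ∈ S, z ^ f = 1 := by
    intro z hz
    have h2 : S.image (fun w => z * w) = S := by
      refine Finset.eq_of_subset_of_card_le ?_ ?_
      · intro w hw
        obtain ⟨w', hw', rfl⟩ := Finset.mem_image.1 hw
        obtain ⟨g, -, rfl⟩ := Finset.mem_image.1 hz
        obtain ⟨g', -, rfl⟩ := Finset.mem_image.1 hw'
        exact Finset.mem_image.2 ⟨g * g', Finset.mem_univ _, map_mul e g g'⟩
      · rw [Finset.card_image_of_injective _ (mul_right_injective₀ (hne z hz))]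
    have h3 : ∏ w ∈ S, w = z ^ f * ∏ w ∈ S, w := by
      conv_lhs => rw [← h2]
      rw [Finset.prod_image fun x _ y _ h => mul_right_injective₀ (hne z hz) h,
        Finset.prod_mul_distrib, Finset.prod_const]
    have h4 : ∏ w ∈ S, w ≠ 0 := Finset.prod_ne_zero_iff.2 hne
    have h5 : (z ^ f - 1) * ∏ w ∈ S, w = 0 := by linear_combination -h3
    rcases mul_eq_zero.1 h5 with h6 | h6
    · exact sub_eq_zero.1 h6
    · exact absurd h6 h4
  have hSroot : S = Polynomial.nthRootsFinset f (1 : ℂ) := by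
    refine Finset.eq_of_subset_of_card_le (fun z hz => ?_) ?_
    · rw [Polynomial.mem_nthRootsFinset hfpos]
      exact hpow z hz
    · rw [(Complex.isPrimitiveRoot_exp f hfpos.ne').card_nthRootsFinset]
  set r := (Finset.univ.filter fun g : A => e g = 1).card with hr
  have hfib : ∀ z ∈ S, (Finset.univ.filter fun g : A => e g = z).card = r := by
    intro z hz
    refine MonoidHom.card_fiber_eq_of_mem_range e ?_ ⟨1, map_one e⟩
    rw [← hSr]
    exact hz
  refine ⟨r, ?_, by rw [hcS]; exact hfpos, fun a => ?_⟩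
  · rw [hcS, Nat.card_eq_fintype_card, ← Finset.card_univ,
      Finset.card_eq_sum_card_image e Finset.univ, Finset.sum_congr rfl hfib, Finset.sum_const,
      smul_eq_mul, mul_comm]
  · rw [hcS, Finset.prod_comp (fun z => 1 - a * z) e, Finset.prod_congr rfl fun z hz => by
      rw [hfib z hz], Finset.prod_pow, ← hS, hSroot, prod_roots hfpos]

end grp

/-- `α^f + β^f` for `α + β = t`, `α β = q` -/
noncomputable def luc (t q : ℂ) : ℕ → ℂ
  | 0 => 2
  | 1 => t
  | (j + 2) => t * luc t q (j + 1) - q * luc t q j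

lemma luc_eq (α β : ℂ) (j : ℕ) : luc (α + β) (α * β) j = α ^ j + β ^ j := by
  induction j using Nat.twoStepInduction with
  | zero => simp [luc]; norm_num
  | one => simp [luc]
  | more j h1 h2 =>
    rw [luc, h1, h2]
    ring

lemma exists_ab (t q : ℂ) : ∃ α β : ℂ, α + β = t ∧ α * β = q := by
  obtain ⟨d, hd⟩ := IsAlgClosed.exists_pow_nat_eq (t ^ 2 - 4 * q) two_pos
  exact ⟨(t + d) / 2, (t - d) / 2, by ring, by linear_combination (-1 / 4 : ℂ) * hd⟩

section field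

variable {K : Type} [Field K] [NumberField K] [hP : IsPrincipalIdealRing (𝓞 K)] {σ : K →+* ℂ}
  {δ : K} {n : 𝓞 K} {c : Ideal (𝓞 K) → ℂ} {𝒢 : Type} [CommGroup 𝒢] [Finite 𝒢]
  {T : 𝒢 → Finset (HeightOneSpectrum (𝓞 K))} {χ : 𝒢 → 𝓞 K → ℂ}

/-- a group of characters -/
structure CF (T : 𝒢 → Finset (HeightOneSpectrum (𝓞 K))) (χ : 𝒢 → 𝓞 K → ℂ) : Prop where
  ch : ∀ g, CH (T g) (χ g)
  mul : ∀ g h x, χ g x ≠ 0 → χ h x ≠ 0 → χ (g * h) x = χ g x * χ h x

lemma CF.triv (h : CF T χ) (x : 𝓞 K) : χ 1 x = 1 := by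
  have h1 : ∀ x, χ 1 x ≠ 0 → χ 1 x = 1 := by
    intro x hx
    have h2 := h.mul 1 1 x hx hx
    rw [mul_one] at h2
    have h3 : χ 1 x * (χ 1 x - 1) = 0 := by linear_combination -h2
    rcases mul_eq_zero.1 h3 with h4 | h4
    · exact absurd h4 hx
    · exact sub_eq_zero.1 h4
  have hT : T 1 = ∅ := by
    rw [Finset.eq_empty_iff_forall_notMem]
    intro v hv
    obtain ⟨y, -, h2, h3⟩ := (h.ch 1).prim v hv
    exact h3 (h1 y h2)
  apply h1
  rw [(h.ch 1).ne_iff, hT]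
  exact fun v hv => absurd hv (Finset.notMem_empty v)

/-- the characters prime to `x` -/
def CF.sub (h : CF T χ) (x : 𝓞 K) : Subgroup 𝒢 where
  carrier := {g | χ g x ≠ 0}
  mul_mem' := fun {g g'} hg hg' => by
    show χ (g * g') x ≠ 0
    rw [h.mul g g' x hg hg']
    exact mul_ne_zero hg hg'
  one_mem' := by
    show χ 1 x ≠ 0
    rw [h.triv]
    exact one_ne_zero
  inv_mem' := fun {g} hg => by
    show χ g⁻¹ x ≠ 0
    have h1 : ∀ j : ℕ, χ (g ^ j) x ≠ 0 := by
      intro j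
      induction j with
      | zero => rw [pow_zero, h.triv]; exact one_ne_zero
      | succ j ih =>
        rw [pow_succ, h.mul _ _ x ih hg]
        exact mul_ne_zero ih hg
    have h2 : g⁻¹ = g ^ (orderOf g - 1) := by
      have h3 : 0 < orderOf g := orderOf_pos g
      rw [inv_eq_iff_mul_eq_one, ← pow_succ', Nat.sub_add_cancel h3, pow_orderOf_eq_one]
    rw [h2]
    exact h1 _

/-- evaluation at `x` -/
def CF.ev (h : CF T χ) (x : 𝓞 K) : h.sub x →* ℂ where
  toFun := fun g => χ g x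
  map_one' := h.triv x
  map_mul' := fun g g' => h.mul g g' x g.2 g'.2

/-- the number of the values at `x` -/
noncomputable def ord (χ : 𝒢 → 𝓞 K → ℂ) (x : 𝓞 K) : ℕ := Nat.card {z : ℂ // z ≠ 0 ∧ ∃ g, χ g x = z}

lemma CF.card_ev (h : CF T χ) (x : 𝓞 K) : Nat.card (Set.range (h.ev x)) = ord χ x := by
  unfold ord
  refine Nat.card_congr (Equiv.setCongr ?_)
  ext z
  constructor
  · rintro ⟨g, rfl⟩
    exact ⟨g.2, g, rfl⟩
  · rintro ⟨hz, g, rfl⟩
    exact ⟨⟨g, hz⟩, rfl⟩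

theorem CF.prod (h : CF T χ) (x : 𝓞 K) [Fintype 𝒢] :
    ∃ r : ℕ, r * ord χ x = Nat.card {g // χ g x ≠ 0} ∧ 0 < ord χ x ∧
      ∀ (m : ℕ) (a : Fin m → ℂ) (F : ℂ → ℂ), F 0 = 1 → (∀ z, F z = (∏ i, (1 - a i * z))⁻¹) →
        ∏ g, F (χ g x) = ((∏ i, (1 - a i ^ ord χ x))⁻¹) ^ r := by
  classical
  have hfin : Fintype (h.sub x) := Fintype.ofFinite _
  obtain ⟨r, h1, h2, h3⟩ := prod_grp (h.ev x)
  rw [h.card_ev] at h1 h2 h3
  refine ⟨r, h1, h2, fun m a F hF0 hF => ?_⟩
  have h4 : ∏ g, F (χ g x) = ∏ g : h.sub x, F (χ g x) := by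
    have h5 : ∏ g ∈ Finset.univ.filter (fun g : 𝒢 => g ∈ h.sub x), F (χ g x) =
        ∏ g : h.sub x, F (χ g x) := Finset.prod_subtype _ (fun g => by simp) _
    rw [← h5]
    symm
    refine Finset.prod_subset (Finset.filter_subset _ _) fun g _ hg => ?_
    have h6 : χ g x = 0 := by
      by_contra h7
      exact hg (Finset.mem_filter.2 ⟨Finset.mem_univ _, h7⟩)
    rw [h6, hF0]
  have h5 : ∏ g : h.sub x, F (χ g x) = ∏ g : h.sub x, (∏ i, (1 - a i * χ g x))⁻¹ :=
    Finset.prod_congr rfl fun g _ => hF _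
  rw [h4, h5, Finset.prod_inv_distrib, inv_pow, Finset.prod_comm, ← Finset.prod_pow]
  congr 1
  exact Finset.prod_congr rfl fun i _ => h3 (a i)

/-- the Euler factor at a place of norm `Q` above `v` -/
noncomputable def facF (n : 𝓞 K) (c : Ideal (𝓞 K) → ℂ) (v : HeightOneSpectrum (𝓞 K)) (Q : ℕ)
    (s : ℂ) : ℂ :=
  open Classical in
  if n ∈ v.asIdeal then (1 - c v.asIdeal ^ (Nat.log (Ideal.absNorm v.asIdeal) Q) *
    (Q : ℂ) ^ (-s))⁻¹
  else (1 - luc (c v.asIdeal) (Ideal.absNorm v.asIdeal) (Nat.log (Ideal.absNorm v.asIdeal) Q) *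
    (Q : ℂ) ^ (-s) + (Q : ℂ) ^ (1 - 2 * s))⁻¹

lemma cpow_two (Q : ℕ) (hQ : Q ≠ 0) (s : ℂ) :
    (Q : ℂ) ^ (1 - 2 * s) = Q * ((Q : ℂ) ^ (-s)) ^ 2 := by
  have hv0 : (Q : ℂ) ≠ 0 := by exact_mod_cast hQ
  rw [show (1 : ℂ) - 2 * s = 1 + -s + -s by ring, Complex.cpow_add _ _ hv0,
    Complex.cpow_add _ _ hv0, Complex.cpow_one]
  ring

lemma cpow_f (q f : ℕ) (s : ℂ) : ((q ^ f : ℕ) : ℂ) ^ (-s) = ((q : ℂ) ^ (-s)) ^ f := by
  induction f with
  | zero => simp
  | succ f ih => rw [pow_succ, Nat.cast_mul, Complex.natCast_mul_natCast_cpow, ih, pow_succ]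

/-- the product of the Euler factors -/
theorem CF.local (h : CF T χ) (v : HeightOneSpectrum (𝓞 K)) [Fintype 𝒢] (n : 𝓞 K)
    (c : Ideal (𝓞 K) → ℂ) (s : ℂ) {m : ℕ}
    (hm : m * ord χ (gen v) = Nat.card {g // χ g (gen v) ≠ 0}) :
    ∏ g, efx n c (χ g) s v = facF n c v (Ideal.absNorm v.asIdeal ^ ord χ (gen v)) s ^ m := by
  classical
  obtain ⟨r, h1, h2, h3⟩ := h.prod (gen v)
  have hrm : r = m := Nat.eq_of_mul_eq_mul_right h2 (h1.trans hm.symm)
  subst hrm
  set f := ord χ (gen v) with hf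
  set q := Ideal.absNorm v.asIdeal with hq
  have hq1 : 1 < q := by
    have h5 : q ≠ 0 := by
      rw [hq, Ne, Ideal.absNorm_eq_zero_iff]
      exact v.ne_bot
    have h6 : q ≠ 1 := by
      rw [hq, Ne, Ideal.absNorm_eq_one_iff]
      exact v.isPrime.ne_top
    omega
  have hqf : q ^ f ≠ 0 := pow_ne_zero f (by omega)
  have hlog : Nat.log q (q ^ f) = f := Nat.log_pow hq1 f
  unfold facF
  rw [← hq, hlog]
  by_cases hn : n ∈ v.asIdeal
  · rw [if_pos hn, cpow_f, ← mul_pow]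
    have h4 := h3 1 (fun _ => c v.asIdeal * (q : ℂ) ^ (-s))
      (fun z => (1 - c v.asIdeal * (q : ℂ) ^ (-s) * z)⁻¹) (by simp) (fun z => by simp)
    simp only [Finset.univ_unique, Finset.prod_const, Finset.card_singleton, pow_one] at h4
    rw [← h4]
    refine Finset.prod_congr rfl fun g _ => ?_
    unfold efx
    rw [if_pos hn, ← hq, add_zero]
    congr 2
    ring
  · rw [if_neg hn, cpow_two _ hqf, cpow_f]
    obtain ⟨α, β, hα, hβ⟩ := exists_ab (c v.asIdeal) q
    have e1 : luc (c v.asIdeal) (q : ℂ) f = α ^ f + β ^ f := by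
      rw [← hα, ← hβ, luc_eq]
    have h4 := h3 2 ![α * (q : ℂ) ^ (-s), β * (q : ℂ) ^ (-s)]
      (fun z => ((1 - α * (q : ℂ) ^ (-s) * z) * (1 - β * (q : ℂ) ^ (-s) * z))⁻¹) (by simp)
      (fun z => by simp)
    rw [Fin.prod_univ_two] at h4
    simp only [Matrix.cons_val_zero, Matrix.cons_val_one, Matrix.cons_val_fin_one] at h4
    rw [e1]
    have e2 : 1 - (α ^ f + β ^ f) * ((q : ℂ) ^ (-s)) ^ f +
        ((q ^ f : ℕ) : ℂ) * (((q : ℂ) ^ (-s)) ^ f) ^ 2 =
        (1 - (α * (q : ℂ) ^ (-s)) ^ f) * (1 - (β * (q : ℂ) ^ (-s)) ^ f) := by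
      rw [mul_pow, mul_pow]
      push_cast
      rw [← hβ, mul_pow]
      ring
    rw [e2, ← h4]
    refine Finset.prod_congr rfl fun g _ => ?_
    unfold efx
    rw [if_neg hn, ← hq, cpow_two _ (by omega), ← hα]
    congr 1
    rw [← hβ]
    ring

end field

end Pool.Agent.K4H55.CX
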