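import Pool.Agent.TH115.TC.Compl
import Pool.Agent.K4H55.BD.Sel

/-!
Embeddings of an extension in a completion.
-/

set_option autoImplicit false

open IsDedekindDomain NumberField WithZero Filter Topology MonoidWithZeroHom
open scoped TensorProduct

namespace Pool.Agent.K4H55.CX

variable {K : Type} [Field K] [NumberField K] {F : Type} [Field F] [NumberField F] [Algebra K F]
  {v : HeightOneSpectrum (𝓞 K)}

/-- integral elements -/
lemma emb_int (ψ : F →+* v.adicCompletion K) (x : 𝓞 F) :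
    Valued.v (ψ (x : F)) ≤ 1 := by
  have h1 : IsIntegral ℤ (x : F) := x.2
  obtain ⟨p, hp, hx⟩ := h1
  have h3 : IsIntegral (Valued.v (R := v.adicCompletion K)).integer (ψ (x : F)) := by
    let g : ℤ →+* (Valued.v (R := v.adicCompletion K)).integer := Int.castRingHom _
    refine ⟨p.map g, hp.map g, ?_⟩
    rw [Polynomial.eval₂_map]
    have e : (algebraMap (Valued.v (R := v.adicCompletion K)).integer
        (v.adicCompletion K)).comp g = ψ.comp (algebraMap ℤ F) := RingHom.ext_int _ _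
    rw [e, ← Polynomial.hom_eval₂, hx, map_zero]
  exact (Valuation.integer.integers (Valued.v (R := v.adicCompletion K))).mem_of_integral h3

/-- the prime of the embedding -/
def pid (ψ : F →+* v.adicCompletion K) : Ideal (𝓞 F) where
  carrier := {x | Valued.v (ψ (algebraMap (𝓞 F) F x)) < 1}
  add_mem' := fun {x y} hx hy => by
    show Valued.v (ψ (algebraMap (𝓞 F) F (x + y))) < 1
    rw [map_add, map_add]
    exact (Valued.v (R := v.adicCompletion K)).map_add_lt hx hy
  zero_mem' := by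
    show Valued.v (ψ (algebraMap (𝓞 F) F 0)) < 1
    rw [map_zero, map_zero, map_zero]
    exact zero_lt_one
  smul_mem' := fun c x hx => by
    show Valued.v (ψ (algebraMap (𝓞 F) F (c * x))) < 1
    rw [map_mul, map_mul, map_mul]
    exact (mul_le_of_le_one_left zero_le (emb_int ψ c)).trans_lt hx

lemma mem_pid {ψ : F →+* v.adicCompletion K} {x : 𝓞 F} :
    x ∈ pid ψ ↔ Valued.v (ψ (algebraMap (𝓞 F) F x)) < 1 := Iff.rfl

/-- the place of the embedding -/
def plc (ψ : F →ₐ[K] v.adicCompletion K) : HeightOneSpectrum (𝓞 F) where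
  asIdeal := pid ψ.toRingHom
  isPrime := by
    refine ⟨?_, fun {x y} h => ?_⟩
    · rw [Ne, Ideal.eq_top_iff_one, mem_pid, map_one, map_one, map_one]
      exact lt_irrefl _
    · rw [mem_pid, map_mul, map_mul, map_mul] at h
      rw [mem_pid, mem_pid]
      by_contra hcon
      push Not at hcon
      exact not_le_of_gt h (one_le_mul hcon.1 hcon.2)
  ne_bot := by
    intro h0
    obtain ⟨π, hπ, hπ0⟩ := Submodule.exists_mem_ne_zero_of_ne_bot v.ne_bot
    have h1 : algebraMap (𝓞 K) (𝓞 F) π ∈ pid ψ.toRingHom := by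
      rw [mem_pid]
      have e : ψ.toRingHom (algebraMap (𝓞 F) F (algebraMap (𝓞 K) (𝓞 F) π)) =
          algebraMap K (v.adicCompletion K) (π : K) := by
        have e1 : algebraMap (𝓞 F) F (algebraMap (𝓞 K) (𝓞 F) π) = algebraMap K F (π : K) := rfl
        rw [e1]
        exact ψ.commutes _
      rw [e]
      have h2 : Valued.v (algebraMap K (v.adicCompletion K) (π : K)) = v.valuation K (π : K) :=
        HeightOneSpectrum.valuedAdicCompletion_eq_valuation' v (π : K)
      rw [h2]
      exact (v.valuation_lt_one_iff_mem (K := K) π).2 hπ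
    rw [h0, Submodule.mem_bot] at h1
    exact hπ0 ((FaithfulSMul.algebraMap_injective (𝓞 K) (𝓞 F)) (by rw [h1, map_zero]))

lemma mem_plc {ψ : F →ₐ[K] v.adicCompletion K} {x : 𝓞 F} :
    x ∈ (plc ψ).asIdeal ↔ Valued.v (ψ (x : F)) < 1 := Iff.rfl

lemma plc_le (ψ : F →ₐ[K] v.adicCompletion K) {x : F} (hx : (plc ψ).valuation F x ≤ 1) :
    Valued.v (ψ x) ≤ 1 := by
  obtain ⟨n, d, hnd⟩ := (plc ψ).exists_primeCompl_mul_eq_of_integer x hx
  have hd : Valued.v (ψ ((d : 𝓞 F) : F)) = 1 := by
    refine le_antisymm (emb_int ψ.toRingHom d) ?_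
    have : (d : 𝓞 F) ∉ (plc ψ).asIdeal := d.2
    rw [mem_plc, not_lt] at this
    exact this
  have h1 := congrArg (fun z => Valued.v (ψ z)) hnd
  simp only [map_mul] at h1
  rw [show (algebraMap (𝓞 F) F) d = ((d : 𝓞 F) : F) from rfl, hd, mul_one] at h1
  rw [h1]
  exact emb_int ψ.toRingHom n

lemma plc_lt (ψ : F →ₐ[K] v.adicCompletion K) {x : F} (hx : (plc ψ).valuation F x < 1) :
    Valued.v (ψ x) < 1 := by
  obtain ⟨n, d, hnd⟩ := (plc ψ).exists_primeCompl_mul_eq_of_integer x hx.le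
  have hd : Valued.v (ψ ((d : 𝓞 F) : F)) = 1 := by
    refine le_antisymm (emb_int ψ.toRingHom d) ?_
    have : (d : 𝓞 F) ∉ (plc ψ).asIdeal := d.2
    rw [mem_plc, not_lt] at this
    exact this
  have hdv : (plc ψ).valuation F (algebraMap (𝓞 F) F d) = 1 :=
    (plc ψ).valuation_eq_one_iff_notMem.2 d.2
  have h1 := congrArg (fun z => Valued.v (ψ z)) hnd
  have h2 := congrArg (fun z => (plc ψ).valuation F z) hnd
  simp only [map_mul] at h1 h2
  rw [show (algebraMap (𝓞 F) F) d = ((d : 𝓞 F) : F) from rfl, hd, mul_one] at h1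
  rw [hdv, mul_one] at h2
  rw [h2] at hx
  rw [h1]
  exact ((plc ψ).valuation_lt_one_iff_mem _).1 hx

theorem exp_bound (ψ : F →ₐ[K] v.adicCompletion K) {π : F}
    (hπ : (plc ψ).valuation F π = exp (-1 : ℤ)) (n : ℕ) (x : F)
    (hx : (plc ψ).valuation F x < (plc ψ).valuation F (π ^ n)) :
    Valued.v (ψ x) ≤ exp (-(n : ℤ)) := by
  have hπ0 : π ≠ 0 := by
    rintro rfl
    rw [map_zero] at hπ
    exact exp_ne_zero hπ.symm
  have e : x = π ^ n * (x / π ^ n) := by
    field_simp
  have h3 : (plc ψ).valuation F (x / π ^ n) ≤ 1 := by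
    rw [map_div₀]
    have hp : (plc ψ).valuation F (π ^ n) ≠ 0 := (Valuation.ne_zero_iff _).2 (pow_ne_zero n hπ0)
    exact (div_le_one₀ (zero_lt_iff.2 hp)).2 hx.le
  have h4 : Valued.v (ψ π) ≤ exp (-1 : ℤ) := by
    have h5 := plc_lt ψ (x := π) (by rw [hπ, ← exp_zero, exp_lt_exp]; norm_num)
    by_cases h0 : Valued.v (ψ π) = 0
    · rw [h0]; exact zero_le
    · have h6 : exp (log (Valued.v (ψ π))) = Valued.v (ψ π) := exp_log h0
      rw [← h6, ← exp_zero, exp_lt_exp] at h5
      rw [← h6, exp_le_exp]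
      omega
  rw [e, map_mul ψ, map_mul, map_pow ψ, map_pow]
  calc Valued.v (ψ π) ^ n * Valued.v (ψ (x / π ^ n))
      ≤ exp (-1 : ℤ) ^ n * 1 := mul_le_mul' (pow_le_pow_left₀ zero_le h4 n) (plc_le ψ h3)
    _ = exp (-(n : ℤ)) := by
      rw [mul_one, ← exp_nsmul]
      congr 1
      simp

/-- the embedding with the topology of the valuation. -/
noncomputable def wf (ψ : F →ₐ[K] v.adicCompletion K) :
    WithVal ((plc ψ).valuation F) →+* v.adicCompletion K :=
  ψ.toRingHom.comp (WithVal.equiv ((plc ψ).valuation F)).toRingHom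

theorem wf_cont (ψ : F →ₐ[K] v.adicCompletion K) : Continuous (wf ψ) := by
  have key : ContinuousAt (wf ψ).toAddMonoidHom 0 := by
    show Tendsto (wf ψ) (𝓝 0) (𝓝 (wf ψ 0))
    rw [map_zero]
    intro s hs
    obtain ⟨γ, hγ⟩ := Valued.mem_nhds_zero.1 hs
    have hg : ValueGroup₀.embedding γ.1 ≠ 0 := by
      rw [Ne, map_eq_zero]
      exact γ.ne_zero
    obtain ⟨n, hn, -⟩ := exists_exp_neg_natCast_lt_and_lt hg hg
    obtain ⟨π, hπ⟩ := (plc ψ).valuation_exists_uniformizer F
    have hπ0 : π ≠ 0 := by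
      rintro rfl
      rw [map_zero] at hπ
      exact exp_ne_zero hπ.symm
    have hne : (Valued.v (R := WithVal ((plc ψ).valuation F))).restrict
        (WithVal.toVal ((plc ψ).valuation F) (π ^ n)) ≠ 0 := by
      rw [Valuation.ne_zero_iff]
      intro h
      exact pow_ne_zero n hπ0 ((WithVal.toVal_eq_zero _ _).1 h)
    rw [Filter.mem_map, Valued.mem_nhds_zero]
    refine ⟨Units.mk0 _ hne, fun x hx => hγ ?_⟩
    have hx' : Valued.v x < Valued.v (WithVal.toVal ((plc ψ).valuation F) (π ^ n)) :=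
      (Valuation.restrict_lt_iff _).1 hx
    show (Valued.v (R := v.adicCompletion K)).restrict (wf ψ x) < γ
    rw [Valuation.restrict_lt_iff_lt_embedding]
    refine lt_of_le_of_lt ?_ hn
    exact exp_bound ψ hπ n _ hx'
  exact continuous_of_continuousAt_zero (wf ψ).toAddMonoidHom key

/-- The map of the completions. -/
theorem exists_emb (ψ : F →ₐ[K] v.adicCompletion K) :
    ∃ j : (plc ψ).adicCompletion F →+* v.adicCompletion K,
      ∀ x : F, j (algebraMap F ((plc ψ).adicCompletion F) x) = ψ x := by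
  refine ⟨(UniformSpace.Completion.extensionHom (wf ψ) (wf_cont ψ)).comp
    (HeightOneSpectrum.adicCompletion.equiv F (plc ψ)).toRingHom, fun x => ?_⟩
  exact UniformSpace.Completion.extensionHom_coe (wf ψ) (wf_cont ψ) (WithVal.toVal _ x)

end Pool.Agent.K4H55.CX
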