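import Pool.Agent.K4H55.CX.Ram
import Pool.Agent.K4H55.CX.Emb

/-!
The action of the Galois group, local conditions.
-/

set_option autoImplicit false
set_option linter.unusedSectionVars false

namespace Pool.Agent.K4H55.CX

open NumberField IsDedekindDomain WithZero
open Pool.Agent.K4H55.BD
open scoped TensorProduct

/-- homomorphisms of a cubic extension -/
lemma cub_ext {F M R : Type*} [Field F] [Field M] [Algebra F M] {t : M} (h : Cub F t) [Semiring R]
    {f g : M →+* R} (h1 : ∀ x : F, f (algebraMap F M x) = g (algebraMap F M x)) (h2 : f t = g t) :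
    f = g := by
  ext z
  obtain ⟨p, q, r, rfl⟩ := h.span z
  simp only [map_add, map_mul, map_pow, h1, h2]

lemma tens_lift {F M A T : Type*} [Field F] [CommRing M] [CommRing A] [CommRing T] [Algebra F M]
    [Algebra F A] (f : A →+* T) (g : M →+* T)
    (h : ∀ x : F, f (algebraMap F A x) = g (algebraMap F M x)) :
    ∃ J : A ⊗[F] M →+* T, ∀ x y, J (x ⊗ₜ y) = f x * g y := by
  let _ : Algebra F T := (g.comp (algebraMap F M)).toAlgebra
  let f' : A →ₐ[F] T := { f with commutes' := fun x => h x }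
  let g' : M →ₐ[F] T := { g with commutes' := fun x => rfl }
  exact ⟨(Algebra.TensorProduct.lift f' g' (fun x y => Commute.all _ _)).toRingHom, fun x y =>
    Algebra.TensorProduct.lift_tmul _ _ _ _ _⟩

/-- valuations and homomorphisms of number fields -/
lemma val_hom {M M' : Type} [Field M] [NumberField M] [Field M'] [NumberField M'] (f : M →+* M')
    (w' : HeightOneSpectrum (𝓞 M')) : ∃ (w : HeightOneSpectrum (𝓞 M)) (e : ℕ),
      (∀ x : M, w'.valuation M' (f x) = w.valuation M x ^ e) ∧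
      ∀ x : 𝓞 M, x ∈ w.asIdeal ↔ ∃ y : 𝓞 M', (y : M') = f x ∧ y ∈ w'.asIdeal := by
  let _ : Algebra M M' := f.toAlgebra
  refine ⟨low (K := M) w', _, fun x => (HeightOneSpectrum.valuation_liesOver (K := M) M'
    (low (K := M) w') w' x).symm, fun x => ?_⟩
  rw [mem_low]
  constructor
  · intro h
    exact ⟨_, rfl, h⟩
  · rintro ⟨y, hy, hy'⟩
    have : y = algebraMap (𝓞 M) (𝓞 M') x := RingOfIntegers.ext hy
    rwa [← this]

section local_

variable {K : Type} [Field K] [NumberField K] {L : Type} [Field L] [NumberField L] [Algebra K L]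

/-- `z` is in the group generated by the images of the points and the squares -/
def LG (a b : 𝓞 K) (θ : L) (v : HeightOneSpectrum (𝓞 K)) (z : v.adicCompletion K ⊗[K] L) : Prop :=
  ∃ s : List (v.adicCompletion K),
    (∀ x ∈ s, ∃ y : v.adicCompletion K, y ≠ 0 ∧
      y ^ 2 = x ^ 3 + algebraMap K (v.adicCompletion K) a * x +
        algebraMap K (v.adicCompletion K) b) ∧
    IsSquare (z * (s.map fun x => x ⊗ₜ[K] (1 : L) - 1 ⊗ₜ[K] θ).prod)

/-- the `2`-Selmer group is trivial -/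
def SelG (a b : 𝓞 K) (θ : L) : Prop :=
  ∀ α : L, α ≠ 0 → IsSquare (Algebra.norm K α) →
    (∀ w : HeightOneSpectrum (𝓞 L), algebraMap (𝓞 K) (𝓞 L) (2 * (4 * a ^ 3 + 27 * b ^ 2)) ∉ w.asIdeal →
      IsSquare (w.valuation L α)) →
    (∀ v : HeightOneSpectrum (𝓞 K), 2 * (4 * a ^ 3 + 27 * b ^ 2) ∈ v.asIdeal →
      LG a b θ v (1 ⊗ₜ α)) →
    IsSquare α

variable {a b : 𝓞 K} {θ : L} {v : HeightOneSpectrum (𝓞 K)}

lemma LG.mul {z z' : v.adicCompletion K ⊗[K] L} (h : LG a b θ v z) (h' : LG a b θ v z') :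
    LG a b θ v (z * z') := by
  obtain ⟨s, h1, h2⟩ := h
  obtain ⟨s', h1', h2'⟩ := h'
  refine ⟨s ++ s', fun x hx => ?_, ?_⟩
  · rcases List.mem_append.1 hx with h3 | h3
    · exact h1 x h3
    · exact h1' x h3
  · rw [List.map_append, List.prod_append, mul_mul_mul_comm]
    exact h2.mul h2'

lemma LG.sq {z : v.adicCompletion K ⊗[K] L} (h : IsSquare z) : LG a b θ v z :=
  ⟨[], by simp, by simpa using h⟩

lemma LG.of_loc {α : L} (h : LocIm a b θ v α) : LG a b θ v (1 ⊗ₜ α) := by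
  rcases h with h | ⟨x, y, h1, h2, h3⟩
  · exact LG.sq h
  · exact ⟨[x], by simpa using ⟨y, h1, h2⟩, by simpa using h3⟩

lemma SelG.tr (h : SelG a b θ) : SelTriv a b θ := fun α h1 h2 h3 h4 =>
  h α h1 h2 h3 fun v hv => LG.of_loc (h4 v hv)

end local_

section tower

variable {K F L M : Type} [Field K] [NumberField K] [Field F] [NumberField F] [Algebra K F]
  [Field L] [NumberField L] [Algebra K L] [Field M] [NumberField M] [Algebra F M] [Algebra L M]
  [Algebra K M] [IsScalarTower K F M] [IsScalarTower K L M] {θ : L} {a b : 𝓞 K}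

/-- the equation over `F` -/
lemma eqF (hθ : θ ^ 3 + algebraMap K L a * θ + algebraMap K L b = 0) :
    (algebraMap L M θ) ^ 3 + algebraMap F M (algebraMap (𝓞 K) (𝓞 F) a : 𝓞 F) * algebraMap L M θ +
      algebraMap F M (algebraMap (𝓞 K) (𝓞 F) b : 𝓞 F) = 0 := by
  have e : ∀ x : 𝓞 K, algebraMap F M ((algebraMap (𝓞 K) (𝓞 F) x : 𝓞 F) : F) =
      algebraMap L M (algebraMap K L x) := by
    intro x
    have e1 : ((algebraMap (𝓞 K) (𝓞 F) x : 𝓞 F) : F) = algebraMap K F x := rfl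
    rw [e1, ← IsScalarTower.algebraMap_apply K F M, IsScalarTower.algebraMap_apply K L M]
  have h1 := congrArg (algebraMap L M) hθ
  simp only [map_add, map_mul, map_pow, map_zero] at h1
  rw [e, e]
  exact h1

lemma act_ex (hF : Cub F (algebraMap L M θ))
    (hθ : θ ^ 3 + algebraMap K L a * θ + algebraMap K L b = 0) (σ : F ≃ₐ[K] F) :
    ∃ f : M →+* M, (∀ x, f (algebraMap F M x) = algebraMap F M (σ x)) ∧
      f (algebraMap L M θ) = algebraMap L M θ := by
  have h := eqF (F := F) (M := M) hθ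
  refine lift_ex hF h ((algebraMap F M).comp (σ : F →+* F)) (t := algebraMap L M θ) ?_
  have e : ∀ x : 𝓞 K, ((algebraMap F M).comp (σ : F →+* F))
      ((algebraMap (𝓞 K) (𝓞 F) x : 𝓞 F) : F) =
      algebraMap F M ((algebraMap (𝓞 K) (𝓞 F) x : 𝓞 F) : F) := by
    intro x
    show algebraMap F M (σ (algebraMap K F x)) = algebraMap F M (algebraMap K F x)
    rw [σ.commutes]
  rw [e, e]
  exact h

/-- the action -/
noncomputable def act (hF : Cub F (algebraMap L M θ))
    (hθ : θ ^ 3 + algebraMap K L a * θ + algebraMap K L b = 0) (σ : F ≃ₐ[K] F) : M →+* M :=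
  (act_ex hF hθ σ).choose

variable (hF : Cub F (algebraMap L M θ))
  (hθ : θ ^ 3 + algebraMap K L a * θ + algebraMap K L b = 0)

lemma act_F (σ : F ≃ₐ[K] F) (x : F) : act hF hθ σ (algebraMap F M x) = algebraMap F M (σ x) :=
  (act_ex hF hθ σ).choose_spec.1 x

lemma act_th (σ : F ≃ₐ[K] F) : act hF hθ σ (algebraMap L M θ) = algebraMap L M θ :=
  (act_ex hF hθ σ).choose_spec.2

lemma act_mul (σ τ : F ≃ₐ[K] F) (z : M) :
    act hF hθ (σ * τ) z = act hF hθ σ (act hF hθ τ z) := by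
  have : act hF hθ (σ * τ) = (act hF hθ σ).comp (act hF hθ τ) := by
    refine cub_ext hF (fun x => ?_) ?_
    · rw [RingHom.comp_apply, act_F, act_F, act_F, AlgEquiv.mul_apply]
    · rw [RingHom.comp_apply, act_th, act_th, act_th]
  rw [this, RingHom.comp_apply]

lemma act_one (z : M) : act hF hθ 1 z = z := by
  have : act hF hθ 1 = RingHom.id M := by
    refine cub_ext hF (fun x => ?_) ?_
    · rw [act_F, RingHom.id_apply, AlgEquiv.one_apply]
    · rw [act_th, RingHom.id_apply]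
  rw [this, RingHom.id_apply]

lemma act_ne (σ : F ≃ₐ[K] F) {z : M} (hz : z ≠ 0) : act hF hθ σ z ≠ 0 :=
  (map_ne_zero _).2 hz

lemma act_inj {σ τ : F ≃ₐ[K] F} (h : act hF hθ σ = act hF hθ τ) : σ = τ := by
  ext x
  have h1 := congrArg (fun f => f (algebraMap F M x)) h
  simp only [act_F] at h1
  exact (algebraMap F M).injective h1

lemma act_K (σ : F ≃ₐ[K] F) (x : K) : act hF hθ σ (algebraMap K M x) = algebraMap K M x := by
  rw [IsScalarTower.algebraMap_apply K F M, act_F, σ.commutes]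

lemma act_norm (σ : F ≃ₐ[K] F) (z : M) :
    Algebra.norm F (act hF hθ σ z) = σ (Algebra.norm F z) := by
  obtain ⟨p, q, r, rfl⟩ := hF.span z
  have h := eqF (F := F) (M := M) hθ
  simp only [map_add, map_mul, map_pow, act_F, act_th]
  have h1 := norm_G hF h p q r
  have h2 := norm_G hF h (σ p) (σ q) (σ r)
  rw [h1, h2]
  have h3 := G_map (σ : F →+* F) ((algebraMap (𝓞 K) (𝓞 F) a : 𝓞 F) : F)
    ((algebraMap (𝓞 K) (𝓞 F) b : 𝓞 F) : F) p q r
  have e : ∀ x : 𝓞 K, (σ : F →+* F) ((algebraMap (𝓞 K) (𝓞 F) x : 𝓞 F) : F) =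
      ((algebraMap (𝓞 K) (𝓞 F) x : 𝓞 F) : F) := fun x => σ.commutes (x : K)
  rw [e, e] at h3
  exact h3.symm

/-- the fixed elements -/
lemma act_fix [IsGalois K F] {z : M} (h : ∀ σ : F ≃ₐ[K] F, act hF hθ σ z = z) :
    ∃ y : L, z = algebraMap L M y := by
  obtain ⟨p, q, r, rfl⟩ := hF.span z
  have h1 : ∀ σ : F ≃ₐ[K] F, σ p = p ∧ σ q = q ∧ σ r = r := by
    intro σ
    have h2 := h σ
    simp only [map_add, map_mul, map_pow, act_F, act_th] at h2
    have h3 := hF.ind (σ p - p) (σ q - q) (σ r - r) (by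
      simp only [map_sub]
      linear_combination h2)
    exact ⟨sub_eq_zero.1 h3.1, sub_eq_zero.1 h3.2.1, sub_eq_zero.1 h3.2.2⟩
  obtain ⟨p', rfl⟩ := (IsGalois.mem_range_algebraMap_iff_fixed p).2 fun σ => (h1 σ).1
  obtain ⟨q', rfl⟩ := (IsGalois.mem_range_algebraMap_iff_fixed q).2 fun σ => (h1 σ).2.1
  obtain ⟨r', rfl⟩ := (IsGalois.mem_range_algebraMap_iff_fixed r).2 fun σ => (h1 σ).2.2
  refine ⟨algebraMap K L p' + algebraMap K L q' * θ + algebraMap K L r' * θ ^ 2, ?_⟩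
  simp only [map_add, map_mul, map_pow, ← IsScalarTower.algebraMap_apply]

variable {v : HeightOneSpectrum (𝓞 K)}

include hF hθ in
lemma psi_ex (ψ : F →ₐ[K] v.adicCompletion K) :
    ∃ f : M →+* v.adicCompletion K ⊗[K] L, (∀ x, f (algebraMap F M x) = ψ x ⊗ₜ 1) ∧
      f (algebraMap L M θ) = 1 ⊗ₜ θ := by
  have h := eqF (F := F) (M := M) hθ
  let i : v.adicCompletion K →+* v.adicCompletion K ⊗[K] L := Algebra.TensorProduct.includeLeftRingHom
  have e : ∀ x : 𝓞 K, (i.comp (ψ : F →+* v.adicCompletion K))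
      ((algebraMap (𝓞 K) (𝓞 F) x : 𝓞 F) : F) = (1 : v.adicCompletion K) ⊗ₜ[K] algebraMap K L x := by
    intro x
    show (ψ (algebraMap K F x)) ⊗ₜ[K] (1 : L) = _
    rw [ψ.commutes, Algebra.algebraMap_eq_smul_one, Algebra.algebraMap_eq_smul_one,
      TensorProduct.smul_tmul]
  refine lift_ex hF h (i.comp (ψ : F →+* v.adicCompletion K)) (t := 1 ⊗ₜ θ) ?_
  rw [e, e]
  simp only [Algebra.TensorProduct.tmul_pow, one_pow, Algebra.TensorProduct.tmul_mul_tmul, one_mul,
    ← TensorProduct.tmul_add]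
  rw [hθ, TensorProduct.tmul_zero]

/-- the extension of `ψ` -/
noncomputable def psi (ψ : F →ₐ[K] v.adicCompletion K) : M →+* v.adicCompletion K ⊗[K] L :=
  (psi_ex hF hθ ψ).choose

lemma psi_F (ψ : F →ₐ[K] v.adicCompletion K) (x : F) :
    psi hF hθ ψ (algebraMap F M x) = ψ x ⊗ₜ 1 :=
  (psi_ex hF hθ ψ).choose_spec.1 x

lemma psi_th (ψ : F →ₐ[K] v.adicCompletion K) : psi hF hθ ψ (algebraMap L M θ) = 1 ⊗ₜ θ :=
  (psi_ex hF hθ ψ).choose_spec.2

lemma psi_act (ψ : F →ₐ[K] v.adicCompletion K) (σ : F ≃ₐ[K] F) (z : M) :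
    psi hF hθ ψ (act hF hθ σ z) = psi hF hθ (ψ.comp σ.toAlgHom) z := by
  have : (psi hF hθ ψ).comp (act hF hθ σ) = psi hF hθ (ψ.comp σ.toAlgHom) := by
    refine cub_ext hF (fun x => ?_) ?_
    · rw [RingHom.comp_apply, act_F, psi_F, psi_F]
      rfl
    · rw [RingHom.comp_apply, act_th, psi_th, psi_th]
  rw [← this, RingHom.comp_apply]

lemma psi_L (hK : Cub K θ) (ψ : F →ₐ[K] v.adicCompletion K) (y : L) :
    psi hF hθ ψ (algebraMap L M y) = 1 ⊗ₜ y := by
  have : (psi hF hθ ψ).comp (algebraMap L M) =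
      (Algebra.TensorProduct.includeRight : L →ₐ[K] v.adicCompletion K ⊗[K] L).toRingHom := by
    refine cub_ext hK (fun x => ?_) ?_
    · rw [RingHom.comp_apply, ← IsScalarTower.algebraMap_apply K L M,
        IsScalarTower.algebraMap_apply K F M, psi_F, ψ.commutes]
      show _ = (1 : v.adicCompletion K) ⊗ₜ[K] algebraMap K L x
      rw [Algebra.algebraMap_eq_smul_one, Algebra.algebraMap_eq_smul_one, TensorProduct.smul_tmul]
    · rw [RingHom.comp_apply, psi_th]
      rfl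
  have h1 := congrArg (fun f => f y) this
  exact h1

/-- transfer of the local condition -/
lemma psi_loc (ψ : F →ₐ[K] v.adicCompletion K) {z : M}
    (h : LocIm (algebraMap (𝓞 K) (𝓞 F) a) (algebraMap (𝓞 K) (𝓞 F) b) (algebraMap L M θ)
      (plc ψ) z) : LG a b θ v (psi hF hθ ψ z) := by
  obtain ⟨j, hj⟩ := exists_emb ψ
  let i : v.adicCompletion K →+* v.adicCompletion K ⊗[K] L := Algebra.TensorProduct.includeLeftRingHom
  obtain ⟨J, hJ⟩ := tens_lift (F := F) (M := M) (i.comp j) (psi hF hθ ψ) (fun x => by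
    rw [psi_F, RingHom.comp_apply, hj]
    rfl)
  have hJ1 : J (1 ⊗ₜ z) = psi hF hθ ψ z := by rw [hJ, map_one, one_mul]
  have hJ2 : ∀ x : (plc ψ).adicCompletion F, J (x ⊗ₜ 1) = j x ⊗ₜ 1 := by
    intro x
    rw [hJ, map_one, mul_one]
    rfl
  have hJ3 : J (1 ⊗ₜ algebraMap L M θ) = 1 ⊗ₜ θ := by rw [hJ, map_one, one_mul, psi_th]
  rcases h with h | ⟨x, y, h1, h2, h3⟩
  · refine LG.sq ?_
    rw [← hJ1]
    exact h.map J
  · have e : ∀ x : 𝓞 K, j (algebraMap F ((plc ψ).adicCompletion F)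
        ((algebraMap (𝓞 K) (𝓞 F) x : 𝓞 F) : F)) = algebraMap K (v.adicCompletion K) x := by
      intro x
      rw [hj]
      exact ψ.commutes (x : K)
    refine ⟨[j x], ?_, ?_⟩
    · simp only [List.mem_singleton, forall_eq]
      refine ⟨j y, (map_ne_zero j).2 h1, ?_⟩
      have h4 := congrArg j h2
      simp only [map_add, map_mul, map_pow] at h4
      rw [e, e] at h4
      exact h4
    · simp only [List.map_cons, List.map_nil, List.prod_cons, List.prod_nil, mul_one]
      rw [← hJ1, ← hJ2, ← hJ3, ← map_sub, ← map_mul]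
      exact h3.map J

lemma mem_plc_K {ψ : F →ₐ[K] v.adicCompletion K} {x : 𝓞 K} (hx : x ∈ v.asIdeal) :
    algebraMap (𝓞 K) (𝓞 F) x ∈ (plc ψ).asIdeal := by
  rw [mem_plc]
  have e : ψ ((algebraMap (𝓞 K) (𝓞 F) x : 𝓞 F) : F) = algebraMap K (v.adicCompletion K) (x : K) :=
    ψ.commutes (x : K)
  rw [e]
  have h2 : Valued.v (algebraMap K (v.adicCompletion K) (x : K)) = v.valuation K (x : K) :=
    HeightOneSpectrum.valuedAdicCompletion_eq_valuation' v (x : K)
  rw [h2]
  exact (v.valuation_lt_one_iff_mem (K := K) x).2 hx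

end tower

end Pool.Agent.K4H55.CX
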