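import Pool.Agent.K4H55.BI.Fe
import Pool.Agent.K4H55.BI.Eng

/-!
Primitive characters of squarefree modulus and Gauss sums.
-/

set_option autoImplicit false

namespace Pool.Agent.K4H55.CX

open Finset Filter Topology
open Pool.Agent.K4H55.BI
open scoped ComplexConjugate

variable {O : Type} [CommRing O]

/-- a primitive character modulo the product of the `p ∈ T` -/
structure Hc (T : Finset O) (χ : O → ℂ) : Prop where
  prd : Prd (md T) χ
  mul : ∀ x y, χ (x * y) = χ x * χ y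
  one : χ 1 = 1
  zero : ∀ x, ∀ p ∈ T, p ∣ x → χ x = 0
  nrm : ∀ x, (∀ p ∈ T, ¬ p ∣ x) → χ x * conj (χ x) = 1
  prim : ∀ p ∈ T, ∃ x m', md T = p * m' ∧ m' ∣ x - 1 ∧ (∀ q ∈ T, ¬ q ∣ x) ∧ χ x ≠ 1

variable {T : Finset O} {χ : O → ℂ}

/-- the conjugate character -/
def br (χ : O → ℂ) : O → ℂ := fun x => conj (χ x)

lemma br_br : br (br χ) = χ := by
  funext x
  unfold br
  exact Complex.conj_conj _

lemma Hc.br (h : Hc T χ) : Hc T (br χ) := by
  refine ⟨fun x y hxy => ?_, fun x y => ?_, ?_, fun x p hp hd => ?_, fun x hx => ?_,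
    fun p hp => ?_⟩
  · show conj (χ x) = conj (χ y)
    rw [h.prd x y hxy]
  · show conj (χ (x * y)) = conj (χ x) * conj (χ y)
    rw [h.mul, map_mul]
  · show conj (χ 1) = 1
    rw [h.one, map_one]
  · show conj (χ x) = 0
    rw [h.zero x p hp hd, map_zero]
  · show conj (χ x) * conj (conj (χ x)) = 1
    rw [Complex.conj_conj, mul_comm]
    exact h.nrm x hx
  · obtain ⟨x, m', h1, h2, h3, h4⟩ := h.prim p hp
    refine ⟨x, m', h1, h2, h3, fun h5 => h4 ?_⟩
    have h6 : conj (χ x) = 1 := h5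
    have h7 := congrArg conj h6
    rwa [Complex.conj_conj, map_one] at h7

/-- Gauss sums -/
noncomputable def gx (D : BI.Ord O) (T : Finset O) (χ : O → ℂ) (α : O) : ℂ :=
  ∑ x ∈ rs D (md T), χ x * ee D.δ (D.ι (α * x) / D.ι (md T))

lemma gx_coprime (D : BI.Ord O) [IsDomain O] (hT : Fam T) (hχ : Hc T χ) {α : O}
    (h : ∀ p ∈ T, ¬ p ∣ α) : gx D T χ α = conj (χ α) * gx D T χ 1 := by
  have hm := hT.md_ne
  have hιm : D.ι (md T) ≠ 0 := fun h => hm (D.inj (by rw [h, map_zero]))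
  have hco : IsCoprime α (md T) := (md_coprime D hT h).symm
  have hprd := hχ.prd.mul (ee_prd D hιm 1)
  have h1 := CRS.sum_unit hco (rs_CRS D hm) hprd
  have hsq := hχ.nrm α h
  unfold gx
  rw [← h1, Finset.mul_sum]
  refine Finset.sum_congr rfl fun x _ => ?_
  rw [hχ.mul, one_mul]
  linear_combination (-(χ x) * ee D.δ (D.ι (α * x) / D.ι (md T))) * hsq

lemma gx_zero (D : BI.Ord O) [IsDomain O] (hT : Fam T) (hχ : Hc T χ) {α p : O} (hp : p ∈ T)
    (h : p ∣ α) : gx D T χ α = 0 := by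
  classical
  have hm := hT.md_ne
  have hιm : D.ι (md T) ≠ 0 := fun h => hm (D.inj (by rw [h, map_zero]))
  obtain ⟨x0, m', hmm, h2, hnd, hne⟩ := hχ.prim p hp
  have hco0 : IsCoprime x0 (md T) := (md_coprime D hT hnd).symm
  have hprd := hχ.prd.mul (ee_prd D hιm α)
  have h3 := CRS.sum_unit hco0 (rs_CRS D hm) hprd
  have h4 : ∀ x ∈ rs D (md T), χ (x0 * x) * ee D.δ (D.ι (α * (x0 * x)) / D.ι (md T)) =
      χ x0 * (χ x * ee D.δ (D.ι (α * x) / D.ι (md T))) := by
    intro x _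
    obtain ⟨k, hk⟩ := h
    obtain ⟨l, hl⟩ := h2
    have h5 : D.ι (α * (x0 * x)) / D.ι (md T) = D.ι (α * x) / D.ι (md T) + D.ι (k * l * x) := by
      have h6 : α * (x0 * x) = α * x + md T * (k * l * x) := by
        rw [hmm]
        linear_combination (x * (x0 - 1)) * hk + (x * p * k) * hl
      rw [h6, map_add, map_mul D.ι (md T)]
      field_simp
    rw [hχ.mul, h5, ee_add, D.dual1]
    ring
  rw [Finset.sum_congr rfl h4, ← Finset.mul_sum] at h3
  have h5 : (χ x0 - 1) * gx D T χ α = 0 := by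
    have h6 : χ x0 * gx D T χ α = gx D T χ α := h3
    linear_combination h6
  rcases mul_eq_zero.1 h5 with h6 | h6
  · exact absurd (sub_eq_zero.1 h6) hne
  · exact h6

lemma gx_eq (D : BI.Ord O) [IsDomain O] (hT : Fam T) (hχ : Hc T χ) (α : O) :
    gx D T χ α = conj (χ α) * gx D T χ 1 := by
  classical
  by_cases h : ∀ p ∈ T, ¬ p ∣ α
  · exact gx_coprime D hT hχ h
  · push Not at h
    obtain ⟨p, hp, hd⟩ := h
    rw [gx_zero D hT hχ hp hd, hχ.zero α p hp hd, map_zero, zero_mul]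

/-- the product of the Gauss sums of a character and its conjugate -/
lemma gx_mul (D : BI.Ord O) [IsDomain O] (hT : Fam T) (hχ : Hc T χ) :
    gx D T χ 1 * ∑ α ∈ rs D (md T), conj (χ α) * ee D.δ (-(D.ι α / D.ι (md T))) =
      (D.nm (md T) : ℂ) := by
  classical
  have hm := hT.md_ne
  have hιm : D.ι (md T) ≠ 0 := fun h => hm (D.inj (by rw [h, map_zero]))
  have hS := rs_CRS D hm
  have h1 : ∑ α ∈ rs D (md T), gx D T χ α * ee D.δ (-(D.ι α / D.ι (md T))) =
      gx D T χ 1 * ∑ α ∈ rs D (md T), conj (χ α) * ee D.δ (-(D.ι α / D.ι (md T))) := by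
    rw [Finset.mul_sum]
    refine Finset.sum_congr rfl fun α _ => ?_
    rw [gx_eq D hT hχ α]
    ring
  have h2 : ∑ α ∈ rs D (md T), gx D T χ α * ee D.δ (-(D.ι α / D.ι (md T))) =
      ∑ x ∈ rs D (md T), χ x * ∑ α ∈ rs D (md T), ee D.δ (D.ι (α * (x - 1)) / D.ι (md T)) := by
    unfold gx
    simp only [Finset.sum_mul, Finset.mul_sum]
    rw [Finset.sum_comm]
    refine Finset.sum_congr rfl fun x _ => Finset.sum_congr rfl fun α _ => ?_
    rw [mul_assoc, ← ee_add]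
    congr 2
    rw [mul_sub, map_sub, mul_one]
    ring
  rw [← h1, h2]
  have h3 : ∀ x ∈ rs D (md T), χ x * ∑ α ∈ rs D (md T),
      ee D.δ (D.ι (α * (x - 1)) / D.ι (md T)) = if md T ∣ x - 1 then (D.nm (md T) : ℂ) else 0 := by
    intro x _
    rw [orth D hm hS]
    by_cases hx : md T ∣ x - 1
    · rw [if_pos hx, hχ.prd x 1 hx, hχ.one, one_mul]
    · rw [if_neg hx, mul_zero]
  rw [Finset.sum_congr rfl h3]
  obtain ⟨x1, hx1, hd⟩ := hS.ex 1
  have hd' : md T ∣ x1 - 1 := by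
    have : x1 - 1 = -(1 - x1) := by ring
    rw [this, dvd_neg]
    exact hd
  have h4 : ∀ x ∈ rs D (md T), x ≠ x1 → (if md T ∣ x - 1 then (D.nm (md T) : ℂ) else 0) = 0 := by
    intro x hx hne
    refine if_neg fun h => hne (hS.un x hx x1 hx1 ?_)
    have : x - x1 = (x - 1) - (x1 - 1) := by ring
    rw [this]
    exact dvd_sub h hd'
  rw [Finset.sum_eq_single x1 h4 (fun h => absurd hx1 h), if_pos hd']

lemma gx_ne (D : BI.Ord O) [IsDomain O] (hT : Fam T) (hχ : Hc T χ) : gx D T χ 1 ≠ 0 := by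
  intro h0
  have h1 := gx_mul D hT hχ
  rw [h0, zero_mul] at h1
  have h5 := D.nm_pos hT.md_ne
  have h6 : (D.nm (md T) : ℂ) ≠ 0 := by exact_mod_cast h5.ne'
  exact h6 h1.symm

end Pool.Agent.K4H55.CX
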