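import Pool.Agent.K4H55.BD.Sel

/-!
Cubic extensions: norm forms, lifting of homomorphisms, existence.
-/

set_option autoImplicit false

namespace Pool.Agent.K4H55.CX

open Polynomial Module
open Pool.Agent.K4H55.BD

/-- the norm form -/
def G {R : Type*} [CommRing R] (a b p q r : R) : R :=
  p * (p - a * r) ^ 2 + a * p * q ^ 2 + 3 * b * p * q * r + b ^ 2 * r ^ 3 - b * q ^ 3 -
    a * b * q * r ^ 2

lemma G_map {R S : Type*} [CommRing R] [CommRing S] (f : R →+* S) (a b p q r : R) :
    f (G a b p q r) = G (f a) (f b) (f p) (f q) (f r) := by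
  simp only [G, map_add, map_sub, map_mul, map_pow, map_ofNat]

section

variable {K L : Type*} [Field K] [Field L] [Algebra K L] {θ : L} {a b : K}

lemma mul_adj (hθ : θ ^ 3 + algebraMap K L a * θ + algebraMap K L b = 0) (p q r : K) :
    (algebraMap K L p + algebraMap K L q * θ + algebraMap K L r * θ ^ 2) *
      (algebraMap K L ((p - a * r) ^ 2 + a * q ^ 2 + b * q * r) +
        algebraMap K L (-(q * p + b * r ^ 2)) * θ + algebraMap K L (q ^ 2 - p * r + a * r ^ 2) * θ ^ 2)
      = algebraMap K L (G a b p q r) := by
  simp only [G, map_add, map_sub, map_mul, map_pow, map_ofNat, map_neg]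
  linear_combination (algebraMap K L r * (algebraMap K L q ^ 2 - algebraMap K L p * algebraMap K L r +
    algebraMap K L a * algebraMap K L r ^ 2) * θ + algebraMap K L q * (algebraMap K L q ^ 2 -
      algebraMap K L p * algebraMap K L r + algebraMap K L a * algebraMap K L r ^ 2) -
      algebraMap K L r * (algebraMap K L q * algebraMap K L p +
        algebraMap K L b * algebraMap K L r ^ 2)) * hθ

lemma norm_G (h : Cub K θ) (hθ : θ ^ 3 + algebraMap K L a * θ + algebraMap K L b = 0) (p q r : K) :
    Algebra.norm K (algebraMap K L p + algebraMap K L q * θ + algebraMap K L r * θ ^ 2) =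
      G a b p q r := by
  rw [Algebra.norm_eq_matrix_det h.basis, Matrix.det_fin_three]
  set β := algebraMap K L p + algebraMap K L q * θ + algebraMap K L r * θ ^ 2 with hβ
  have h0 : β * h.basis 0 = p • h.basis 0 + q • h.basis 1 + r • h.basis 2 := by
    rw [h.b0, h.b1, h.b2, Algebra.smul_def, Algebra.smul_def, Algebra.smul_def]
    ring
  have h1 : β * h.basis 1 = (-(b * r)) • h.basis 0 + (p - a * r) • h.basis 1 + q • h.basis 2 := by
    rw [h.b0, h.b1, h.b2, Algebra.smul_def, Algebra.smul_def, Algebra.smul_def]
    simp only [map_sub, map_mul, map_neg]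
    linear_combination (algebraMap K L r) * hθ
  have h2 : β * h.basis 2 = (-(b * q)) • h.basis 0 + (-(a * q) - b * r) • h.basis 1 +
      (p - a * r) • h.basis 2 := by
    rw [h.b0, h.b1, h.b2, Algebra.smul_def, Algebra.smul_def, Algebra.smul_def]
    simp only [map_sub, map_mul, map_neg]
    linear_combination (algebraMap K L q + algebraMap K L r * θ) * hθ
  simp only [Algebra.leftMulMatrix_eq_repr_mul, h0, h1, h2, map_add, map_smul, Basis.repr_self,
    Finsupp.add_apply, Finsupp.smul_apply, Finsupp.single_apply, smul_eq_mul, G]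
  simp
  ring

/-- no root: the norm form has no zero -/
lemma G_ne (h : Cub K θ) (hθ : θ ^ 3 + algebraMap K L a * θ + algebraMap K L b = 0)
    (hr : ∀ x : K, x ^ 3 + a * x + b ≠ 0) {p q r : K} (h0 : G a b p q r = 0) :
    p = 0 ∧ q = 0 ∧ r = 0 := by
  have h1 := mul_adj hθ p q r
  rw [h0, map_zero] at h1
  rcases mul_eq_zero.1 h1 with h2 | h2
  · exact h.ind _ _ _ h2
  · obtain ⟨e0, e1, e2⟩ := h.ind _ _ _ h2
    by_cases hr0 : r = 0
    · subst hr0
      have hq : q = 0 := by
        have : q ^ 2 = 0 := by linear_combination e2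
        exact pow_eq_zero_iff two_ne_zero |>.1 this
      subst hq
      refine ⟨?_, rfl, rfl⟩
      have : p ^ 2 = 0 := by linear_combination e0
      exact pow_eq_zero_iff two_ne_zero |>.1 this
    · exfalso
      apply hr (q / r)
      field_simp
      linear_combination q * e2 - r * e1

/-- lifting of homomorphisms -/
theorem lift_ex (h : Cub K θ) (hθ : θ ^ 3 + algebraMap K L a * θ + algebraMap K L b = 0)
    {R : Type*} [CommRing R] (φ : K →+* R) {t : R} (ht : t ^ 3 + φ a * t + φ b = 0) :
    ∃ Φ : L →+* R, (∀ x, Φ (algebraMap K L x) = φ x) ∧ Φ θ = t := by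
  choose u v w huvw using h.span
  have uniq : ∀ (m : L) (p q r : K), m = algebraMap K L p + algebraMap K L q * θ +
      algebraMap K L r * θ ^ 2 → u m = p ∧ v m = q ∧ w m = r := by
    intro m p q r hm
    have h1 := h.ind (u m - p) (v m - q) (w m - r) (by
      simp only [map_sub]
      linear_combination hm - huvw m)
    exact ⟨sub_eq_zero.1 h1.1, sub_eq_zero.1 h1.2.1, sub_eq_zero.1 h1.2.2⟩
  have hval : ∀ (p q r : K), φ (u (algebraMap K L p + algebraMap K L q * θ +
      algebraMap K L r * θ ^ 2)) + φ (v (algebraMap K L p + algebraMap K L q * θ +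
      algebraMap K L r * θ ^ 2)) * t + φ (w (algebraMap K L p + algebraMap K L q * θ +
      algebraMap K L r * θ ^ 2)) * t ^ 2 = φ p + φ q * t + φ r * t ^ 2 := by
    intro p q r
    obtain ⟨e1, e2, e3⟩ := uniq _ p q r rfl
    rw [e1, e2, e3]
  let Φ : L →+* R :=
    { toFun := fun m => φ (u m) + φ (v m) * t + φ (w m) * t ^ 2
      map_one' := by
        obtain ⟨e1, e2, e3⟩ := uniq 1 1 0 0 (by simp)
        rw [e1, e2, e3]
        simp
      map_zero' := by
        obtain ⟨e1, e2, e3⟩ := uniq 0 0 0 0 (by simp)
        rw [e1, e2, e3]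
        simp
      map_add' := fun m m' => by
        obtain ⟨e1, e2, e3⟩ := uniq (m + m') (u m + u m') (v m + v m') (w m + w m') (by
          simp only [map_add]
          linear_combination huvw m + huvw m')
        rw [e1, e2, e3]
        simp only [map_add]
        ring
      map_mul' := fun m m' => by
        obtain ⟨e1, e2, e3⟩ := uniq (m * m')
          (u m * u m' - b * (v m * w m' + w m * v m'))
          (u m * v m' + v m * u m' - a * (v m * w m' + w m * v m') - b * w m * w m')
          (u m * w m' + v m * v m' + w m * u m' - a * w m * w m') (by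
            conv_lhs => rw [huvw m, huvw m']
            simp only [map_add, map_sub, map_mul]
            linear_combination (algebraMap K L (v m) * algebraMap K L (w m') +
              algebraMap K L (w m) * algebraMap K L (v m') +
              algebraMap K L (w m) * algebraMap K L (w m') * θ) * hθ)
        rw [e1, e2, e3]
        simp only [map_add, map_sub, map_mul]
        linear_combination -(φ (v m) * φ (w m') + φ (w m) * φ (v m') +
              φ (w m) * φ (w m') * t) * ht }
  refine ⟨Φ, fun x => ?_, ?_⟩
  · have h1 := hval x 0 0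
    simp only [map_zero, zero_mul, add_zero] at h1
    exact h1
  · have h1 := hval 0 1 0
    simp only [map_zero, map_one, zero_mul, one_mul, add_zero, zero_add] at h1
    exact h1

end

section exist

variable {F : Type} [Field F] (a b : F)

/-- the cubic polynomial -/
noncomputable def cp : F[X] := X ^ 3 + C a * X + C b

lemma cp_deg : (cp a b).natDegree = 3 := by
  unfold cp
  compute_degree!

lemma cp_monic : (cp a b).Monic := by
  unfold cp
  monicity!

lemma cp_irr (h : ∀ x : F, x ^ 3 + a * x + b ≠ 0) : Irreducible (cp a b) := by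
  refine Polynomial.irreducible_of_degree_le_three_of_not_isRoot ?_ fun x hx => ?_
  · rw [cp_deg]; decide
  · apply h x
    rw [IsRoot.def, cp] at hx
    simpa using hx

lemma cp_root : (AdjoinRoot.root (cp a b)) ^ 3 + AdjoinRoot.of (cp a b) a *
    AdjoinRoot.root (cp a b) + AdjoinRoot.of (cp a b) b = 0 := by
  have h := AdjoinRoot.eval₂_root (cp a b)
  unfold cp at h ⊢
  simpa using h

lemma cp_cub (h : ∀ x : F, x ^ 3 + a * x + b ≠ 0) [Fact (Irreducible (cp a b))] :
    Cub F (AdjoinRoot.root (cp a b)) := by
  have hm := cp_monic a b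
  refine ⟨fun p q r he => ?_, fun β => ?_⟩
  · have h1 : AdjoinRoot.mk (cp a b) (C p + C q * X + C r * X ^ 2) = 0 := by
      rw [← he]
      simp [AdjoinRoot.algebraMap_eq]
    rw [AdjoinRoot.mk_eq_zero] at h1
    have h2 : C p + C q * X + C r * X ^ 2 = 0 := by
      by_contra hne
      have h3 := Polynomial.natDegree_le_of_dvd h1 hne
      have h4 : (C p + C q * X + C r * X ^ 2 : F[X]).natDegree ≤ 2 := by compute_degree
      rw [cp_deg] at h3
      omega
    refine ⟨?_, ?_, ?_⟩
    · have := congrArg (fun f => f.coeff 0) h2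
      simpa using this
    · have := congrArg (fun f => f.coeff 1) h2
      simpa [coeff_X, coeff_C] using this
    · have := congrArg (fun f => f.coeff 2) h2
      simpa [coeff_X, coeff_C] using this
  · obtain ⟨g, rfl⟩ := AdjoinRoot.mk_surjective β
    set r := g %ₘ (cp a b) with hr
    have h1 : AdjoinRoot.mk (cp a b) g = AdjoinRoot.mk (cp a b) r := by
      rw [AdjoinRoot.mk_eq_mk]
      refine ⟨g /ₘ (cp a b), ?_⟩
      have := Polynomial.modByMonic_add_div g (cp a b)
      rw [hr]
      linear_combination -this
    have h2 : r.natDegree < 3 := by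
      have := Polynomial.natDegree_modByMonic_lt g hm (by
        intro h1
        have := cp_deg a b
        rw [h1] at this
        simp at this)
      rwa [cp_deg] at this
    have h3 : r = C (r.coeff 0) + C (r.coeff 1) * X + C (r.coeff 2) * X ^ 2 := by
      conv_lhs => rw [Polynomial.as_sum_range_C_mul_X_pow' r h2]
      simp [Finset.sum_range_succ]
    refine ⟨r.coeff 0, r.coeff 1, r.coeff 2, ?_⟩
    rw [h1]
    conv_lhs => rw [h3]
    simp [AdjoinRoot.algebraMap_eq]

end exist

end Pool.Agent.K4H55.CX
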