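import Pool.Agent.K4H55.CX.Act

/-!
Fixed classes and descent.
-/

set_option autoImplicit false
set_option linter.unusedSectionVars false

namespace Pool.Agent.K4H55.CX

open NumberField IsDedekindDomain WithZero
open Pool.Agent.K4H55.BD
open scoped TensorProduct

/-- a fixed class -/
theorem fixed_class {G : Type} [Group G] [Finite G] {M : Type} [Field M] (act : G → M →+* M)
    (h1 : ∀ z, act 1 z = z) (hm : ∀ σ τ z, act (σ * τ) z = act σ (act τ z)) (S : M → Prop)
    (S0 : ∀ z, S z → z ≠ 0) (Sm : ∀ z z', S z → S z' → S (z * z')) (Sa : ∀ σ z, S z → S (act σ z))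
    {k : ℕ} (hk : Nat.card G = 2 ^ k) {z : M} (hz : S z) (hz' : ¬ IsSquare z) :
    ∃ z', S z' ∧ ¬ IsSquare z' ∧ ∀ σ, IsSquare (z' * act σ z') := by
  have key : ∀ i ≤ k, ∃ H : Subgroup G, Nat.card H = 2 ^ i ∧ ∃ z', S z' ∧ ¬ IsSquare z' ∧
      ∀ σ ∈ H, IsSquare (z' * act σ z') := by
    intro i
    induction i with
    | zero =>
      intro _
      refine ⟨⊥, by simp, z, hz, hz', fun σ hσ => ?_⟩
      rw [Subgroup.mem_bot] at hσ
      rw [hσ, h1]
      exact ⟨z, rfl⟩
    | succ i ih =>
      intro hi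
      obtain ⟨H, hH, z', hS, hn, hf⟩ := ih (by omega)
      obtain ⟨H', hH', hle⟩ := Sylow.exists_subgroup_card_pow_succ (p := 2) (n := i)
        (by rw [hk]; exact pow_dvd_pow 2 hi) hH
      have hidx : H.relIndex H' = 2 := by
        have h2 := Subgroup.card_mul_index (H.subgroupOf H')
        rw [Nat.card_congr (Subgroup.subgroupOfEquivOfLe hle).toEquiv, hH, hH', pow_succ] at h2
        exact Nat.eq_of_mul_eq_mul_left (by positivity) h2
      obtain ⟨τ, hτ, hx⟩ := Subgroup.relIndex_eq_two_iff.1 hidx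
      have hτH : τ ∉ H := by
        intro h2
        rcases hx 1 H'.one_mem with ⟨_, h3⟩ | ⟨_, h3⟩
        · exact h3 H.one_mem
        · exact h3 (by rwa [one_mul])
      have hor : ∀ b ∈ H', b ∉ H → b * τ ∈ H := by
        intro b hb hb'
        rcases hx b hb with ⟨h2, _⟩ | ⟨h2, _⟩
        · exact h2
        · exact absurd h2 hb'
      have hor2 : ∀ b ∈ H', b ∉ H → τ⁻¹ * b ∈ H := by
        intro b hb hb'
        by_contra hcon
        have h2 := hor _ (H'.mul_mem (H'.inv_mem hτ) hb) hcon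
        have h3 := hor b hb hb'
        rw [mul_assoc] at h2
        have h4 := H.mul_mem h2 (H.inv_mem h3)
        rw [mul_assoc, mul_inv_cancel, mul_one] at h4
        exact hτH (inv_inv τ ▸ H.inv_mem h4)
      have hnorm : ∀ h ∈ H, τ⁻¹ * h * τ ∈ H := by
        intro h hh
        refine hor _ (H'.mul_mem (H'.inv_mem hτ) (hle hh)) fun h2 => hτH ?_
        have h3 := H.mul_mem h2 (H.inv_mem hh)
        rw [mul_assoc, mul_inv_cancel, mul_one] at h3
        exact inv_inv τ ▸ H.inv_mem h3
      refine ⟨H', hH', ?_⟩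
      by_cases hsq : IsSquare (z' * act τ z')
      · refine ⟨z', hS, hn, fun σ hσ => ?_⟩
        by_cases hσH : σ ∈ H
        · exact hf σ hσH
        · have h2 := hor2 σ hσ hσH
          obtain ⟨s, hs⟩ := hsq
          obtain ⟨t, ht⟩ := hf _ h2
          have h3 := congrArg (act τ) ht
          rw [map_mul, map_mul, ← hm, mul_inv_cancel_left] at h3
          have h4 : act τ z' ≠ 0 := S0 _ (Sa τ z' hS)
          refine ⟨s * act τ t / act τ z', ?_⟩
          field_simp
          linear_combination z' * act τ z' * h3 + act τ t ^ 2 * hs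
      · refine ⟨z' * act τ z', Sm _ _ hS (Sa _ _ hS), hsq, fun σ hσ => ?_⟩
        by_cases hσH : σ ∈ H
        · have h2 := (hf σ hσH).mul ((hf _ (hnorm σ hσH)).map (act τ))
          have e : τ * (τ⁻¹ * σ * τ) = σ * τ := by group
          rw [map_mul (act τ), ← hm, e] at h2
          rw [map_mul (act σ), ← hm]
          have e2 : z' * act τ z' * (act σ z' * act (σ * τ) z') =
              z' * act σ z' * (act τ z' * act (σ * τ) z') := by ring
          rw [e2]
          exact h2
        · have h2 := (hf _ (hor σ hσ hσH)).mul ((hf _ (hor2 σ hσ hσH)).map (act τ))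
          rw [map_mul (act τ), ← hm τ, mul_inv_cancel_left] at h2
          rw [map_mul (act σ), ← hm]
          have e2 : z' * act τ z' * (act σ z' * act (σ * τ) z') =
              z' * act (σ * τ) z' * (act τ z' * act σ z') := by ring
          rw [e2]
          exact h2
  obtain ⟨H, hH, z', h2, h3, h4⟩ := key k le_rfl
  have hT : H = ⊤ := Subgroup.eq_top_of_card_eq H (by rw [hH, hk])
  exact ⟨z', h2, h3, fun σ => h4 σ (hT ▸ Subgroup.mem_top σ)⟩

section tower

variable {K F L M : Type} [Field K] [NumberField K] [Field F] [NumberField F] [Algebra K F]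
  [Field L] [NumberField L] [Algebra K L] [Field M] [NumberField M] [Algebra F M] [Algebra L M]
  [Algebra K M] [IsScalarTower K F M] [IsScalarTower K L M] {θ : L} {a b : 𝓞 K}

lemma norm_tower (hK : Cub K θ) (hF : Cub F (algebraMap L M θ))
    (hθ : θ ^ 3 + algebraMap K L a * θ + algebraMap K L b = 0) (y : L) :
    Algebra.norm F (algebraMap L M y) = algebraMap K F (Algebra.norm K y) := by
  obtain ⟨p, q, r, rfl⟩ := hK.span y
  have h := eqF (F := F) (M := M) hθ
  have h1 := norm_G hK hθ p q r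
  have h2 := norm_G hF h (algebraMap K F p) (algebraMap K F q) (algebraMap K F r)
  have h3 := G_map (algebraMap K F) (a : K) (b : K) p q r
  simp only [map_add, map_mul, map_pow, ← IsScalarTower.algebraMap_apply K F M] at h2 ⊢
  simp only [← IsScalarTower.algebraMap_apply K L M]
  rw [h1, h3, h2]
  rfl

/-- **Descent of a fixed class.** -/
theorem descent [IsGalois K F] (hK : Cub K θ) (hF : Cub F (algebraMap L M θ))
    (hθ : θ ^ 3 + algebraMap K L a * θ + algebraMap K L b = 0) {α : M} (hα : α ≠ 0)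
    (hN : IsSquare (Algebra.norm F α)) (h : ∀ σ : F ≃ₐ[K] F, IsSquare (α * act hF hθ σ α)) :
    ∃ (a0 : L) (T : M), T ≠ 0 ∧ algebraMap L M a0 = α * T ^ 2 ∧ IsSquare (Algebra.norm K a0) := by
  classical
  have hfin : FiniteDimensional K F := inferInstance
  have : Finite (F ≃ₐ[K] F) := inferInstance
  have : Fintype (F ≃ₐ[K] F) := Fintype.ofFinite _
  have hfM : Module.Finite F M := Module.Finite.of_basis hF.basis
  obtain ⟨c, hc⟩ := hN
  have hN0 : ∀ z : M, z ≠ 0 → Algebra.norm F z ≠ 0 := fun z hz => Algebra.norm_ne_zero_iff.2 hz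
  have hneg : ∀ z : M, Algebra.norm F (-z) = - Algebra.norm F z := by
    intro z
    have e : -z = algebraMap F M (-1) * z := by rw [map_neg, map_one]; ring
    rw [e, map_mul, Algebra.norm_algebraMap_of_basis hF.basis, Fintype.card_fin]
    ring
  have hc0 : c ≠ 0 := by
    rintro rfl
    exact hN0 α hα (by rw [hc, mul_zero])
  have hβ : ∀ σ : F ≃ₐ[K] F, ∃ β : M, act hF hθ σ α = α * β ^ 2 ∧ c * Algebra.norm F β = σ c := by
    intro σ
    obtain ⟨s, hs⟩ := h σ
    have h1 : act hF hθ σ α = α * (s / α) ^ 2 := by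
      field_simp
      linear_combination hs
    have h2 := congrArg (Algebra.norm F) h1
    rw [act_norm, map_mul, map_pow, hc, map_mul] at h2
    have h3 : (σ c - c * Algebra.norm F (s / α)) * (σ c + c * Algebra.norm F (s / α)) = 0 := by
      linear_combination h2
    rcases mul_eq_zero.1 h3 with h4 | h4
    · exact ⟨s / α, h1, (sub_eq_zero.1 h4).symm⟩
    · refine ⟨-(s / α), by rw [h1]; ring, ?_⟩
      rw [hneg]
      linear_combination -h4
  choose β hβ1 hβ2 using hβ
  have hβ0 : ∀ σ, β σ ≠ 0 := by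
    intro σ h0
    have := hβ1 σ
    rw [h0, zero_pow two_ne_zero, mul_zero] at this
    exact act_ne hF hθ σ hα this
  have hcoc : ∀ σ τ, β (σ * τ) = β σ * act hF hθ σ (β τ) := by
    intro σ τ
    have h1 : β (σ * τ) ^ 2 = (β σ * act hF hθ σ (β τ)) ^ 2 := by
      have h2 := hβ1 (σ * τ)
      rw [act_mul, hβ1 τ, map_mul, hβ1 σ, map_pow] at h2
      have h3 : α * β (σ * τ) ^ 2 = α * (β σ * act hF hθ σ (β τ)) ^ 2 := by
        linear_combination -h2
      exact mul_left_cancel₀ hα h3
    have h4 : c * Algebra.norm F (β (σ * τ)) = c * Algebra.norm F (β σ * act hF hθ σ (β τ)) := by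
      rw [hβ2, map_mul, act_norm, ← mul_assoc, hβ2 σ, AlgEquiv.mul_apply, ← map_mul, hβ2 τ]
    have h5 := mul_left_cancel₀ hc0 h4
    rcases sq_eq_sq_iff_eq_or_eq_neg.1 h1 with h6 | h6
    · exact h6
    · exfalso
      rw [h6, hneg] at h5
      have h7 : Algebra.norm F (β σ * act hF hθ σ (β τ)) ≠ 0 :=
        hN0 _ (mul_ne_zero (hβ0 σ) (act_ne hF hθ σ (hβ0 τ)))
      apply h7
      linear_combination (-1 / 2 : F) * h5
  -- Hilbert 90
  obtain ⟨x, hx⟩ : ∃ x : M, ∑ σ : F ≃ₐ[K] F, β σ * act hF hθ σ x ≠ 0 := by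
    by_contra hcon
    push Not at hcon
    have hli := (linearIndependent_monoidHom M M).comp
      (fun σ : F ≃ₐ[K] F => ((act hF hθ σ : M →+* M) : M →* M)) (fun σ τ hst => by
        apply act_inj hF hθ
        ext z
        exact congrArg (fun f : M →* M => f z) hst)
    rw [Fintype.linearIndependent_iff] at hli
    have h1 := hli β (by
      ext z
      rw [Finset.sum_apply]
      exact hcon z) 1
    exact hβ0 1 h1
  set T := ∑ σ : F ≃ₐ[K] F, β σ * act hF hθ σ x with hT
  have hTτ : ∀ τ : F ≃ₐ[K] F, β τ * act hF hθ τ T = T := by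
    intro τ
    rw [hT, map_sum, Finset.mul_sum]
    refine Fintype.sum_equiv (Equiv.mulLeft τ) _ _ fun σ => ?_
    rw [Equiv.coe_mulLeft, hcoc, map_mul, ← act_mul]
    ring
  have hfix : ∀ τ : F ≃ₐ[K] F, act hF hθ τ (α * T ^ 2) = α * T ^ 2 := by
    intro τ
    rw [map_mul, map_pow, hβ1]
    have h1 := hTτ τ
    linear_combination α * (β τ * act hF hθ τ T + T) * h1
  obtain ⟨a0, ha0⟩ := act_fix hF hθ hfix
  refine ⟨a0, T, hx, ha0.symm, ?_⟩
  have hs : ∀ σ : F ≃ₐ[K] F, σ (c * Algebra.norm F T) = c * Algebra.norm F T := by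
    intro σ
    rw [map_mul, ← hβ2 σ, ← act_norm hF hθ]
    have h1 := congrArg (Algebra.norm F) (hTτ σ)
    rw [map_mul] at h1
    linear_combination c * h1
  obtain ⟨s0, hs0⟩ := (IsGalois.mem_range_algebraMap_iff_fixed _).2 hs
  refine ⟨s0, ?_⟩
  apply (algebraMap K F).injective
  rw [← norm_tower hK hF hθ, ← ha0, map_mul, map_mul, hs0, map_pow, hc]
  ring

end tower

end Pool.Agent.K4H55.CX
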