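import Pool.Agent.K4H55.CX.Tw
import Pool.Agent.K4H55.BK.Odd

/-!
Twists of Bianchi newforms by characters of 2-power order.
-/

set_option autoImplicit false

namespace Pool.Agent.K4H55.CX

open NumberField IsDedekindDomain Filter Topology
open Pool.Agent.K4H55.BI Pool.Agent.K4H55.BK
open scoped ComplexConjugate

section main

variable {K : Type} [Field K] [NumberField K] [hP : IsPrincipalIdealRing (𝓞 K)]
  {σ : K →+* ℂ} {δ : K} {n : 𝓞 K} {c : Ideal (𝓞 K) → ℂ}

/-- the Euler factor of the twist by `χ` -/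
noncomputable def efx (n : 𝓞 K) (c : Ideal (𝓞 K) → ℂ) (χ : 𝓞 K → ℂ)
    (s : ℂ) (v : HeightOneSpectrum (𝓞 K)) : ℂ :=
  open Classical in
  (1 - c v.asIdeal * χ (gen v) * (Ideal.absNorm v.asIdeal : ℂ) ^ (-s) +
    (if n ∈ v.asIdeal then 0 else χ (gen v) ^ 2 *
      (Ideal.absNorm v.asIdeal : ℂ) ^ (1 - 2 * s)))⁻¹

/-- the twisted Dirichlet series as an Euler product -/
theorem euler_tx (h : IQ K σ δ) (hf : BF σ δ n c) [DecidableEq (𝓞 K)]
    {T : Finset (HeightOneSpectrum (𝓞 K))} {χ : 𝓞 K → ℂ}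
    (hχ : Hc (T.image gen) χ) (hu : ∀ u, IsUnit u → χ u = 1) {s : ℂ} (hs : 2 < s.re) :
    HasProd (efx n c χ s) ((∑' x, c (Ideal.span {x}) * χ x *
      ((ordK h).nm x : ℂ) ^ (-s)) / nu (𝓞 K)) := by
  classical
  set D := ordK h with hD
  have hnm : ∀ x, D.nm x = Ideal.absNorm (Ideal.span {x}) := fun x =>
    (Ideal.absNorm_span_singleton x).symm
  obtain ⟨C, hC⟩ := hf.bound
  have hC0 : 0 ≤ C := by
    have h1 := hC ⊤
    rw [hf.one, norm_one, Ideal.absNorm_top] at h1
    push_cast at h1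
    linarith
  set F : 𝓞 K → ℂ := fun x => c (Ideal.span {x}) * χ x * (D.nm x : ℂ) ^ (-s)
    with hF
  have hsum : Summable fun x => ‖F x‖ := by
    refine Summable.of_nonneg_of_le (fun _ => norm_nonneg _) (fun x => ?_)
      ((D.summ (s.re - 1) (by linarith)).mul_left C)
    by_cases hx : x = 0
    · subst hx
      simp only [hF]
      rw [Ideal.span_singleton_zero, hf.zero, zero_mul, zero_mul, norm_zero]
      positivity
    · have hn : (0 : ℝ) < D.nm x := by exact_mod_cast D.nm_pos hx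
      have h1 := hC (Ideal.span {x})
      rw [← hnm] at h1
      simp only [hF]
      rw [norm_mul, norm_mul]
      have h2 : ‖(D.nm x : ℂ) ^ (-s)‖ = (D.nm x : ℝ) ^ (-s.re) := by
        have := Complex.norm_cpow_eq_rpow_re_of_pos hn (-s)
        simpa using this
      rw [h2]
      calc ‖c (Ideal.span {x})‖ * ‖χ x‖ * (D.nm x : ℝ) ^ (-s.re) ≤
            (C * D.nm x) * 1 * (D.nm x : ℝ) ^ (-s.re) := by
              gcongr
              exact hχ.le x
        _ = C * (D.nm x : ℝ) ^ (-(s.re - 1)) := by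
          rw [mul_one, mul_assoc]
          congr 1
          nth_rewrite 1 [← Real.rpow_one (D.nm x : ℝ)]
          rw [← Real.rpow_add hn]
          ring_nf
  have hnpow : ∀ x y, ((D.nm (x * y) : ℕ) : ℂ) ^ (-s) =
      (D.nm x : ℂ) ^ (-s) * (D.nm y : ℂ) ^ (-s) := by
    intro x y
    rw [D.nm_mul, Nat.cast_mul, Complex.natCast_mul_natCast_cpow]
  have espan : ∀ (v : HeightOneSpectrum (𝓞 K)) (x : 𝓞 K), Ideal.span {gen v * x} =
      v.asIdeal * Ideal.span {x} := by
    intro v x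
    rw [← Ideal.span_singleton_mul_span_singleton, gen_span]
  have hnv : ∀ v : HeightOneSpectrum (𝓞 K), D.nm (gen v) = Ideal.absNorm v.asIdeal := by
    intro v
    rw [hnm, gen_span]
  have key := euler D (g := gen) gen_prime (fun v v' => gen_na) (fun x h0 hu => gen_cov h0 hu)
    hsum (by simp only [hF]; rw [Ideal.span_singleton_zero, hf.zero, zero_mul, zero_mul])
    (fun x hx => by
      simp only [hF]
      rw [Ideal.span_singleton_eq_top.2 hx, hf.one, hu x hx, nm_unit D hx]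
      simp)
    (β := fun v => c v.asIdeal * χ (gen v) * (Ideal.absNorm v.asIdeal : ℂ) ^ (-s))
    (γ := fun v => if n ∈ v.asIdeal then 0 else χ (gen v) ^ 2 *
      (Ideal.absNorm v.asIdeal : ℂ) ^ (1 - 2 * s)) ?_ ?_
  · exact key
  · intro v x hx
    simp only [hF]
    rw [hnpow, hχ.mul, espan, hnv]
    by_cases hn : n ∈ v.asIdeal
    · rw [hf.bad v hn]; ring
    · rw [(hf.good v hn _).1 fun hd => hx ?_]
      · ring
      · have h3 := Ideal.dvd_iff_le.1 hd
        exact gen_dvd.2 (h3 (Ideal.mem_span_singleton_self x))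
  · intro v y
    simp only [hF]
    have hv0 : (Ideal.absNorm v.asIdeal : ℂ) ≠ 0 := by
      rw [← hnv]
      exact_mod_cast (D.nm_pos (gen_prime v).ne_zero).ne'
    rw [hnpow, hnpow, hχ.mul, hχ.mul, espan, espan, hnv]
    by_cases hn : n ∈ v.asIdeal
    · rw [if_pos hn, hf.bad v hn (v.asIdeal * Ideal.span {y})]; ring
    · rw [if_neg hn, (hf.good v hn _).2]
      have e1 : (Ideal.absNorm v.asIdeal : ℂ) ^ (1 - 2 * s) = (Ideal.absNorm v.asIdeal : ℂ) *
          (Ideal.absNorm v.asIdeal : ℂ) ^ (-s) * (Ideal.absNorm v.asIdeal : ℂ) ^ (-s) := by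
        rw [show (1 : ℂ) - 2 * s = 1 + -s + -s by ring, Complex.cpow_add _ _ hv0,
          Complex.cpow_add _ _ hv0, Complex.cpow_one]
      rw [e1]
      ring

/-- the central value -/
theorem value_x (h : IQ K σ δ) (hf : BF σ δ n c) [DecidableEq (𝓞 K)]
    {T : Finset (HeightOneSpectrum (𝓞 K))} {χ : 𝓞 K → ℂ} (hT : Fam (T.image gen))
    (hχ : Hc (T.image gen) χ) (hu : ∀ u, IsUnit u → χ u = 1) (hn : ∀ v ∈ T, n ∉ v.asIdeal) :
    ∃ G : ℂ → ℂ, Differentiable ℂ G ∧ (∀ s : ℂ, 2 < s.re → HasProd (efx n c χ s) (G s)) ∧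
      G 1 = kap (ordK h) / gx (ordK h) (T.image gen) (br χ) 1 *
        (∑ x ∈ rs (ordK h) (md (T.image gen)), conj (χ x) *
          fv (ordK h) (fun x => c (Ideal.span {x})) ((ordK h).ι x /
            (ordK h).ι (md (T.image gen)))) / nu (𝓞 K) := by
  classical
  set D := ordK h with hD
  obtain ⟨C, w, κ, κW, hN⟩ := hf.newf h
  have hMG := hN.mg
  obtain ⟨G, hG1, hG2, hG3⟩ := twist hMG.toMF hT hχ (fun p hp hd => by
    obtain ⟨v, hv, rfl⟩ := Finset.mem_image.1 hp
    exact hn v hv (gen_dvd.1 hd)) (hu _ isUnit_one.neg)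
  have hsum : ∀ s : ℂ, 2 < s.re → Summable fun x => ‖c (Ideal.span {x})‖ *
      (D.nm x : ℝ) ^ (-s.re) := by
    intro s hs
    have hC := hN.cff
    refine Summable.of_nonneg_of_le (fun x => by positivity) (fun x => ?_)
      ((D.summ (s.re - 1) (by linarith)).mul_left C)
    by_cases hx : x = 0
    · subst hx
      rw [hC.zero, norm_zero, zero_mul, D.nm_zero, Nat.cast_zero,
        Real.zero_rpow (by linarith), mul_zero]
    · have hn : (0 : ℝ) < D.nm x := by exact_mod_cast D.nm_pos hx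
      have h2 := hC.bd x
      calc ‖c (Ideal.span {x})‖ * (D.nm x : ℝ) ^ (-s.re) ≤
            (C * D.nm x) * (D.nm x : ℝ) ^ (-s.re) := by gcongr
        _ = C * (D.nm x : ℝ) ^ (-(s.re - 1)) := by
          rw [mul_assoc]
          congr 1
          nth_rewrite 1 [← Real.rpow_one (D.nm x : ℝ)]
          rw [← Real.rpow_add hn]
          ring_nf
  refine ⟨fun s => G s / nu (𝓞 K), hG1.div_const _, fun s hs => ?_, ?_⟩
  · simp only
    rw [hG2 s (by linarith) (hsum s hs)]
    exact euler_tx h hf hχ hu hs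
  · simp only
    rw [hG3]

end main

section ord

variable {O : Type} [CommRing O] {D : BI.Ord O} {n : O} {c : O → ℂ} {C : ℝ} {w : ℂ}
  {M : Submodule ℤ ℂ}

/-- integrality -/
lemma int_pow {z : ℂ} {k : ℕ} (hk : z ^ 2 ^ k = 1) : IsIntegral ℤ z := by
  refine IsIntegral.of_pow (n := 2 ^ k) (by positivity) ?_
  rw [hk]
  exact isIntegral_one

lemma lam_pow (lam : Ideal (integralClosure ℤ ℂ)) (hlam : lam.IsPrime)
    (h2 : (2 : integralClosure ℤ ℂ) ∈ lam) (k : ℕ) : ∀ z : integralClosure ℤ ℂ,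
    z ^ 2 ^ k = 1 → z - 1 ∈ lam := by
  induction k with
  | zero => intro z hz; rw [pow_zero, pow_one] at hz; rw [hz, sub_self]; exact lam.zero_mem
  | succ k ih =>
    intro z hz
    have h1 : (z ^ 2) ^ 2 ^ k = 1 := by rw [← pow_mul, ← pow_succ']; exact hz
    have h3 := ih (z ^ 2) h1
    have h4 : (z - 1) * (z - 1) ∈ lam := by
      have e : (z - 1) * (z - 1) = (z ^ 2 - 1) - 2 * (z - 1) := by ring
      rw [e]
      exact lam.sub_mem h3 (lam.mul_mem_right _ h2)
    rcases hlam.mem_or_mem h4 with h | h <;> exact h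

/-- rational integers in a multiple of `λ` -/
lemma int_lam (lam : Ideal (integralClosure ℤ ℂ)) (hlam : lam.IsPrime)
    (h2 : (2 : integralClosure ℤ ℂ) ∈ lam) {m : ℤ} {N : ℕ} (hN : N ≠ 0)
    {y : integralClosure ℤ ℂ} (hy : y ∈ lam) (h : (m : ℂ) = N * (y : ℂ)) :
    (2 * N : ℤ) ∣ m := by
  have hNC : (N : ℂ) ≠ 0 := by exact_mod_cast hN
  have h3 : IsIntegral ℤ (algebraMap ℚ ℂ ((m : ℚ) / N)) := by
    have e : algebraMap ℚ ℂ ((m : ℚ) / N) = (y : ℂ) := by
      rw [map_div₀, map_intCast, map_natCast, h]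
      field_simp
    rw [e]
    exact y.2
  have h4 : IsIntegral ℤ ((m : ℚ) / N) :=
    (isIntegral_algebraMap_iff (algebraMap ℚ ℂ).injective).1 h3
  obtain ⟨q, hq⟩ := IsIntegrallyClosed.isIntegral_iff.1 h4
  have hNQ : (N : ℚ) ≠ 0 := by exact_mod_cast hN
  have h5 : m = q * N := by
    have h6 : (m : ℚ) = (q : ℚ) * N := by
      rw [eq_comm, div_eq_iff hNQ] at hq
      exact hq
    exact_mod_cast h6
  have h6 : y = (q : integralClosure ℤ ℂ) := by
    apply Subtype.ext
    rw [h5] at h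
    push_cast at h
    have h7 : (y : ℂ) = (q : ℂ) := by
      have h8 : (N : ℂ) * y = N * q := by rw [← h]; ring
      exact mul_left_cancel₀ hNC h8
    rw [h7]
    simp
  have h7 : ¬ Odd q := by
    rintro ⟨r, rfl⟩
    have h8 : (1 : integralClosure ℤ ℂ) ∈ lam := by
      have e : (1 : integralClosure ℤ ℂ) = y - 2 * (r : integralClosure ℤ ℂ) := by
        rw [h6]; push_cast; ring
      rw [e]
      exact lam.sub_mem hy (lam.mul_mem_right _ h2)
    exact hlam.ne_top ((Ideal.eq_top_iff_one _).2 h8)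
  rw [Int.not_odd_iff_even] at h7
  obtain ⟨r, hr⟩ := h7
  exact ⟨r, by rw [h5, hr]; ring⟩

end ord

end Pool.Agent.K4H55.CX
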