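import Pool.Agent.K4H55.CX.Nv
import Pool.Agent.K4H55.BK.Val
import Pool.Agent.K4H55.BM.Main

/-!
Central values of the twists by characters of 2-power order modulo a prime above 2.
-/

set_option autoImplicit false
set_option linter.unusedSectionVars false

namespace Pool.Agent.K4H55.CX

open NumberField IsDedekindDomain Filter Topology
open Pool.Agent.K4H55.BI Pool.Agent.K4H55.BK
open scoped ComplexConjugate

/-- the group `λ Λ` -/
def lamG (lam : Ideal (integralClosure ℤ ℂ)) (Λ : AddSubgroup ℂ) : AddSubgroup ℂ :=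
  AddSubgroup.closure {z | ∃ y ∈ lam, ∃ l ∈ Λ, z = (y : ℂ) * l}

lemma two_mul_lamG {lam : Ideal (integralClosure ℤ ℂ)} (h2 : (2 : integralClosure ℤ ℂ) ∈ lam)
    {Λ : AddSubgroup ℂ} {l : ℂ} (hl : l ∈ Λ) : 2 * l ∈ lamG lam Λ :=
  AddSubgroup.subset_closure ⟨2, h2, l, hl, rfl⟩

/-- for cyclic groups -/
lemma lamG_cyc {lam : Ideal (integralClosure ℤ ℂ)} {Λ : AddSubgroup ℂ} {ω : ℂ}
    (hω : ∀ l ∈ Λ, ∃ j : ℤ, l = j * ω) {z : ℂ} (hz : z ∈ lamG lam Λ) :
    ∃ y ∈ lam, z = (y : ℂ) * ω := by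
  induction hz using AddSubgroup.closure_induction with
  | mem z hz =>
    obtain ⟨y, hy, l, hl, rfl⟩ := hz
    obtain ⟨j, hj⟩ := hω l hl
    refine ⟨y * (j : integralClosure ℤ ℂ), lam.mul_mem_right _ hy, ?_⟩
    rw [hj]
    push_cast
    ring
  | zero => exact ⟨0, lam.zero_mem, by simp⟩
  | add z z' _ _ h h' =>
    obtain ⟨y, hy, rfl⟩ := h
    obtain ⟨y', hy', rfl⟩ := h'
    exact ⟨y + y', lam.add_mem hy hy', by push_cast; ring⟩
  | neg z _ h =>
    obtain ⟨y, hy, rfl⟩ := h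
    exact ⟨-y, lam.neg_mem hy, by push_cast; ring⟩

/-- the condition for cyclic groups -/
theorem odd_cyc {lam : Ideal (integralClosure ℤ ℂ)} (hlam : lam.IsPrime)
    (h2 : (2 : integralClosure ℤ ℂ) ∈ lam) {Λ : AddSubgroup ℂ}
    (hω : ∃ ω ∈ Λ, ∀ l ∈ Λ, ∃ j : ℤ, l = j * ω) {z : ℂ} (hz : z ∈ Λ) {N : ℕ} (hN : N ≠ 0)
    (h : ∀ y ∈ Λ, z ≠ 2 * (N : ℂ) * y) : ∀ y ∈ lamG lam Λ, z ≠ N * y := by
  obtain ⟨ω, hωΛ, hω⟩ := hω
  intro y hy he
  obtain ⟨y', hy', rfl⟩ := lamG_cyc hω hy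
  obtain ⟨m, hm⟩ := hω z hz
  by_cases hω0 : ω = 0
  · apply h 0 Λ.zero_mem
    rw [hm, hω0]
    ring
  · have h3 : (m : ℂ) = N * (y' : ℂ) := by
      apply mul_right_cancel₀ hω0
      rw [← hm, he]
      ring
    obtain ⟨q, hq⟩ := int_lam lam hlam h2 hN hy' h3
    apply h (q • ω) (Λ.zsmul_mem hωΛ q)
    rw [hm, hq, zsmul_eq_mul]
    push_cast
    ring

/-- there are primes above two -/
theorem exists_lam : ∃ lam : Ideal (integralClosure ℤ ℂ), lam.IsPrime ∧
    (2 : integralClosure ℤ ℂ) ∈ lam := by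
  obtain ⟨m, hm, hle⟩ := Ideal.exists_le_maximal (Ideal.span {(2 : integralClosure ℤ ℂ)}) (by
    rw [Ne, Ideal.span_singleton_eq_top]
    intro hu
    obtain ⟨y, hy⟩ := hu.exists_right_inv
    have h1 : (2 : ℂ) * (y : ℂ) = 1 := congrArg Subtype.val hy
    have h2 : IsIntegral ℤ (algebraMap ℚ ℂ (1 / 2)) := by
      have e : algebraMap ℚ ℂ (1 / 2) = (y : ℂ) := by
        rw [map_div₀, map_one, map_ofNat]
        linear_combination (-1 / 2 : ℂ) * h1
      rw [e]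
      exact y.2
    have h3 : IsIntegral ℤ ((1 / 2 : ℚ)) :=
      (isIntegral_algebraMap_iff (algebraMap ℚ ℂ).injective).1 h2
    obtain ⟨q, hq⟩ := IsIntegrallyClosed.isIntegral_iff.1 h3
    have h4 : (2 * q : ℚ) = 1 := by
      have hq' : (q : ℚ) = 1 / 2 := hq
      rw [hq']
      norm_num
    have h5 : 2 * q = 1 := by exact_mod_cast h4
    omega)
  exact ⟨m, hm.isPrime, hle (Ideal.mem_span_singleton_self 2)⟩

section ord

variable {O : Type} [CommRing O] {D : BI.Ord O} {n : O} {c : O → ℂ} {C : ℝ} {w : ℂ}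
  {M : Submodule ℤ ℂ}

/-- the sum for a character of 2-power order -/
theorem sum_cong [IsDomain O] (h : MG D n c C w M)
    (hcu : ∀ u : O, IsUnit u → ∀ x, c (u * x) = c x) {H : Finset O} (hH : H4 H)
    {T : Finset O} (hT : Fam T) {χ : O → ℂ} (hχ : Hc T χ)
    (hn : ∀ p ∈ T, ¬ p ∣ n) {k : ℕ} (hk : ∀ x, (∀ p ∈ T, ¬ p ∣ x) → χ x ^ 2 ^ k = 1)
    (hu : ∀ u : O, IsUnit u → χ u = 1)
    {Λ : AddSubgroup ℂ}
    (hΛ : ∀ x m : O, m ≠ 0 → IsCoprime m n → fv D c (D.ι x / D.ι m) ∈ Λ)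
    (lam : Ideal (integralClosure ℤ ℂ)) (hlam : lam.IsPrime)
    (h2 : (2 : integralClosure ℤ ℂ) ∈ lam) :
    ∃ y ∈ lamG lam Λ, ∑ x ∈ rs D (md T), conj (χ x) * fv D c (D.ι x / D.ι (md T)) =
      (∏ q ∈ T, (c q - 2)) * fv D c 0 + H.card * y := by
  classical
  set f := fv D c with hf
  have h1 : st D f T ∅ = (∏ q ∈ T, (c q - 2)) * f 0 := by
    have h2 := st_prod h (T := ∅) T (Finset.disjoint_empty_right T)
      (by rw [Finset.union_empty]; exact hT) (by rw [Finset.union_empty]; exact hn)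
    rw [Finset.union_empty] at h2
    rw [h2, bt_empty f (fun z y => fv_periodic D c z y)]
    congr 1
    refine Finset.prod_congr rfl fun q _ => ?_
    unfold chi
    simp
  rcases T.eq_empty_or_nonempty with hT0 | hne
  · subst hT0
    refine ⟨0, (lamG lam Λ).zero_mem, ?_⟩
    rw [← h1, mul_zero, add_zero]
    unfold st
    refine Finset.sum_congr rfl fun x _ => ?_
    have h3 : χ x = 1 := by
      rw [hχ.prd x 1 (by unfold md; rw [Finset.prod_empty]; exact one_dvd _), hχ.one]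
    have h5 : chi (∅ : Finset O) x = 1 := by unfold chi; simp
    rw [h3, h5, map_one, cop_one_of (x := x) (fun p hp => absurd hp (Finset.notMem_empty p)),
      one_mul, one_mul, one_mul]
  have hcopm : IsCoprime (md T) n := md_coprime D hT hn
  set g : O → ℂ := fun x => (conj (χ x) - cop T x) * f (D.ι x / D.ι (md T)) with hg
  have hιm : D.ι (md T) ≠ 0 := fun h0 => hT.md_ne (D.inj (by rw [h0, map_zero]))
  have hfp : Prd (md T) fun x => f (D.ι x / D.ι (md T)) := by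
    rintro x y ⟨k, hk⟩
    have e : D.ι x / D.ι (md T) = D.ι y / D.ι (md T) + D.ι k := by
      have h3 : D.ι x = D.ι y + D.ι (md T) * D.ι k := by
        rw [← map_mul, ← map_add]
        congr 1
        linear_combination hk
      rw [h3]
      field_simp
    show f (D.ι x / D.ι (md T)) = f (D.ι y / D.ι (md T))
    rw [e]
    exact fv_periodic D c _ k
  have hgp : Prd (md T) g := by
    intro x y hxy
    have h3 := hfp x y hxy
    have h4 := hχ.prd x y hxy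
    have h5 := cop_prd (S := T) (m := md T) (fun p hp => dvd_md hp) x y hxy
    simp only at h3
    simp only [hg, h4, h3, h5]
  have hun : ∀ u ∈ H, IsUnit u := fun u hu =>
    IsUnit.of_mul_eq_one (u ^ 3) (by rw [← pow_succ']; exact (hH.mem u).1 hu)
  obtain ⟨z, hz, h3⟩ := orb hH hT hne (rs_CRS D hT.md_ne) hgp (fun u huH x => by
    have h3 := hun u huH
    simp only [hg]
    have h6 : f (D.ι u * (D.ι x / D.ι (md T))) = f (D.ι x / D.ι (md T)) := fv_unit hcu h3 _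
    rw [hχ.mul, hu u h3, one_mul, map_mul D.ι, mul_div_assoc, h6, cop_mul hT.pr,
      cop_one_of (x := u) fun p hp hd => (hT.pr p hp).not_isUnit (isUnit_of_dvd_unit hd h3),
      one_mul])
    (fun x p hp hd => by
      simp only [hg]
      rw [hχ.zero x p hp hd, cop_zero_of hp hd, map_zero, sub_zero, zero_mul])
    (Λ := lamG lam Λ) (fun x => by
      simp only [hg]
      by_cases hx : ∀ p ∈ T, ¬ p ∣ x
      · rw [cop_one_of hx]
        have h4 : (conj (χ x)) ^ 2 ^ k = 1 := by rw [← map_pow, hk x hx, map_one]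
        let zz : integralClosure ℤ ℂ := ⟨conj (χ x), int_pow h4⟩
        have h5 : zz - 1 ∈ lam := lam_pow lam hlam h2 k zz (Subtype.ext (by
          show (conj (χ x)) ^ 2 ^ k = 1
          exact h4))
        exact AddSubgroup.subset_closure ⟨zz - 1, h5, _, hΛ x (md T) hT.md_ne hcopm, rfl⟩
      · push Not at hx
        obtain ⟨p, hp, hd⟩ := hx
        rw [hχ.zero x p hp hd, cop_zero_of hp hd, map_zero, sub_zero, zero_mul]
        exact (lamG lam Λ).zero_mem)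
  refine ⟨z, hz, ?_⟩
  rw [← h1, ← h3]
  unfold st
  rw [← Finset.sum_add_distrib]
  refine Finset.sum_congr rfl fun x _ => ?_
  have h5 : chi (∅ : Finset O) x = 1 := by unfold chi; simp
  simp only [hg]
  rw [h5]
  ring

lemma prod_odd {T : Finset O} (hc : ∀ q ∈ T, ∃ m : ℤ, c q = m ∧ m % 2 = 1) :
    ∃ k : ℤ, ∏ q ∈ T, (c q - 2) = ((1 + 2 * k : ℤ) : ℂ) := by
  classical
  have key : ∀ S : Finset O, (∀ q ∈ S, ∃ m : ℤ, c q = m ∧ m % 2 = 1) →
      ∃ k : ℤ, ∏ q ∈ S, (c q - 2) = ((1 + 2 * k : ℤ) : ℂ) := by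
    intro S
    induction S using Finset.induction_on with
    | empty => intro _; exact ⟨0, by simp⟩
    | insert q S hq ih =>
      intro hS
      obtain ⟨k, hk⟩ := ih fun q' hq' => hS q' (Finset.mem_insert_of_mem hq')
      obtain ⟨m, hm, hm2⟩ := hS q (Finset.mem_insert_self q S)
      obtain ⟨l, rfl⟩ : ∃ l : ℤ, m = 2 * l + 1 := ⟨m / 2, by omega⟩
      refine ⟨k + (l - 1) * (1 + 2 * k), ?_⟩
      rw [Finset.prod_insert hq, hk, hm]
      push_cast
      ring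
  exact key T hc

/-- odd multiples -/
lemma odd_ne {lam : Ideal (integralClosure ℤ ℂ)} (h2 : (2 : integralClosure ℤ ℂ) ∈ lam)
    {Λ : AddSubgroup ℂ} {H : Finset O} [IsDomain O] (hH : H4 H) {z : ℂ} (hz : z ∈ Λ)
    (hodd : ∀ y ∈ lamG lam Λ, z ≠ H.card * y) (k : ℤ) {y : ℂ} (hy : y ∈ lamG lam Λ) :
    ((1 + 2 * k : ℤ) : ℂ) * z + H.card * y ≠ 0 := by
  obtain ⟨e, he⟩ := hH.card_dvd
  intro h5
  obtain ⟨j, hj⟩ : ∃ j : ℤ, (1 + 2 * k) * (1 + 2 * k) = 1 + 8 * j := by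
    obtain ⟨i, hi⟩ : ∃ i : ℤ, k * (k + 1) = 2 * i := by
      rcases Int.even_or_odd k with ⟨r, hr⟩ | ⟨r, hr⟩
      · exact ⟨r * (k + 1), by rw [hr]; ring⟩
      · exact ⟨k * (r + 1), by rw [hr]; ring⟩
    exact ⟨i, by linear_combination 4 * hi⟩
  refine hodd (-((1 + 2 * k) • y + 2 * ((e * j : ℤ) • z))) ((lamG lam Λ).neg_mem
    ((lamG lam Λ).add_mem ((lamG lam Λ).zsmul_mem hy _)
    (two_mul_lamG h2 (Λ.zsmul_mem hz _)))) ?_
  rw [zsmul_eq_mul, zsmul_eq_mul]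
  have hjC : ((1 + 2 * k : ℤ) : ℂ) * ((1 + 2 * k : ℤ) : ℂ) = 1 + 8 * (j : ℂ) := by
    exact_mod_cast hj
  have heC : (4 : ℂ) = (H.card : ℂ) * (e : ℂ) := by exact_mod_cast he
  push_cast at h5 hjC ⊢
  linear_combination (1 + 2 * (k : ℂ)) * h5 - z * hjC - 2 * (j : ℂ) * z * heC

/-- the Gauss sum of the conjugate character -/
lemma gx_conj (D : BI.Ord O) [IsDomain O] {T : Finset O} (hT : Fam T) {χ : O → ℂ} (hχ : Hc T χ)
    (hneg : χ (-1) = 1) :
    gx D T χ 1 * gx D T (br χ) 1 = (D.nm (md T) : ℂ) ∧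
      conj (gx D T (br χ) 1) = gx D T χ 1 := by
  classical
  have hm := hT.md_ne
  have hιm : D.ι (md T) ≠ 0 := fun h => hm (D.inj (by rw [h, map_zero]))
  have hS := rs_CRS D hm
  have key : ∀ ψ : O → ℂ, Hc T ψ → ψ (-1) = 1 →
      ∑ α ∈ rs D (md T), ψ α * ee D.δ (-(D.ι α / D.ι (md T))) = gx D T ψ 1 := by
    intro ψ hψ hψ1
    have hprd := hψ.prd.mul (ee_prd D hιm 1)
    have h2 := CRS.sum_unit (u := -1) (isCoprime_one_left.neg_left) hS hprd
    unfold gx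
    rw [← h2]
    refine Finset.sum_congr rfl fun x _ => ?_
    rw [hψ.mul, hψ1, one_mul, one_mul, map_mul, map_neg, map_one]
    congr 2
    ring
  have hbr : br χ (-1) = 1 := by
    show conj (χ (-1)) = 1
    rw [hneg, map_one]
  refine ⟨?_, ?_⟩
  · rw [← gx_mul D hT hχ, ← key (br χ) hχ.br hbr]
    rfl
  · rw [← key χ hχ hneg]
    unfold gx
    rw [map_sum]
    refine Finset.sum_congr rfl fun x _ => ?_
    rw [map_mul, one_mul]
    show conj (conj (χ x)) * _ = _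
    rw [Complex.conj_conj]
    congr 1
    rw [ee_neg]
    have h1 : ee D.δ (D.ι x / D.ι (md T)) * conj (ee D.δ (D.ι x / D.ι (md T))) = 1 := by
      rw [Complex.mul_conj, Complex.normSq_eq_norm_sq, ee_norm]
      simp
    exact eq_inv_of_mul_eq_one_right h1

end ord

end Pool.Agent.K4H55.CX
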