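import Pool.Agent.K4H55.CX.Cof

/-!
Cubic fields: unramified places, inert places.
-/

set_option autoImplicit false

namespace Pool.Agent.K4H55.CX

open NumberField IsDedekindDomain Polynomial WithZero
open Pool.Agent.K4H55.BD

variable {K : Type} [Field K] [NumberField K] {L : Type} [Field L] [NumberField L] [Algebra K L]
  {a b : 𝓞 K} {θ : L}

/-- no root in `K` -/
lemma cub_noroot (h : Cub K θ) (hθ : θ ^ 3 + algebraMap K L a * θ + algebraMap K L b = 0) (x : K) :
    x ^ 3 + (a : K) * x + (b : K) ≠ 0 := by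
  intro hx
  have hxL : (algebraMap K L x) ^ 3 + algebraMap K L a * algebraMap K L x + algebraMap K L b = 0 := by
    have := congrArg (algebraMap K L) hx
    simpa only [map_add, map_mul, map_pow, map_zero] using this
  have h1 : (θ - algebraMap K L x) * (θ ^ 2 + algebraMap K L x * θ + algebraMap K L (x ^ 2 + a)) =
      0 := by
    simp only [map_add, map_pow]
    linear_combination hθ - hxL
  rcases mul_eq_zero.1 h1 with h2 | h2
  · have h3 := h.ind (-x) 1 0 (by
      simp only [map_neg, map_one, map_zero]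
      linear_combination h2)
    exact one_ne_zero h3.2.1
  · have h3 := h.ind (x ^ 2 + a) x 1 (by
      simp only [map_one]
      linear_combination h2)
    exact one_ne_zero h3.2.2

/-- the discriminant and the derivative -/
lemma disc_mem {t : 𝓞 L} (ht : (t : L) = θ)
    (hθ : θ ^ 3 + algebraMap K L a * θ + algebraMap K L b = 0) {P : Ideal (𝓞 L)}
    (hP : 3 * t ^ 2 + algebraMap (𝓞 K) (𝓞 L) a ∈ P) :
    algebraMap (𝓞 K) (𝓞 L) (2 * (4 * a ^ 3 + 27 * b ^ 2)) ∈ P := by
  set α := algebraMap (𝓞 K) (𝓞 L) a with hα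
  set β := algebraMap (𝓞 K) (𝓞 L) b with hβ
  have h0 : t ^ 3 + α * t + β = 0 := by
    apply RingOfIntegers.ext
    simp only [map_add, map_mul, map_pow, map_zero]
    have ht' : algebraMap (𝓞 L) L t = θ := ht
    rw [ht']
    exact hθ
  have e : algebraMap (𝓞 K) (𝓞 L) (2 * (4 * a ^ 3 + 27 * b ^ 2)) =
      (3 * t ^ 2 + α) * (2 * (6 * α * t ^ 2 - 9 * β * t + 4 * α ^ 2)) := by
    simp only [map_mul, map_add, map_pow, map_ofNat]
    rw [← hα, ← hβ]
    linear_combination (-2) * (18 * α * t - 27 * β) * h0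
  rw [e]
  exact P.mul_mem_right _ hP

/-- the places not dividing the discriminant are unramified -/
theorem unr (h : Cub K θ) (hθ : θ ^ 3 + algebraMap K L a * θ + algebraMap K L b = 0)
    (w : HeightOneSpectrum (𝓞 L))
    (hw : algebraMap (𝓞 K) (𝓞 L) (2 * (4 * a ^ 3 + 27 * b ^ 2)) ∉ w.asIdeal) (x : K) :
    w.valuation L (algebraMap K L x) = (low (K := K) w).valuation K x := by
  classical
  obtain ⟨t, ht⟩ := theta_int hθ
  have hint : IsIntegral (𝓞 K) t := Algebra.IsIntegral.isIntegral t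
  have hmin : minpoly (𝓞 K) t = X ^ 3 + C a * X + C b := by
    have hK : minpoly K (θ : L) = X ^ 3 + C (a : K) * X + C (b : K) := by
      have hirr := cp_irr (a : K) (b : K) (cub_noroot h hθ)
      symm
      refine minpoly.eq_of_irreducible_of_monic hirr ?_ (cp_monic _ _)
      show aeval θ (X ^ 3 + C (a : K) * X + C (b : K)) = 0
      simp only [map_add, map_mul, map_pow, aeval_X, aeval_C]
      exact hθ
    have h1 := minpoly.isIntegrallyClosed_eq_field_fractions K L hint
    have ht' : algebraMap (𝓞 L) L t = θ := ht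
    rw [ht', hK] at h1
    apply Polynomial.map_injective (algebraMap (𝓞 K) K) (RingOfIntegers.coe_injective)
    rw [← h1]
    simp only [Polynomial.map_add, Polynomial.map_mul, Polynomial.map_pow, Polynomial.map_X,
      Polynomial.map_C]
  have hadj : Algebra.adjoin K {algebraMap (𝓞 L) L t} = ⊤ := by
    have ht' : algebraMap (𝓞 L) L t = θ := ht
    rw [ht', eq_top_iff]
    intro β _
    obtain ⟨p, q, r, rfl⟩ := h.span β
    have hm : θ ∈ Algebra.adjoin K {θ} := Algebra.subset_adjoin rfl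
    exact Subalgebra.add_mem _ (Subalgebra.add_mem _ (Subalgebra.algebraMap_mem _ _)
      (Subalgebra.mul_mem _ (Subalgebra.algebraMap_mem _ _) hm))
      (Subalgebra.mul_mem _ (Subalgebra.algebraMap_mem _ _) (Subalgebra.pow_mem _ hm 2))
  have hdiff := aeval_derivative_mem_differentIdeal (𝓞 K) K L t hadj
  rw [hmin] at hdiff
  simp only [derivative_add, derivative_mul, derivative_X_pow, derivative_C, derivative_X,
    zero_mul, mul_one, zero_add, add_zero, map_add, map_mul, map_pow, aeval_X, aeval_C,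
    map_natCast] at hdiff
  set v := low (K := K) w with hv
  have hmax : v.asIdeal.IsMaximal := v.isMaximal
  have he : v.asIdeal.ramificationIdx' w.asIdeal = 1 := by
    have h0 : v.asIdeal.ramificationIdx' w.asIdeal ≠ 0 :=
      Ideal.IsDedekindDomain.ramificationIdx'_ne_zero_of_liesOver w.asIdeal v.ne_bot
    by_contra hne
    have h2 : 2 ≤ v.asIdeal.ramificationIdx' w.asIdeal := by omega
    have h3 : w.asIdeal ^ (v.asIdeal.ramificationIdx' w.asIdeal) ∣
        v.asIdeal.map (algebraMap (𝓞 K) (𝓞 L)) := by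
      rw [Ideal.dvd_iff_le]
      exact Ideal.le_pow_ramificationIdx'
    have h4 := pow_sub_one_dvd_differentIdeal (𝓞 K) w.asIdeal _ v.ne_bot h3
    have h5 : w.asIdeal ∣ differentIdeal (𝓞 K) (𝓞 L) :=
      (dvd_pow_self _ (by omega)).trans h4
    rw [Ideal.dvd_iff_le] at h5
    have h6 := h5 hdiff
    apply hw
    refine disc_mem ht hθ (t := t) ?_
    convert h6 using 1
    push_cast
    ring
  have h1 := HeightOneSpectrum.valuation_liesOver (K := K) L v w x
  rw [he, pow_one] at h1
  exact h1.symm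

/-- the norm form at an inert place -/
lemma G_unit {v : HeightOneSpectrum (𝓞 K)} (hv : ∀ X : 𝓞 K, X ^ 3 + a * X + b ∉ v.asIdeal)
    {p q r : K} (hp : v.valuation K p ≤ 1) (hq : v.valuation K q ≤ 1) (hr : v.valuation K r ≤ 1)
    (h1 : v.valuation K p = 1 ∨ v.valuation K q = 1 ∨ v.valuation K r = 1) :
    v.valuation K (G (a : K) (b : K) p q r) = 1 := by
  classical
  obtain ⟨P, hP⟩ := v.exists_valuation_sub_lt_of_integer hp 1
  obtain ⟨Q, hQ⟩ := v.exists_valuation_sub_lt_of_integer hq 1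
  obtain ⟨R, hR⟩ := v.exists_valuation_sub_lt_of_integer hr 1
  rw [Units.val_one] at hP hQ hR
  have hmax : v.asIdeal.IsMaximal := v.isMaximal
  let _ : Field (𝓞 K ⧸ v.asIdeal) := Ideal.Quotient.field v.asIdeal
  set π := Ideal.Quotient.mk v.asIdeal with hπ
  have hroot : ∀ x : 𝓞 K ⧸ v.asIdeal, x ^ 3 + π a * x + π b ≠ 0 := by
    intro x hx
    obtain ⟨X, rfl⟩ := Ideal.Quotient.mk_surjective x
    apply hv X
    rw [← Ideal.Quotient.eq_zero_iff_mem]
    simpa only [map_add, map_mul, map_pow] using hx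
  have hnot : G a b P Q R ∉ v.asIdeal := by
    intro hm
    have h2 : G (π a) (π b) (π P) (π Q) (π R) = 0 := by
      rw [← G_map]
      exact Ideal.Quotient.eq_zero_iff_mem.2 hm
    have hF : Fact (Irreducible (cp (π a) (π b))) := ⟨cp_irr _ _ hroot⟩
    obtain ⟨e1, e2, e3⟩ := G_ne (cp_cub (π a) (π b) hroot) (cp_root (π a) (π b)) hroot h2
    have key : ∀ (X : 𝓞 K) (x : K), π X = 0 → v.valuation K (algebraMap (𝓞 K) K X - x) < 1 →
        v.valuation K x ≠ 1 := by
      intro X x hX hlt
      have h3 : v.valuation K (algebraMap (𝓞 K) K X) < 1 :=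
        (v.valuation_lt_one_iff_mem (K := K) X).2 (Ideal.Quotient.eq_zero_iff_mem.1 hX)
      have h4 : x = algebraMap (𝓞 K) K X - (algebraMap (𝓞 K) K X - x) := by ring
      rw [h4]
      exact ((v.valuation K).map_sub_lt h3 hlt).ne
    rcases h1 with h1 | h1 | h1
    · exact key P p e1 hP h1
    · exact key Q q e2 hQ h1
    · exact key R r e3 hR h1
  have hval : v.valuation K (algebraMap (𝓞 K) K (G a b P Q R)) = 1 :=
    v.valuation_eq_one_iff_notMem.2 hnot
  rw [G_map] at hval
  have hI : ∀ X : 𝓞 K, v.valuation K (algebraMap (𝓞 K) K X) ≤ 1 := fun X => v.valuation_le_one X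
  -- congruences
  have hadd : ∀ x x' y y' : K, v.valuation K (x - x') < 1 → v.valuation K (y - y') < 1 →
      v.valuation K ((x + y) - (x' + y')) < 1 := by
    intro x x' y y' h2 h3
    have : (x + y) - (x' + y') = (x - x') + (y - y') := by ring
    rw [this]
    exact (v.valuation K).map_add_lt h2 h3
  have hsub : ∀ x x' y y' : K, v.valuation K (x - x') < 1 → v.valuation K (y - y') < 1 →
      v.valuation K ((x - y) - (x' - y')) < 1 := by
    intro x x' y y' h2 h3
    have : (x - y) - (x' - y') = (x - x') - (y - y') := by ring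
    rw [this]
    exact (v.valuation K).map_sub_lt h2 h3
  have hmul : ∀ x x' y y' : K, v.valuation K x' ≤ 1 → v.valuation K y ≤ 1 →
      v.valuation K (x - x') < 1 → v.valuation K (y - y') < 1 →
      v.valuation K (x * y - x' * y') < 1 := by
    intro x x' y y' hx hy h2 h3
    have : x * y - x' * y' = (x - x') * y + x' * (y - y') := by ring
    rw [this]
    refine (v.valuation K).map_add_lt ?_ ?_
    · rw [map_mul]
      exact (mul_le_of_le_one_right zero_le hy).trans_lt h2
    · rw [map_mul]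
      exact (mul_le_of_le_one_left zero_le hx).trans_lt h3
  have hone : v.valuation K (G (algebraMap (𝓞 K) K a) (algebraMap (𝓞 K) K b)
      (algebraMap (𝓞 K) K P) (algebraMap (𝓞 K) K Q) (algebraMap (𝓞 K) K R) -
      G (a : K) (b : K) p q r) < 1 := by
    have e : ∀ P Q R : K, G (a : K) (b : K) P Q R = P * (P * P) - 2 * (a : K) * (P * (P * R)) +
        (a : K) * (a : K) * (P * (R * R)) + (a : K) * (P * (Q * Q)) +
        3 * (b : K) * (P * (Q * R)) + (b : K) * (b : K) * (R * (R * R)) - (b : K) * (Q * (Q * Q)) -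
        (a : K) * (b : K) * (Q * (R * R)) := by
      intro P Q R
      unfold G
      ring
    have hc : ∀ (X : 𝓞 K) (x y : K), v.valuation K (x - y) < 1 →
        v.valuation K (algebraMap (𝓞 K) K X * x - algebraMap (𝓞 K) K X * y) < 1 := by
      intro X x y h2
      rw [← mul_sub, map_mul]
      exact (mul_le_of_le_one_left zero_le (hI X)).trans_lt h2
    have m2 : ∀ x x' y y' : K, v.valuation K x ≤ 1 ∧ v.valuation K x' ≤ 1 ∧
        v.valuation K (x - x') < 1 → v.valuation K y ≤ 1 ∧ v.valuation K y' ≤ 1 ∧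
        v.valuation K (y - y') < 1 → v.valuation K (x * y) ≤ 1 ∧ v.valuation K (x' * y') ≤ 1 ∧
        v.valuation K (x * y - x' * y') < 1 := by
      intro x x' y y' h2 h3
      refine ⟨?_, ?_, hmul _ _ _ _ h2.2.1 h3.1 h2.2.2 h3.2.2⟩
      · rw [map_mul]; exact mul_le_one' h2.1 h3.1
      · rw [map_mul]; exact mul_le_one' h2.2.1 h3.2.1
    have hP' : v.valuation K (algebraMap (𝓞 K) K P) ≤ 1 ∧ v.valuation K p ≤ 1 ∧
        v.valuation K (algebraMap (𝓞 K) K P - p) < 1 := ⟨hI P, hp, hP⟩
    have hQ' : v.valuation K (algebraMap (𝓞 K) K Q) ≤ 1 ∧ v.valuation K q ≤ 1 ∧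
        v.valuation K (algebraMap (𝓞 K) K Q - q) < 1 := ⟨hI Q, hq, hQ⟩
    have hR' : v.valuation K (algebraMap (𝓞 K) K R) ≤ 1 ∧ v.valuation K r ≤ 1 ∧
        v.valuation K (algebraMap (𝓞 K) K R - r) < 1 := ⟨hI R, hr, hR⟩
    rw [e, e]
    have c1 := hc 2 _ _ (hc a _ _ (m2 _ _ _ _ hP' (m2 _ _ _ _ hP' hR')).2.2)
    have c2 := hc a _ _ (hc a _ _ (m2 _ _ _ _ hP' (m2 _ _ _ _ hR' hR')).2.2)
    have c3 := hc a _ _ (m2 _ _ _ _ hP' (m2 _ _ _ _ hQ' hQ')).2.2
    have c4 := hc 3 _ _ (hc b _ _ (m2 _ _ _ _ hP' (m2 _ _ _ _ hQ' hR')).2.2)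
    have c5 := hc b _ _ (hc b _ _ (m2 _ _ _ _ hR' (m2 _ _ _ _ hR' hR')).2.2)
    have c6 := hc b _ _ (m2 _ _ _ _ hQ' (m2 _ _ _ _ hQ' hQ')).2.2
    have c7 := hc a _ _ (hc b _ _ (m2 _ _ _ _ hQ' (m2 _ _ _ _ hR' hR')).2.2)
    have c0 := (m2 _ _ _ _ hP' (m2 _ _ _ _ hP' hP')).2.2
    have c := hsub _ _ _ _ (hsub _ _ _ _ (hadd _ _ _ _ (hadd _ _ _ _ (hadd _ _ _ _
      (hadd _ _ _ _ (hsub _ _ _ _ c0 c1) c2) c3) c4) c5) c6) c7
    convert c using 2
    simp only [map_ofNat]
    ring
  have e : G (a : K) (b : K) p q r = G (algebraMap (𝓞 K) K a) (algebraMap (𝓞 K) K b)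
      (algebraMap (𝓞 K) K P) (algebraMap (𝓞 K) K Q) (algebraMap (𝓞 K) K R) -
      (G (algebraMap (𝓞 K) K a) (algebraMap (𝓞 K) K b)
      (algebraMap (𝓞 K) K P) (algebraMap (𝓞 K) K Q) (algebraMap (𝓞 K) K R) -
      G (a : K) (b : K) p q r) := by ring
  rw [e, Valuation.map_sub_eq_of_lt_left, hval]
  rw [hval]
  exact hone

/-- parity at an inert place -/
theorem par_adm (h : Cub K θ) (hθ : θ ^ 3 + algebraMap K L a * θ + algebraMap K L b = 0)
    (w : HeightOneSpectrum (𝓞 L))
    (hv : ∀ X : 𝓞 K, X ^ 3 + a * X + b ∉ (low (K := K) w).asIdeal) {z : L} (hz : z ≠ 0)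
    (hN : IsSquare (Algebra.norm K z)) : IsSquare (w.valuation L z) := by
  classical
  set v := low (K := K) w with hvd
  obtain ⟨t', ht'⟩ := theta_int hθ
  obtain ⟨p, q, r, rfl⟩ := h.span z
  have hwK : ∀ x : K, v.valuation K x ^ (v.asIdeal.ramificationIdx' w.asIdeal) =
      w.valuation L (algebraMap K L x) := fun x =>
    HeightOneSpectrum.valuation_liesOver (K := K) L v w x
  have hle : ∀ x : K, v.valuation K x ≤ 1 → w.valuation L (algebraMap K L x) ≤ 1 := fun x hx => by
    rw [← hwK]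
    exact pow_le_one' hx _
  obtain ⟨t, ht0, h1, h2, h3, h4⟩ : ∃ t : K, t ≠ 0 ∧ v.valuation K p ≤ v.valuation K t ∧
      v.valuation K q ≤ v.valuation K t ∧ v.valuation K r ≤ v.valuation K t ∧
      (t = p ∨ t = q ∨ t = r) := by
    have hne : ∀ t : K, v.valuation K p ≤ v.valuation K t → v.valuation K q ≤ v.valuation K t →
        v.valuation K r ≤ v.valuation K t → t ≠ 0 := by
      rintro t h1 h2 h3 rfl
      rw [map_zero] at h1 h2 h3
      have e1 := (_root_.map_eq_zero (v.valuation K)).1 (le_antisymm h1 zero_le)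
      have e2 := (_root_.map_eq_zero (v.valuation K)).1 (le_antisymm h2 zero_le)
      have e3 := (_root_.map_eq_zero (v.valuation K)).1 (le_antisymm h3 zero_le)
      apply hz
      rw [e1, e2, e3]
      simp
    rcases le_total (v.valuation K p) (v.valuation K q) with c1 | c1
    · rcases le_total (v.valuation K q) (v.valuation K r) with c2 | c2
      · exact ⟨r, hne r (c1.trans c2) c2 le_rfl, c1.trans c2, c2, le_rfl, Or.inr (Or.inr rfl)⟩
      · exact ⟨q, hne q c1 le_rfl c2, c1, le_rfl, c2, Or.inr (Or.inl rfl)⟩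
    · rcases le_total (v.valuation K p) (v.valuation K r) with c2 | c2
      · exact ⟨r, hne r c2 (c1.trans c2) le_rfl, c2, c1.trans c2, le_rfl, Or.inr (Or.inr rfl)⟩
      · exact ⟨p, hne p le_rfl c1 c2, le_rfl, c1, c2, Or.inl rfl⟩
  have hvt : v.valuation K t ≠ 0 := (Valuation.ne_zero_iff _).2 ht0
  have hdiv : ∀ x : K, v.valuation K x ≤ v.valuation K t → v.valuation K (x / t) ≤ 1 := by
    intro x hx
    rw [map_div₀]
    exact (div_le_one₀ (zero_lt_iff.2 hvt)).2 hx
  have hone : v.valuation K (p / t) = 1 ∨ v.valuation K (q / t) = 1 ∨ v.valuation K (r / t) = 1 := by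
    rcases h4 with rfl | rfl | rfl
    · left; rw [div_self ht0, map_one]
    · right; left; rw [div_self ht0, map_one]
    · right; right; rw [div_self ht0, map_one]
  have hG := G_unit hv (hdiv p h1) (hdiv q h2) (hdiv r h3) hone
  have hGe : G (a : K) (b : K) p q r = t ^ 3 * G (a : K) (b : K) (p / t) (q / t) (r / t) := by
    unfold G
    field_simp
  have hNe : Algebra.norm K (algebraMap K L p + algebraMap K L q * θ + algebraMap K L r * θ ^ 2) =
      G (a : K) (b : K) p q r := norm_G h hθ p q r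
  -- the valuation of `t` is a square
  have hsq : IsSquare (v.valuation K t) := by
    rw [hNe, hGe] at hN
    obtain ⟨s, hs⟩ := hN
    have h5 := congrArg (v.valuation K) hs
    rw [map_mul, map_mul, map_pow, hG, mul_one] at h5
    refine ⟨v.valuation K s / v.valuation K t, ?_⟩
    rw [div_mul_div_comm, ← h5, eq_div_iff (mul_ne_zero hvt hvt), pow_succ, sq, mul_comm]
  -- the unit
  have hadj := mul_adj (a := (a : K)) (b := (b : K)) hθ (p / t) (q / t) (r / t)
  set z' := algebraMap K L (p / t) + algebraMap K L (q / t) * θ + algebraMap K L (r / t) * θ ^ 2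
    with hz'
  have hzz : algebraMap K L p + algebraMap K L q * θ + algebraMap K L r * θ ^ 2 =
      algebraMap K L t * z' := by
    rw [hz']
    simp only [map_div₀]
    have : algebraMap K L t ≠ 0 := (_root_.map_ne_zero _).2 ht0
    field_simp
  have hθ1 : w.valuation L θ ≤ 1 := by
    rw [← ht']
    exact w.valuation_le_one t'
  have hint : ∀ x y z : K, v.valuation K x ≤ 1 → v.valuation K y ≤ 1 → v.valuation K z ≤ 1 →
      w.valuation L (algebraMap K L x + algebraMap K L y * θ + algebraMap K L z * θ ^ 2) ≤ 1 := by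
    intro x y z hx hy hz
    refine (w.valuation L).map_add_le ((w.valuation L).map_add_le (hle x hx) ?_) ?_
    · rw [map_mul]
      exact mul_le_one' (hle y hy) hθ1
    · rw [map_mul, map_pow]
      exact mul_le_one' (hle z hz) (pow_le_one' hθ1 2)
  have hw1 : w.valuation L z' ≤ 1 := hint _ _ _ (hdiv p h1) (hdiv q h2) (hdiv r h3)
  have hIa : v.valuation K (a : K) ≤ 1 := v.valuation_le_one a
  have hIb : v.valuation K (b : K) ≤ 1 := v.valuation_le_one b
  have hp1 := hdiv p h1
  have hq1 := hdiv q h2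
  have hr1 := hdiv r h3
  have hw2 := hint ((p / t - a * (r / t)) ^ 2 + a * (q / t) ^ 2 + b * (q / t) * (r / t))
    (-((q / t) * (p / t) + b * (r / t) ^ 2)) ((q / t) ^ 2 - (p / t) * (r / t) + a * (r / t) ^ 2)
    (by
      refine (v.valuation K).map_add_le ((v.valuation K).map_add_le ?_ ?_) ?_
      · rw [map_pow]
        refine pow_le_one' ((v.valuation K).map_sub_le hp1 ?_) 2
        rw [map_mul]
        exact mul_le_one' hIa hr1
      · rw [map_mul, map_pow]
        exact mul_le_one' hIa (pow_le_one' hq1 2)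
      · rw [map_mul, map_mul]
        exact mul_le_one' (mul_le_one' hIb hq1) hr1)
    (by
      rw [Valuation.map_neg]
      refine (v.valuation K).map_add_le ?_ ?_
      · rw [map_mul]; exact mul_le_one' hq1 hp1
      · rw [map_mul, map_pow]; exact mul_le_one' hIb (pow_le_one' hr1 2))
    (by
      refine (v.valuation K).map_add_le ((v.valuation K).map_sub_le ?_ ?_) ?_
      · rw [map_pow]; exact pow_le_one' hq1 2
      · rw [map_mul]; exact mul_le_one' hp1 hr1
      · rw [map_mul, map_pow]; exact mul_le_one' hIa (pow_le_one' hr1 2))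
  have hw3 := congrArg (w.valuation L) hadj
  rw [map_mul, ← hwK, hG, one_pow] at hw3
  have hw4 : w.valuation L z' = 1 := by
    refine le_antisymm hw1 ?_
    rw [← hw3]
    exact mul_le_of_le_one_right zero_le hw2
  rw [hzz, map_mul, hw4, mul_one, ← hwK]
  exact hsq.pow _

end Pool.Agent.K4H55.CX
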