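import Pool.Agent.K4H55.CX.Chr

/-!
The twisted series for a character.
-/

set_option autoImplicit false

namespace Pool.Agent.K4H55.CX

open Finset Filter Topology Set MeasureTheory
open Pool.Agent.K4H55.BI
open scoped ComplexConjugate

variable {O : Type} [CommRing O]

section cont

variable {D : BI.Ord O} {a a' : O → ℂ} {C : ℝ}

/-- the Mellin transform of `Θ` in terms of the parts -/
lemma Tht_parts2 (ha : Cff D a C) (ha' : Cff D a' C) {T : ℝ} (hT : 0 < T) {ε A : ℂ}
    (hFE : ∀ x : ℝ, 0 < x → Tht D a T x = ε * Tht D a' T x⁻¹ + A) {u : ℂ} (hu : 0 < u.re) :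
    mellin (Tht D a T) u = mellin (Thi D a T) u + ε * mellin (Thi D a' T) (-u) + A / u := by
  have h1 := Thi_conv ha hT u
  have h2 : MellinConvergent (fun x => Thi D a' T x⁻¹) u := by
    have := (MellinConvergent.comp_rpow (f := Thi D a' T) (s := u) (a := -1) (by norm_num)).2 (by
      rw [show u / ((-1 : ℝ) : ℂ) = -u by push_cast; ring]
      exact Thi_conv ha' hT (-u))
    simpa only [Real.rpow_neg_one] using this
  have h3 := hasMellin_one_Ioc hu
  have h2' := h2.const_smul ε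
  have h3' := h3.1.const_smul A
  have h4 := hasMellin_add h1 h2'
  have h5 := hasMellin_add h4.1 h3'
  have h6 : mellin (Tht D a T) u = mellin (fun x => (Thi D a T x + ε • Thi D a' T x⁻¹) +
      A • indicator (Ioc 0 1) (fun _ => 1 : ℝ → ℂ) x) u := by
    unfold mellin
    refine integral_congr_ae ?_
    have h7 : ∀ᵐ x : ℝ ∂volume, x ≠ 1 := by
      have : ({1} : Set ℝ)ᶜ ∈ ae volume := compl_mem_ae_iff.2 (measure_singleton 1)
      filter_upwards [this] with x hx using hx
    refine (ae_restrict_iff' measurableSet_Ioi).2 ?_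
    filter_upwards [h7] with x hx hx0
    have hx0' : (0 : ℝ) < x := hx0
    congr 1
    unfold Thi
    rcases lt_or_gt_of_ne hx with h | h
    · have h8 : 1 < x⁻¹ := (one_lt_inv₀ hx0').2 h
      rw [indicator_of_notMem (show x ∉ Set.Ioi 1 by simp [h.le]),
        indicator_of_mem (show x⁻¹ ∈ Set.Ioi 1 from h8),
        indicator_of_mem (show x ∈ Set.Ioc 0 1 from ⟨hx0', h.le⟩), hFE x hx0']
      simp
    · have h8 : x⁻¹ < 1 := inv_lt_one_of_one_lt₀ h
      rw [indicator_of_mem (show x ∈ Set.Ioi 1 from h),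
        indicator_of_notMem (show x⁻¹ ∉ Set.Ioi 1 by simp [h8.le]),
        indicator_of_notMem (show x ∉ Set.Ioc 0 1 by simp [h])]
      simp
  rw [h6, h5.2, h4.2]
  have h9 := mellin_const_smul (fun x => Thi D a' T x⁻¹) u ε
  have h10 := mellin_const_smul (indicator (Ioc 0 1) (fun _ => 1 : ℝ → ℂ)) u A
  rw [h9, h10, h3.2, mellin_comp_inv]
  simp only [smul_eq_mul]
  ring

/-- **Continuation.** -/
theorem continuation2 (ha : Cff D a C) (ha' : Cff D a' C) {T : ℝ} (hT : 0 < T) {ε A : ℂ}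
    (hFE : ∀ x : ℝ, 0 < x → Tht D a T x = ε * Tht D a' T x⁻¹ + A) :
    ∃ G : ℂ → ℂ, Differentiable ℂ G ∧ (∀ s : ℂ, 1 < s.re →
      Summable (fun x => ‖a x‖ * (D.nm x : ℝ) ^ (-s.re)) →
      G s = ∑' x, a x * (D.nm x : ℂ) ^ (-s)) ∧ G 1 = A := by
  have hTc : (T : ℂ) ≠ 0 := by exact_mod_cast hT.ne'
  have hE := Thi_diff ha hT
  have hE' := Thi_diff ha' hT
  refine ⟨fun s => (T : ℂ) ^ (s - 1) * (((mellin (Thi D a T) (s - 1) +
    ε * mellin (Thi D a' T) (-(s - 1))) * (Complex.Gamma (s - 1))⁻¹ +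
      A * (Complex.Gamma s)⁻¹) * (Complex.Gamma s)⁻¹), ?_, ?_, ?_⟩
  · have h1 : Differentiable ℂ fun s : ℂ => s - 1 := by fun_prop
    have h2 : Differentiable ℂ fun s : ℂ => -(s - 1) := by fun_prop
    have hG := Complex.differentiable_one_div_Gamma
    refine Differentiable.mul (fun s => ?_) (Differentiable.mul (Differentiable.add
      (Differentiable.mul (Differentiable.add (hE.comp h1) ((differentiable_const _).mul
      (hE'.comp h2))) (hG.comp h1)) ((differentiable_const _).mul hG)) hG)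
    exact (h1 s).const_cpow (Or.inl hTc)
  · intro s hs hsum
    set u := s - 1 with hu
    have hsu : s = u + 1 := by rw [hu]; ring
    have hu0 : 0 < u.re := by rw [hu]; simp; linarith
    have hune : u ≠ 0 := by
      intro h
      rw [h] at hu0
      simp at hu0
    have h1 := Tht_parts2 ha ha' hT hFE hu0
    have h2 := Tht_mellin ha hT hu0 (by rw [← hsu]; exact hsum)
    have hΓ : Complex.Gamma u ≠ 0 := Complex.Gamma_ne_zero_of_re_pos hu0
    have hΓ1 : Complex.Gamma (u + 1) = u * Complex.Gamma u := Complex.Gamma_add_one u hune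
    have h3 : mellin (Thi D a T) u + ε * mellin (Thi D a' T) (-u) =
        (T : ℂ) ^ (-u) * (Complex.Gamma (u + 1) * Complex.Gamma u *
          ∑' x, a x * (D.nm x : ℂ) ^ (-(u + 1))) - A / u := by
      rw [← h2, h1]; ring
    rw [hsu]
    simp only [add_sub_cancel_right]
    rw [h3, hΓ1, Complex.cpow_neg]
    have hTu : (T : ℂ) ^ u ≠ 0 := by
      rw [Complex.cpow_def_of_ne_zero hTc]
      exact Complex.exp_ne_zero _
    field_simp
    ring
  · simp [Complex.Gamma_zero]

end cont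

section tw

variable {D : BI.Ord O} {n : O} {c : O → ℂ} {C : ℝ} {w : ℂ} {T : Finset O} {χ : O → ℂ}

/-- the sum over the residues as a twisted series -/
lemma tw_th [IsDomain O] (hc : Cff D c C) (hT : Fam T) (hχ : Hc T χ) {τ : ℝ} (hτ : 0 < τ) :
    ∑ x ∈ rs D (md T), χ x * th D c (D.ι x / D.ι (md T)) τ =
      gx D T χ 1 * th D (fun x => c x * conj (χ x)) 0 τ := by
  have h1 : ∀ x ∈ rs D (md T), χ x * th D c (D.ι x / D.ι (md T)) τ =
      ∑' α, χ x * (c α * ((hb (D.nm α * τ) : ℝ) : ℂ) *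
        ee D.δ (D.ι α * (D.ι x / D.ι (md T)))) := by
    intro x _
    unfold th
    rw [tsum_mul_left]
  rw [Finset.sum_congr rfl h1, ← Summable.tsum_finsetSum fun x _ =>
    (term_summable hc hτ (D.ι x / D.ι (md T))).mul_left _]
  unfold th
  rw [← tsum_mul_left]
  refine tsum_congr fun α => ?_
  have h2 := gx_eq D hT hχ α
  rw [mul_zero, ee_zero, mul_one]
  have h3 : ∑ x ∈ rs D (md T), χ x * (c α * ((hb (D.nm α * τ) : ℝ) : ℂ) *
      ee D.δ (D.ι α * (D.ι x / D.ι (md T)))) = c α * ((hb (D.nm α * τ) : ℝ) : ℂ) * gx D T χ α := by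
    unfold gx
    rw [Finset.mul_sum]
    refine Finset.sum_congr rfl fun x _ => ?_
    rw [map_mul, mul_div_assoc]
    ring
  rw [h3, h2]
  ring

/-- inversion of the unit residues -/
lemma invsum [IsDomain O] (hT : Fam T) (hχ : Hc T χ) (hn : ∀ p ∈ T, ¬ p ∣ n)
    (hneg : χ (-1) = 1) {F : O → ℂ} (hF : Prd (md T) F) {r : O → O}
    (hr : ∀ x ∈ rs D (md T), χ x ≠ 0 → md T ∣ n * x * r x - 1) :
    ∑ x ∈ rs D (md T), conj (χ x) * F (-(r x)) =
      χ n * ∑ x ∈ rs D (md T), χ x * F x := by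
  classical
  have hm := hT.md_ne
  have hS := rs_CRS D hm
  set S := rs D (md T) with hSdef
  have hchp : Prd (md T) χ := hχ.prd
  choose i hi1 hi2 using hS.ex
  set U := S.filter fun x => χ x ≠ 0 with hU
  have hchn : χ n * conj (χ n) = 1 := hχ.nrm n hn
  have hnd : ∀ x, χ x ≠ 0 → ∀ p ∈ T, ¬ p ∣ x := fun x hx p hp hd => hx (hχ.zero x p hp hd)
  have hval : ∀ x ∈ U, χ n * χ (i (-(r x))) = conj (χ x) := by
    intro x hx
    obtain ⟨hxS, hx0⟩ := Finset.mem_filter.1 hx
    have h1 := hr x hxS hx0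
    have h2 : χ (n * x * r x) = 1 := by
      rw [hchp _ _ h1, hχ.one]
    rw [hχ.mul, hχ.mul] at h2
    have h3 : χ (i (-(r x))) = χ (-(r x)) := (hchp _ _ (hi2 (-(r x)))).symm
    have h4 : χ (-(r x)) = χ (r x) := by
      rw [show -(r x) = (-1) * r x by ring, hχ.mul, hneg, one_mul]
    have h5 := hχ.nrm x (hnd x hx0)
    rw [h3, h4]
    linear_combination (conj (χ x)) * h2 - (χ n * χ (r x)) * h5
  have hmaps : ∀ x ∈ U, i (-(r x)) ∈ U := by
    intro x hx
    rw [hU, Finset.mem_filter]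
    refine ⟨hi1 _, ?_⟩
    intro h0
    have h1 := hval x hx
    rw [h0, mul_zero] at h1
    have h2 := hχ.nrm x (hnd x (Finset.mem_filter.1 hx).2)
    rw [← h1, mul_zero] at h2
    exact zero_ne_one h2
  have hinj : ∀ x ∈ U, ∀ x' ∈ U, i (-(r x)) = i (-(r x')) → x = x' := by
    intro x hx x' hx' h
    obtain ⟨hxS, hx0⟩ := Finset.mem_filter.1 hx
    obtain ⟨hxS', hx0'⟩ := Finset.mem_filter.1 hx'
    refine hS.un x hxS x' hxS' ?_
    have h1 := hi2 (-(r x))
    have h2 := hi2 (-(r x'))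
    have h3 : md T ∣ r x - r x' := by
      have : r x - r x' = (-(r x') - i (-(r x'))) - (-(r x) - i (-(r x))) := by rw [h]; ring
      rw [this]
      exact dvd_sub h2 h1
    have h4 := hr x hxS hx0
    have h5 := hr x' hxS' hx0'
    -- `n r(x) (x - x') ≡ 0`
    have h6 : md T ∣ (n * r x) * (x - x') := by
      have : (n * r x) * (x - x') = (n * x * r x - 1) - (n * x' * r x' - 1) -
          (n * x') * (r x - r x') := by ring
      rw [this]
      exact dvd_sub (dvd_sub h4 h5) (h3.mul_left _)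
    have h7 : IsCoprime (md T) (n * r x) := by
      obtain ⟨k, hk⟩ := h4
      exact ⟨-k, x, by linear_combination hk⟩
    exact h7.dvd_of_dvd_mul_left h6
  have himg : U.image (fun x => i (-(r x))) = U := by
    refine Finset.eq_of_subset_of_card_le ?_ ?_
    · intro y hy
      obtain ⟨x, hx, rfl⟩ := Finset.mem_image.1 hy
      exact hmaps x hx
    · rw [card_image_of_injOn fun x hx x' hx' h => hinj x hx x' hx' h]
  have hred : ∀ (φ G : O → ℂ), (∀ x, χ x = 0 → φ x = 0) →
      ∑ x ∈ S, φ x * G x = ∑ x ∈ U, φ x * G x := by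
    intro φ G hφ
    rw [hU, Finset.sum_filter]
    refine Finset.sum_congr rfl fun x _ => ?_
    split_ifs with h
    · rfl
    · push Not at h
      rw [hφ x h, zero_mul]
  rw [hred (fun x => conj (χ x)) (fun x => F (-(r x))) (fun x hx => by rw [hx, map_zero]),
    hred χ F fun x hx => hx]
  have h1 : ∑ y ∈ U, χ y * F y = ∑ x ∈ U, χ (i (-(r x))) * F (i (-(r x))) := by
    conv_lhs => rw [← himg]
    rw [Finset.sum_image fun x hx x' hx' h => hinj x hx x' hx' h]
  rw [h1, Finset.mul_sum]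
  refine Finset.sum_congr rfl fun x hx => ?_
  rw [← hval x hx, ← hF _ _ (hi2 (-(r x)))]
  ring

/-- the functional equation of the twisted sum -/
lemma twist_fe [IsDomain O] (h : MF D n c C w) (hT : Fam T) (hχ : Hc T χ)
    (hn : ∀ p ∈ T, ¬ p ∣ n) (hneg : χ (-1) = 1) {t : ℝ} (ht : 0 < t) :
    ∑ x ∈ rs D (md T), conj (χ x) * Phi D c (D.ι x / D.ι (md T)) t =
      ∑ x ∈ rs D (md T), conj (χ x) * fv D c (D.ι x / D.ι (md T)) -
      w * (χ n * ∑ x ∈ rs D (md T), χ x * Phi D c (D.ι x / D.ι (md T))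
        (1 / (‖D.ι n‖ * ‖D.ι (md T)‖ ^ 2 * t))) := by
  classical
  have hm := hT.md_ne
  have hιm : D.ι (md T) ≠ 0 := fun h => hm (D.inj (by rw [h, map_zero]))
  have hex : ∀ x : O, ∃ r s : O, χ x ≠ 0 → s * md T + n * x * r = 1 := by
    intro x
    by_cases h0 : χ x = 0
    · exact ⟨0, 0, fun h => absurd h0 h⟩
    · have h1 : IsCoprime (md T) x := md_coprime D hT fun p hp hd => h0 (hχ.zero x p hp hd)
      have h2 : IsCoprime (md T) n := md_coprime D hT hn
      obtain ⟨a, b, hab⟩ := h2.mul_right h1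
      exact ⟨b, a, fun _ => by linear_combination hab⟩
  choose r s hrs using hex
  set t' := 1 / (‖D.ι n‖ * ‖D.ι (md T)‖ ^ 2 * t) with ht'
  have hF : Prd (md T) fun x => Phi D c (D.ι x / D.ι (md T)) t' := by
    rintro x y ⟨k, hk⟩
    have hx : x = y + md T * k := by linear_combination hk
    have : D.ι x / D.ι (md T) = D.ι y / D.ι (md T) + D.ι k := by
      rw [hx, map_add, map_mul]
      field_simp
    simp only
    rw [this, Phi_periodic]
  have h1 := invsum (D := D) hT hχ hn hneg hF (r := r) (fun x _ hx => ⟨-s x, by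
    linear_combination hrs x hx⟩)
  rw [← h1, Finset.mul_sum, ← Finset.sum_sub_distrib]
  refine Finset.sum_congr rfl fun x _ => ?_
  by_cases h0 : χ x = 0
  · rw [h0, map_zero]; ring
  · have h2 := (h.lim hm (hrs x h0)).2 t ht
    rw [h2, map_neg, neg_div]
    ring

lemma Hc.le [IsDomain O] (hχ : Hc T χ) (x : O) : ‖χ x‖ ≤ 1 := by
  by_cases h0 : ∀ p ∈ T, ¬ p ∣ x
  · have h1 := hχ.nrm x h0
    have h2 := congrArg norm h1
    rw [norm_mul, norm_one, RCLike.norm_conj] at h2
    nlinarith [norm_nonneg (χ x)]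
  · push Not at h0
    obtain ⟨p, hp, hd⟩ := h0
    rw [hχ.zero x p hp hd, norm_zero]
    exact zero_le_one

lemma Hc.cff [IsDomain O] (hχ : Hc T χ) (hc : Cff D c C) : Cff D (fun x => c x * χ x) C := by
  refine ⟨by simp [hc.zero], fun x => ?_⟩
  rw [norm_mul]
  have h1 := hc.bd x
  have h2 := norm_nonneg (c x)
  calc ‖c x‖ * ‖χ x‖ ≤ ‖c x‖ * 1 := by gcongr; exact hχ.le x
    _ ≤ _ := by rw [mul_one]; exact h1

/-- **The twisted series.** -/
theorem twist [IsDomain O] (h : MF D n c C w) (hT : Fam T) (hχ : Hc T χ)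
    (hn : ∀ p ∈ T, ¬ p ∣ n) (hneg : χ (-1) = 1) :
    ∃ G : ℂ → ℂ, Differentiable ℂ G ∧ (∀ s : ℂ, 1 < s.re →
      Summable (fun x => ‖c x‖ * (D.nm x : ℝ) ^ (-s.re)) →
      G s = ∑' x, c x * χ x * (D.nm x : ℂ) ^ (-s)) ∧
      G 1 = kap D / gx D T (br χ) 1 *
        ∑ x ∈ rs D (md T), conj (χ x) * fv D c (D.ι x / D.ι (md T)) := by
  classical
  have hm := hT.md_ne
  have hιm : D.ι (md T) ≠ 0 := fun h => hm (D.inj (by rw [h, map_zero]))
  have hιn : D.ι n ≠ 0 := fun h' => h.n0 (D.inj (by rw [h', map_zero]))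
  have hk := kap_pos D
  have hg := gx_ne D hT hχ
  have hg' := gx_ne D hT hχ.br
  have ha : Cff D (fun x => c x * χ x) C := hχ.cff h.cff
  have ha' : Cff D (fun x => c x * br χ x) C := hχ.br.cff h.cff
  set NM : ℝ := ‖D.ι n‖ * ‖D.ι (md T)‖ ^ 2 with hNM
  have hNM0 : 0 < NM := by positivity
  set A0 := ∑ x ∈ rs D (md T), conj (χ x) * fv D c (D.ι x / D.ι (md T)) with hA0
  have hkey : ∀ t : ℝ, 0 < t → ∑ x ∈ rs D (md T), conj (χ x) * Phi D c (D.ι x / D.ι (md T)) t =
      ((t ^ 2 : ℝ) : ℂ) * (gx D T (br χ) 1 * th D (fun x => c x * χ x) 0 (kap D * t ^ 2)) := by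
    intro t ht
    have h1 := tw_th h.cff hT hχ.br (τ := kap D * t ^ 2) (by positivity)
    have h2 : (fun x => c x * conj (br χ x)) = fun x => c x * χ x := by
      funext x
      unfold br
      rw [Complex.conj_conj]
    rw [h2] at h1
    rw [← h1, Finset.mul_sum]
    refine Finset.sum_congr rfl fun x _ => ?_
    unfold Phi br
    ring
  have hkey' : ∀ t : ℝ, 0 < t → ∑ x ∈ rs D (md T), χ x * Phi D c (D.ι x / D.ι (md T)) t =
      ((t ^ 2 : ℝ) : ℂ) * (gx D T χ 1 * th D (fun x => c x * br χ x) 0 (kap D * t ^ 2)) := by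
    intro t ht
    have h1 := tw_th h.cff hT hχ (τ := kap D * t ^ 2) (by positivity)
    show _ = _ * (_ * th D (fun x => c x * conj (χ x)) 0 _)
    rw [← h1, Finset.mul_sum]
    refine Finset.sum_congr rfl fun x _ => ?_
    unfold Phi
    ring
  have hFE : ∀ x : ℝ, 0 < x → Tht D (fun x => c x * χ x) (kap D / NM) x =
      (-(w * χ n * gx D T χ 1 / gx D T (br χ) 1)) *
        Tht D (fun x => c x * br χ x) (kap D / NM) x⁻¹ +
        kap D / gx D T (br χ) 1 * A0 := by
    intro x hx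
    set t := Real.sqrt (x / NM) with ht
    have ht0 : 0 < t := Real.sqrt_pos.2 (by positivity)
    have ht2 : t ^ 2 = x / NM := Real.sq_sqrt (by positivity)
    have hts : (1 / (NM * t)) ^ 2 = x⁻¹ / NM := by
      rw [div_pow, mul_pow, ht2]
      field_simp
    have h1 := twist_fe h hT hχ hn hneg ht0
    rw [hkey t ht0, hkey' _ (by positivity)] at h1
    rw [← hNM, hts, ht2, ← hA0] at h1
    unfold Tht
    have h2 : kap D / NM * x = kap D * (x / NM) := by ring
    have h3 : kap D / NM * x⁻¹ = kap D * (x⁻¹ / NM) := by ring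
    rw [h2, h3]
    push_cast at h1 ⊢
    field_simp
    field_simp at h1
    linear_combination (kap D : ℂ) * h1
  obtain ⟨G, hG1, hG2, hG3⟩ := continuation2 ha ha' (T := kap D / NM) (by positivity) hFE
  refine ⟨G, hG1, fun s hs hsum => ?_, hG3⟩
  refine hG2 s hs ?_
  refine Summable.of_nonneg_of_le (fun x => by positivity) (fun x => ?_) hsum
  have h1 := hχ.le x
  have h2 := norm_nonneg (c x)
  rw [norm_mul]
  have h3 : (0 : ℝ) ≤ (D.nm x : ℝ) ^ (-s.re) := by positivity
  calc ‖c x‖ * ‖χ x‖ * (D.nm x : ℝ) ^ (-s.re) ≤ ‖c x‖ * 1 * (D.nm x : ℝ) ^ (-s.re) := by gcongr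
    _ = _ := by rw [mul_one]

end tw

end Pool.Agent.K4H55.CX
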