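import Pool.Agent.K4H55.CX.Ab

/-!
The ratio of the central values is a unit at two.
-/

set_option autoImplicit false
set_option linter.unusedSectionVars false

namespace Pool.Agent.K4H55.CX

open NumberField IsDedekindDomain Filter Topology
open Pool.Agent.K4H55.BI Pool.Agent.K4H55.BK
open scoped ComplexConjugate

section ord

variable {O : Type} [CommRing O] {D : BI.Ord O} {n : O} {c : O → ℂ} {C : ℝ} {w : ℂ}
  {M : Submodule ℤ ℂ}

/-- odd multiples of the central value -/
theorem st_orb [IsDomain O] (h : MG D n c C w M)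
    (hcu : ∀ u : O, IsUnit u → ∀ x, c (u * x) = c x) {H : Finset O} (hH : H4 H)
    {T : Finset O} (hT : Fam T) (hn : ∀ p ∈ T, ¬ p ∣ n) (hne : T.Nonempty)
    {Λ : AddSubgroup ℂ}
    (hΛ : ∀ x m : O, m ≠ 0 → IsCoprime m n → fv D c (D.ι x / D.ι m) ∈ Λ) :
    ∃ y ∈ Λ, (∏ q ∈ T, (c q - 2)) * fv D c 0 = H.card * y := by
  classical
  set f := fv D c with hf
  have h1 : st D f T ∅ = (∏ q ∈ T, (c q - 2)) * f 0 := by
    have h2 := st_prod h (T := ∅) T (Finset.disjoint_empty_right T)
      (by rw [Finset.union_empty]; exact hT) (by rw [Finset.union_empty]; exact hn)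
    rw [Finset.union_empty] at h2
    rw [h2, bt_empty f (fun z y => fv_periodic D c z y)]
    congr 1
    refine Finset.prod_congr rfl fun q _ => ?_
    unfold chi
    simp
  have hcopm : IsCoprime (md T) n := md_coprime D hT hn
  set g : O → ℂ := fun x => cop T x * f (D.ι x / D.ι (md T)) with hg
  have hιm : D.ι (md T) ≠ 0 := fun h0 => hT.md_ne (D.inj (by rw [h0, map_zero]))
  have hfp : Prd (md T) fun x => f (D.ι x / D.ι (md T)) := by
    rintro x y ⟨k, hk⟩
    have e : D.ι x / D.ι (md T) = D.ι y / D.ι (md T) + D.ι k := by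
      have h3 : D.ι x = D.ι y + D.ι (md T) * D.ι k := by
        rw [← map_mul, ← map_add]
        congr 1
        linear_combination hk
      rw [h3]
      field_simp
    show f (D.ι x / D.ι (md T)) = f (D.ι y / D.ι (md T))
    rw [e]
    exact fv_periodic D c _ k
  have hgp : Prd (md T) g := by
    intro x y hxy
    have h3 := hfp x y hxy
    have h5 := cop_prd (S := T) (m := md T) (fun p hp => dvd_md hp) x y hxy
    simp only at h3
    simp only [hg, h3, h5]
  have hun : ∀ u ∈ H, IsUnit u := fun u hu =>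
    IsUnit.of_mul_eq_one (u ^ 3) (by rw [← pow_succ']; exact (hH.mem u).1 hu)
  obtain ⟨z, hz, h3⟩ := orb hH hT hne (rs_CRS D hT.md_ne) hgp (fun u huH x => by
    have h3 := hun u huH
    simp only [hg]
    have h6 : f (D.ι u * (D.ι x / D.ι (md T))) = f (D.ι x / D.ι (md T)) := fv_unit hcu h3 _
    rw [map_mul D.ι, mul_div_assoc, h6, cop_mul hT.pr,
      cop_one_of (x := u) fun p hp hd => (hT.pr p hp).not_isUnit (isUnit_of_dvd_unit hd h3),
      one_mul])
    (fun x p hp hd => by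
      simp only [hg]
      rw [cop_zero_of hp hd, zero_mul])
    (Λ := Λ) (fun x => by
      simp only [hg]
      by_cases hx : ∀ p ∈ T, ¬ p ∣ x
      · rw [cop_one_of hx, one_mul]
        exact hΛ x (md T) hT.md_ne hcopm
      · push Not at hx
        obtain ⟨p, hp, hd⟩ := hx
        rw [cop_zero_of hp hd, zero_mul]
        exact Λ.zero_mem)
  refine ⟨z, hz, ?_⟩
  rw [← h1, ← h3]
  unfold st
  refine Finset.sum_congr rfl fun x _ => ?_
  have h5 : chi (∅ : Finset O) x = 1 := by unfold chi; simp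
  simp only [hg]
  rw [h5]
  ring

end ord

/-- coprime to two -/
lemma cop_two {x : integralClosure ℤ ℂ} (h : ∀ lam : Ideal (integralClosure ℤ ℂ), lam.IsPrime →
    (2 : integralClosure ℤ ℂ) ∈ lam → x ∉ lam) : IsCoprime x 2 := by
  by_contra hcon
  obtain ⟨m, hm, hle⟩ := Ideal.exists_le_maximal (Ideal.span {x, (2 : integralClosure ℤ ℂ)}) (by
    rw [Ne, Ideal.eq_top_iff_one, Ideal.mem_span_pair]
    rintro ⟨p, q, hpq⟩
    exact hcon ⟨p, q, hpq⟩)
  exact h m hm.isPrime (hle (Ideal.subset_span (by simp))) (hle (Ideal.subset_span (by simp)))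

lemma notMem_of_cop {x : integralClosure ℤ ℂ} (h : IsCoprime x 2)
    {lam : Ideal (integralClosure ℤ ℂ)} (hlam : lam.IsPrime)
    (h2 : (2 : integralClosure ℤ ℂ) ∈ lam) : x ∉ lam := by
  intro hx
  obtain ⟨p, q, hpq⟩ := h
  apply hlam.ne_top
  rw [Ideal.eq_top_iff_one, ← hpq]
  exact lam.add_mem (lam.mul_mem_left _ hx) (lam.mul_mem_left _ h2)

section field

variable {K : Type} [Field K] [NumberField K] [hP : IsPrincipalIdealRing (𝓞 K)] {σ : K →+* ℂ}
  {δ : K} {n : 𝓞 K} {c : Ideal (𝓞 K) → ℂ} {T : Finset (HeightOneSpectrum (𝓞 K))} {χ : 𝓞 K → ℂ}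

/-- **The ratio of the central values.** -/
theorem chr_unit (h : IQ K σ δ) (hf : BF σ δ n c) (hχ : CH T χ)
    (hT : ∀ v ∈ T, (2 : 𝓞 K) ∉ v.asIdeal ∧ n ∉ v.asIdeal ∧ ∃ m : ℤ, c v.asIdeal = m ∧ m % 2 = 1)
    {z : ℂ} (hz : Tendsto (fun t => Fser σ δ c 0 t) (𝓝[>] 0) (𝓝 z)) {ω : ℂ}
    (hω : ∀ l ∈ AddSubgroup.closure (Vals σ δ n c), ∃ j : ℤ, l = j * ω)
    (hω' : ω ∈ AddSubgroup.closure (Vals σ δ n c))
    (hodd : ∀ y ∈ AddSubgroup.closure (Vals σ δ n c),
      z ≠ 2 * (Nat.card {u : 𝓞 K // u ^ 4 = 1} : ℂ) * y) :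
    ∃ (G : ℂ → ℂ) (τ x : integralClosure ℤ ℂ) (k : ℤ), Differentiable ℂ G ∧
      (∀ s : ℂ, 2 < s.re → HasProd (efx n c χ s) (G s)) ∧ Odd k ∧
      ‖(τ : ℂ)‖ ^ 2 = ∏ v ∈ T, (Ideal.absNorm v.asIdeal : ℝ) ∧ IsCoprime x 2 ∧
      k * τ * G 1 = x * ((2 * Real.pi / ‖σ δ‖) ^ 2 / (Nat.card (𝓞 K)ˣ : ℂ) * z) := by
  classical
  set A : ℂ := (2 * Real.pi / ‖σ δ‖) ^ 2 / (Nat.card (𝓞 K)ˣ : ℂ) with hA
  obtain ⟨G, τ, h1, h3, hτi, hτn, h4⟩ := chr_val h hf hχ
    (fun v hv => ⟨(hT v hv).1, (hT v hv).2.1⟩) hz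
  obtain ⟨H, hH⟩ := exists_H4 (O := 𝓞 K)
  have hHc : (Nat.card {u : 𝓞 K // u ^ 4 = 1} : ℂ) = (H.card : ℂ) := by rw [hH.card_eq]
  rw [hHc] at hodd
  simp only [hHc] at h4
  have hH0 : H.card ≠ 0 := by
    have : (1 : 𝓞 K) ∈ H := (hH.mem 1).2 (one_pow 4)
    exact Finset.card_ne_zero_of_mem this
  have hH0' : (H.card : ℂ) ≠ 0 := by exact_mod_cast hH0
  obtain ⟨lam0, hlam0, hl20⟩ := exists_lam
  have hzΛ : z ∈ AddSubgroup.closure (Vals σ δ n c) := by
    obtain ⟨z', hz', hz1⟩ := exists_z0 h hf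
    have hzz : z' = z := tendsto_nhds_unique hz1 hz
    rw [← hzz]
    exact AddSubgroup.subset_closure hz'
  obtain ⟨m, hm⟩ := hω z hzΛ
  have hω0 : ω ≠ 0 := by
    rintro rfl
    apply hodd 0 (AddSubgroup.zero_mem _)
    rw [hm]
    ring
  have hfam : Fam (T.image gen) := fam_of (A := {v | (2 : 𝓞 K) ∉ v.asIdeal}) (fun v hv => hv)
    (fun v hv => (hT v hv).1)
  obtain ⟨k, hk⟩ := prod_odd (T := T.image gen) (c := fun x => c (Ideal.span {x})) (by
    intro p hp
    obtain ⟨v, hv, rfl⟩ := Finset.mem_image.1 hp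
    simp only [gen_span]
    exact (hT v hv).2.2)
  have e2 : ∏ q ∈ T.image gen, ((fun x => c (Ideal.span {x})) q - 2) =
      ∏ v ∈ T, (c v.asIdeal - 2) := by
    rw [Finset.prod_image fun _ _ _ _ h => gen_inj h]
    refine Finset.prod_congr rfl fun v _ => ?_
    simp only [gen_span]
  have hk' := hk
  rw [e2] at hk'
  -- the quotient of `m` by `w`, up to the case without places
  by_cases hne : T = ∅
  · subst hne
    -- trivial character
    obtain ⟨y, hy, h5⟩ := h4 lam0 hlam0 hl20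
    have hχ1 : ∀ x, χ x = 1 := fun x => by
      rw [hχ.prd x 1 (fun v hv => absurd hv (Finset.notMem_empty v)), hχ.one]
    have hone : CH (∅ : Finset (HeightOneSpectrum (𝓞 K))) (fun _ => (1 : ℂ)) :=
      { one := rfl
        mul := fun x y => by norm_num
        zero := fun x => by simp
        prd := fun _ _ _ => rfl
        unit := fun _ _ => rfl
        prim := fun v hv => absurd hv (Finset.notMem_empty v)
        pow := ⟨0, fun _ _ => by simp⟩ }
    obtain ⟨G', g1, g2, g3⟩ := value_x h hf (T := ∅) (by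
      rw [Finset.image_empty]
      exact ⟨fun p hp => absurd hp (Finset.notMem_empty p),
        fun p hp => absurd hp (Finset.notMem_empty p),
        fun p hp => absurd hp (Finset.notMem_empty p)⟩) hχ.hc hχ.unit
        (fun v hv => absurd hv (Finset.notMem_empty v))
    refine ⟨G', 1, 1, 1, g1, g2, odd_one, by simp, isCoprime_one_left, ?_⟩
    have h6 : ∑ x ∈ rs (ordK h) (md ((∅ : Finset (HeightOneSpectrum (𝓞 K))).image gen)),
        conj (χ x) * fv (ordK h) (fun x => c (Ideal.span {x})) ((ordK h).ι x /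
          (ordK h).ι (md ((∅ : Finset (HeightOneSpectrum (𝓞 K))).image gen))) = z := by
      have h7 := bt_empty (D := ordK h) (fv (ordK h) (fun x => c (Ideal.span {x})))
        (fun z y => fv_periodic (ordK h) _ z y)
      have h0 : fv (ordK h) (fun x => c (Ideal.span {x})) 0 = z := by
        rw [Fser_eq h] at hz
        exact fv_eq hz
      rw [h0] at h7
      rw [← h7]
      unfold bt
      rw [Finset.image_empty]
      refine Finset.sum_congr rfl fun x _ => ?_
      have h5 : chi (∅ : Finset (𝓞 K)) x = 1 := by unfold chi; simp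
      rw [h5, hχ1, map_one]
    have h8 : gx (ordK h) ((∅ : Finset (HeightOneSpectrum (𝓞 K))).image gen) (br χ) 1 = 1 := by
      have h9 := gs_empty (ordK h)
      rw [← h9, Finset.image_empty]
      unfold gx gs
      refine Finset.sum_congr rfl fun x _ => ?_
      have h5 : chi (∅ : Finset (𝓞 K)) x = 1 := by unfold chi; simp
      have h10 : br χ x = 1 := by
        show conj (χ x) = 1
        rw [hχ1, map_one]
      rw [h5, h10]
    rw [g3, h6, h8]
    have e1 : (kap (ordK h) : ℂ) / nu (𝓞 K) = A := by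
      rw [nu_card h, hA]
      unfold kap
      have e2 : (ordK h).δ = σ δ := rfl
      rw [e2]
      push_cast
      rfl
    rw [← e1]
    push_cast
    ring
  · have hne' : T.Nonempty := Finset.nonempty_iff_ne_empty.2 hne
    obtain ⟨C, w, κ, κW, hN⟩ := hf.newf h
    have hMG := hN.mg
    have hlim : ∀ x m : 𝓞 K, m ≠ 0 → IsCoprime m n →
        fv (ordK h) (fun x => c (Ideal.span {x})) ((ordK h).ι x / (ordK h).ι m) ∈
          AddSubgroup.closure (Vals σ δ n c) := by
      intro x m hm hmn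
      refine AddSubgroup.subset_closure ⟨x, m, hm, hmn, ?_⟩
      rw [Fser_eq h]
      exact hMG.tendsto hm hmn
    have h0 : fv (ordK h) (fun x => c (Ideal.span {x})) 0 = z := by
      rw [Fser_eq h] at hz
      exact fv_eq hz
    obtain ⟨l, hl, h6⟩ := st_orb hMG (fun u hu x => by
      have h1 : Ideal.span {u * x} = Ideal.span {x} := Ideal.span_singleton_mul_left_unit hu x
      simp only [h1]) hH hfam (fun p hp hd => by
        obtain ⟨v, hv, rfl⟩ := Finset.mem_image.1 hp
        exact (hT v hv).2.1 (gen_dvd.1 hd)) (hne'.image _)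
        (Λ := AddSubgroup.closure (Vals σ δ n c)) hlim
    obtain ⟨j, hj⟩ := hω l hl
    rw [hk, h0, hm, hj] at h6
    have h7 : (1 + 2 * k) * m = H.card * j := by
      have h8 : (((1 + 2 * k) * m : ℤ) : ℂ) = ((H.card * j : ℤ) : ℂ) := by
        apply mul_right_cancel₀ hω0
        push_cast at h6 ⊢
        linear_combination h6
      exact_mod_cast h8
    -- `w` divides `m`
    obtain ⟨e, he⟩ := hH.card_dvd
    have heZ : (4 : ℤ) = H.card * e := by exact_mod_cast he
    obtain ⟨k0, hk0⟩ : ∃ k0 : ℤ, m = H.card * k0 := by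
      obtain ⟨i, hi⟩ : ∃ i : ℤ, (1 + 2 * k) * (1 + 2 * k) = 1 + 4 * i :=
        ⟨k * (k + 1), by ring⟩
      refine ⟨(1 + 2 * k) * j - e * i * m, ?_⟩
      linear_combination (1 + 2 * k) * h7 - m * hi - i * m * heZ
    have hk0odd : Odd k0 := by
      by_contra hcon
      rw [Int.not_odd_iff_even] at hcon
      obtain ⟨r, hr⟩ := hcon
      apply hodd (r • ω) (AddSubgroup.zsmul_mem _ hω' r)
      rw [hm, hk0, hr, zsmul_eq_mul]
      push_cast
      ring
    have hA0 : A ≠ 0 := by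
      have e3 : (kap (ordK h) : ℂ) / nu (𝓞 K) = A := by
        rw [nu_card h, hA]
        unfold kap
        have e2 : (ordK h).δ = σ δ := rfl
        rw [e2]
        push_cast
        rfl
      rw [← e3]
      have hk0 : (kap (ordK h) : ℂ) ≠ 0 := by exact_mod_cast (kap_pos (ordK h)).ne'
      exact div_ne_zero hk0 (nu_ne (ordK h))
    obtain ⟨y, hy, h9⟩ := h4 lam0 hlam0 hl20
    obtain ⟨y', hy', rfl⟩ := lamG_cyc hω hy
    let x : integralClosure ℤ ℂ := (((1 + 2 * k) * k0 : ℤ) : integralClosure ℤ ℂ) + y'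
    let τ' : integralClosure ℤ ℂ := ⟨τ, hτi⟩
    have hxC : (x : ℂ) = (((1 + 2 * k) * k0 : ℤ) : ℂ) + (y' : ℂ) := by
      have e4 : ((((1 + 2 * k) * k0 : ℤ) : integralClosure ℤ ℂ) : ℂ) =
          (((1 + 2 * k) * k0 : ℤ) : ℂ) := SubringClass.coe_intCast _ _
      rw [← e4]
      rfl
    have h10 : τ * G 1 = A * (H.card * ω) * (x : ℂ) := by
      rw [h9, hk', hm, hk0, hxC]
      push_cast
      ring
    have hy'lam : ∀ lam : Ideal (integralClosure ℤ ℂ), lam.IsPrime →
        (2 : integralClosure ℤ ℂ) ∈ lam → y' ∈ lam := by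
      intro lam hlam hl2
      obtain ⟨y2, hy2, h11⟩ := h4 lam hlam hl2
      obtain ⟨y3, hy3, rfl⟩ := lamG_cyc hω hy2
      have h12 : y' = y3 := by
        apply Subtype.ext
        rw [h9] at h11
        have h13 := mul_left_cancel₀ hA0 h11
        have h14 : (H.card : ℂ) * ω * (y' : ℂ) = (H.card : ℂ) * ω * (y3 : ℂ) := by
          linear_combination h13
        exact mul_left_cancel₀ (mul_ne_zero hH0' hω0) h14
      rw [h12]
      exact hy3
    refine ⟨G, τ', x, k0, h1, h3, hk0odd, hτn, cop_two fun lam hlam hl2 hx => ?_, ?_⟩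
    · have h11 : (((1 + 2 * k) * k0 : ℤ) : integralClosure ℤ ℂ) ∈ lam := by
        have := lam.sub_mem hx (hy'lam lam hlam hl2)
        simpa only [x, add_sub_cancel_right] using this
      obtain ⟨r, hr⟩ : Odd ((1 + 2 * k) * k0) := Odd.mul (⟨k, by ring⟩ : Odd (1 + 2 * k)) hk0odd
      rw [hr] at h11
      apply hlam.ne_top
      rw [Ideal.eq_top_iff_one]
      have e : (1 : integralClosure ℤ ℂ) = ((2 * r + 1 : ℤ) : integralClosure ℤ ℂ) -
          2 * (r : integralClosure ℤ ℂ) := by push_cast; ring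
      rw [e]
      exact lam.sub_mem h11 (lam.mul_mem_right _ hl2)
    · show (k0 : ℂ) * τ * G 1 = _
      rw [mul_assoc, h10, hm, hk0]
      push_cast
      ring

end field

end Pool.Agent.K4H55.CX
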