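import Pool.Agent.K4H55.CX.Odd

/-!
Characters of 2-power order of the ring of integers and the central values.
-/

set_option autoImplicit false
set_option linter.unusedSectionVars false

namespace Pool.Agent.K4H55.CX

open NumberField IsDedekindDomain Filter Topology
open Pool.Agent.K4H55.BI Pool.Agent.K4H55.BK
open scoped ComplexConjugate

variable {K : Type} [Field K] [NumberField K]

/-- primitive characters modulo the product of the `v ∈ T`, trivial on the units, of 2-power order -/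
structure CH (T : Finset (HeightOneSpectrum (𝓞 K))) (χ : 𝓞 K → ℂ) : Prop where
  one : χ 1 = 1
  mul : ∀ x y, χ (x * y) = χ x * χ y
  zero : ∀ x, χ x = 0 ↔ ∃ v ∈ T, x ∈ v.asIdeal
  prd : ∀ x y, (∀ v ∈ T, x - y ∈ v.asIdeal) → χ x = χ y
  unit : ∀ u, IsUnit u → χ u = 1
  prim : ∀ v ∈ T, ∃ x, (∀ v' ∈ T, v' ≠ v → x - 1 ∈ v'.asIdeal) ∧ χ x ≠ 0 ∧ χ x ≠ 1
  pow : ∃ k : ℕ, ∀ x, χ x ≠ 0 → χ x ^ 2 ^ k = 1

variable [hP : IsPrincipalIdealRing (𝓞 K)] {σ : K →+* ℂ} {δ : K} {n : 𝓞 K}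
  {c : Ideal (𝓞 K) → ℂ} {T : Finset (HeightOneSpectrum (𝓞 K))} {χ : 𝓞 K → ℂ}

lemma gen_cop {v v' : HeightOneSpectrum (𝓞 K)} (h : v ≠ v') : IsCoprime (gen v) (gen v') :=
  (gen_prime v).irreducible.coprime_iff_not_dvd.2 fun hd => h (gen_na hd)

lemma md_gen_dvd [DecidableEq (𝓞 K)] (T : Finset (HeightOneSpectrum (𝓞 K))) {x : 𝓞 K}
    (h : ∀ v ∈ T, x ∈ v.asIdeal) : md (T.image gen) ∣ x := by
  unfold md
  rw [Finset.prod_image fun _ _ _ _ h => gen_inj h]
  exact Finset.prod_dvd_of_coprime (fun v _ v' _ hne => gen_cop hne)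
    (fun v hv => gen_dvd.2 (h v hv))

lemma CH.ne_iff (h : CH T χ) (x : 𝓞 K) : χ x ≠ 0 ↔ ∀ v ∈ T, x ∉ v.asIdeal := by
  rw [Ne, h.zero]
  push Not
  rfl

lemma CH.hc [DecidableEq (𝓞 K)] (h : CH T χ) : Hc (T.image gen) χ := by
  classical
  have hne : ∀ x, (∀ p ∈ T.image gen, ¬ p ∣ x) → χ x ≠ 0 := by
    intro x hx
    rw [h.ne_iff]
    exact fun v hv hm => hx _ (Finset.mem_image_of_mem _ hv) (gen_dvd.2 hm)
  refine ⟨fun x y hxy => h.prd x y fun v hv => ?_, h.mul, h.one, fun x p hp hd => ?_,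
    fun x hx => ?_, fun p hp => ?_⟩
  · exact gen_dvd.1 ((dvd_md (Finset.mem_image_of_mem _ hv)).trans hxy)
  · obtain ⟨v, hv, rfl⟩ := Finset.mem_image.1 hp
    exact (h.zero x).2 ⟨v, hv, gen_dvd.1 hd⟩
  · obtain ⟨k, hk⟩ := h.pow
    have h1 := hk x (hne x hx)
    have h2 : ‖χ x‖ = 1 := Complex.norm_eq_one_of_pow_eq_one h1 (by positivity)
    rw [Complex.mul_conj, Complex.normSq_eq_norm_sq, h2]
    norm_num
  · obtain ⟨v, hv, rfl⟩ := Finset.mem_image.1 hp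
    obtain ⟨x, h1, h2, h3⟩ := h.prim v hv
    refine ⟨x, md ((T.erase v).image gen), ?_, ?_, fun q hq hd => ?_, h3⟩
    · unfold md
      rw [Finset.prod_image fun _ _ _ _ h => gen_inj h, Finset.prod_image fun _ _ _ _ h => gen_inj h,
        Finset.mul_prod_erase T gen hv]
    · exact md_gen_dvd _ fun v' hv' => h1 v' (Finset.mem_of_mem_erase hv')
        (Finset.ne_of_mem_erase hv')
    · obtain ⟨v', hv', rfl⟩ := Finset.mem_image.1 hq
      exact (h.ne_iff x).1 h2 v' hv' (gen_dvd.1 hd)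

/-- integrality of the Gauss sum -/
lemma gx_int (h : IQ K σ δ) [DecidableEq (𝓞 K)] (hχ : CH T χ) (hT : Fam (T.image gen)) :
    IsIntegral ℤ (gx (ordK h) (T.image gen) (br χ) 1) := by
  classical
  set D := ordK h with hD
  set m := md (T.image gen) with hm
  have hm0 : m ≠ 0 := hT.md_ne
  have hιm : D.ι m ≠ 0 := fun h => hm0 (D.inj (by rw [h, map_zero]))
  obtain ⟨k, hk⟩ := hχ.pow
  have hpow : ∀ (N : ℕ) (z : ℂ), ee D.δ z ^ N = ee D.δ (N * z) := by
    intro N z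
    induction N with
    | zero => rw [pow_zero, Nat.cast_zero, zero_mul, ee_zero]
    | succ N ih =>
      rw [pow_succ, ih, ← ee_add]
      congr 1
      push_cast
      ring
  unfold gx
  refine IsIntegral.sum _ fun x _ => IsIntegral.mul ?_ ?_
  · by_cases h0 : χ x = 0
    · show IsIntegral ℤ (conj (χ x))
      rw [h0, map_zero]
      exact isIntegral_zero
    · refine int_pow (k := k) ?_
      show (conj (χ x)) ^ 2 ^ k = 1
      rw [← map_pow, hk x h0, map_one]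
  · have hN : (m : 𝓞 K) ∣ ((Ideal.absNorm (Ideal.span {m}) : ℕ) : 𝓞 K) := by
      rw [← Ideal.mem_span_singleton]
      exact Ideal.absNorm_mem _
    have hN0 : 0 < Ideal.absNorm (Ideal.span {m}) := by
      rw [Nat.pos_iff_ne_zero, Ne, Ideal.absNorm_eq_zero_iff, Ideal.span_singleton_eq_bot]
      exact hm0
    obtain ⟨y, hy⟩ := hN
    refine IsIntegral.of_pow hN0 ?_
    rw [hpow]
    have e : ((Ideal.absNorm (Ideal.span {m}) : ℕ) : ℂ) * (D.ι (1 * x) / D.ι m) = D.ι (y * x) := by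
      have e1 : ((Ideal.absNorm (Ideal.span {m}) : ℕ) : ℂ) = D.ι m * D.ι y := by
        rw [← map_mul, ← hy, map_natCast]
      rw [e1, one_mul, map_mul]
      field_simp
    rw [e, D.dual1]
    exact isIntegral_one

/-- **The central values.** -/
theorem chr_val (h : IQ K σ δ) (hf : BF σ δ n c) (hχ : CH T χ)
    (hT : ∀ v ∈ T, (2 : 𝓞 K) ∉ v.asIdeal ∧ n ∉ v.asIdeal) {z : ℂ}
    (hz : Tendsto (fun t => Fser σ δ c 0 t) (𝓝[>] 0) (𝓝 z)) :
    ∃ (G : ℂ → ℂ) (τ : ℂ), Differentiable ℂ G ∧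
      (∀ s : ℂ, 2 < s.re → HasProd (efx n c χ s) (G s)) ∧
      IsIntegral ℤ τ ∧ ‖τ‖ ^ 2 = ∏ v ∈ T, (Ideal.absNorm v.asIdeal : ℝ) ∧
      ∀ lam : Ideal (integralClosure ℤ ℂ), lam.IsPrime → (2 : integralClosure ℤ ℂ) ∈ lam →
        ∃ y ∈ lamG lam (AddSubgroup.closure (Vals σ δ n c)),
          τ * G 1 = (2 * Real.pi / ‖σ δ‖) ^ 2 / (Nat.card (𝓞 K)ˣ : ℂ) *
            ((∏ v ∈ T, (c v.asIdeal - 2)) * z + Nat.card {u : 𝓞 K // u ^ 4 = 1} * y) := by
  classical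
  obtain ⟨C, w, κ, κW, hN⟩ := hf.newf h
  have hMG := hN.mg
  have hfam : Fam (T.image gen) := fam_of (A := {v | (2 : 𝓞 K) ∉ v.asIdeal}) (fun v hv => hv)
    (fun v hv => (hT v hv).1)
  obtain ⟨G, h1, h2, h3⟩ := value_x h hf hfam hχ.hc hχ.unit fun v hv => (hT v hv).2
  obtain ⟨k, hk⟩ := hχ.pow
  have hneg : χ (-1) = 1 := hχ.unit _ isUnit_one.neg
  obtain ⟨h4, h5⟩ := gx_conj (ordK h) hfam hχ.hc hneg
  refine ⟨G, gx (ordK h) (T.image gen) (br χ) 1, h1, h2, gx_int h hχ hfam, ?_, ?_⟩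
  · rw [← h5] at h4
    rw [mul_comm, Complex.mul_conj, Complex.normSq_eq_norm_sq] at h4
    have h6 : ‖gx (ordK h) (T.image gen) (br χ) 1‖ ^ 2 = ((ordK h).nm (md (T.image gen)) : ℝ) := by
      exact_mod_cast h4
    rw [h6]
    have h7 : ∀ S : Finset (HeightOneSpectrum (𝓞 K)), ((ordK h).nm (md (S.image gen)) : ℝ) =
        ∏ v ∈ S, (Ideal.absNorm v.asIdeal : ℝ) := by
      intro S
      unfold md
      rw [Finset.prod_image fun _ _ _ _ h => gen_inj h]
      induction S using Finset.induction_on with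
      | empty => rw [Finset.prod_empty, Finset.prod_empty, nm_one, Nat.cast_one]
      | insert v S hv ih =>
        rw [Finset.prod_insert hv, Finset.prod_insert hv, Ord.nm_mul, Nat.cast_mul, ih]
        congr 2
        have e1 : (ordK h).nm (gen v) = Ideal.absNorm (Ideal.span {gen v}) :=
          (Ideal.absNorm_span_singleton _).symm
        rw [e1, gen_span]
    exact h7 T
  · intro lam hlam hl2
    obtain ⟨H, hH⟩ := exists_H4 (O := 𝓞 K)
    have hlim : ∀ x m : 𝓞 K, m ≠ 0 → IsCoprime m n →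
        fv (ordK h) (fun x => c (Ideal.span {x})) ((ordK h).ι x / (ordK h).ι m) ∈
          AddSubgroup.closure (Vals σ δ n c) := by
      intro x m hm hmn
      refine AddSubgroup.subset_closure ⟨x, m, hm, hmn, ?_⟩
      rw [Fser_eq h]
      exact hMG.tendsto hm hmn
    have h0 : fv (ordK h) (fun x => c (Ideal.span {x})) 0 = z := by
      rw [Fser_eq h] at hz
      exact fv_eq hz
    obtain ⟨y, hy, h6⟩ := sum_cong hMG (fun u hu x => by
      have h1 : Ideal.span {u * x} = Ideal.span {x} := Ideal.span_singleton_mul_left_unit hu x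
      simp only [h1]) hH hfam hχ.hc (fun p hp hd => by
        obtain ⟨v, hv, rfl⟩ := Finset.mem_image.1 hp
        exact (hT v hv).2 (gen_dvd.1 hd)) (k := k) (fun x hx => hk x (by
          rw [hχ.ne_iff]
          exact fun v hv hm => hx _ (Finset.mem_image_of_mem _ hv) (gen_dvd.2 hm))) hχ.unit
        (Λ := AddSubgroup.closure (Vals σ δ n c)) hlim lam hlam hl2
    refine ⟨y, hy, ?_⟩
    rw [h3, h6, h0, hH.card_eq]
    have e1 : (kap (ordK h) : ℂ) / nu (𝓞 K) =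
        (2 * Real.pi / ‖σ δ‖) ^ 2 / (Nat.card (𝓞 K)ˣ : ℂ) := by
      rw [nu_card h]
      unfold kap
      have e2 : (ordK h).δ = σ δ := rfl
      rw [e2]
      push_cast
      rfl
    have e2 : ∏ q ∈ T.image gen, ((fun x => c (Ideal.span {x})) q - 2) =
        ∏ v ∈ T, (c v.asIdeal - 2) := by
      rw [Finset.prod_image fun _ _ _ _ h => gen_inj h]
      refine Finset.prod_congr rfl fun v _ => ?_
      simp only [gen_span]
    have e3 : gx (ordK h) (T.image gen) (br χ) 1 ≠ 0 := gx_ne (ordK h) hfam hχ.hc.br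
    rw [← e1]
    simp only at e2
    rw [e2]
    field_simp

/-- **Nonvanishing.** -/
theorem chr_ne (h : IQ K σ δ) (hf : BF σ δ n c) (hχ : CH T χ)
    (hT : ∀ v ∈ T, (2 : 𝓞 K) ∉ v.asIdeal ∧ n ∉ v.asIdeal ∧ ∃ m : ℤ, c v.asIdeal = m ∧ m % 2 = 1)
    {z : ℂ} (hz : Tendsto (fun t => Fser σ δ c 0 t) (𝓝[>] 0) (𝓝 z))
    {lam : Ideal (integralClosure ℤ ℂ)} (hlam : lam.IsPrime) (h2 : (2 : integralClosure ℤ ℂ) ∈ lam)
    (hodd : ∀ y ∈ lamG lam (AddSubgroup.closure (Vals σ δ n c)),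
      z ≠ Nat.card {u : 𝓞 K // u ^ 4 = 1} * y) :
    ∃ G : ℂ → ℂ, Differentiable ℂ G ∧ (∀ s : ℂ, 2 < s.re → HasProd (efx n c χ s) (G s)) ∧
      G 1 ≠ 0 := by
  classical
  obtain ⟨G, τ, h1, h3, -, -, h4⟩ := chr_val h hf hχ (fun v hv => ⟨(hT v hv).1, (hT v hv).2.1⟩) hz
  refine ⟨G, h1, h3, fun h0 => ?_⟩
  obtain ⟨y, hy, h5⟩ := h4 lam hlam h2
  rw [h0, mul_zero] at h5
  obtain ⟨H, hH⟩ := exists_H4 (O := 𝓞 K)
  rw [hH.card_eq] at h5 hodd
  obtain ⟨z', hz', hz1⟩ := exists_z0 h hf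
  have hzz : z' = z := tendsto_nhds_unique hz1 hz
  have hzΛ : z ∈ AddSubgroup.closure (Vals σ δ n c) := by
    rw [← hzz]
    exact AddSubgroup.subset_closure hz'
  obtain ⟨k, hk⟩ := prod_odd (T := T.image gen) (c := fun x => c (Ideal.span {x})) (by
    intro p hp
    obtain ⟨v, hv, rfl⟩ := Finset.mem_image.1 hp
    simp only [gen_span]
    exact (hT v hv).2.2)
  have e2 : ∏ q ∈ T.image gen, ((fun x => c (Ideal.span {x})) q - 2) =
      ∏ v ∈ T, (c v.asIdeal - 2) := by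
    rw [Finset.prod_image fun _ _ _ _ h => gen_inj h]
    refine Finset.prod_congr rfl fun v _ => ?_
    simp only [gen_span]
  rw [e2] at hk
  rw [hk] at h5
  have h6 := odd_ne h2 hH hzΛ hodd k hy
  have h7 : (2 * Real.pi / ‖σ δ‖ : ℂ) ^ 2 / (Nat.card (𝓞 K)ˣ : ℂ) ≠ 0 := by
    have e3 : (kap (ordK h) : ℂ) / nu (𝓞 K) =
        (2 * Real.pi / ‖σ δ‖) ^ 2 / (Nat.card (𝓞 K)ˣ : ℂ) := by
      rw [nu_card h]
      unfold kap
      have e2 : (ordK h).δ = σ δ := rfl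
      rw [e2]
      push_cast
      rfl
    rw [← e3]
    have hk0 : (kap (ordK h) : ℂ) ≠ 0 := by exact_mod_cast (kap_pos (ordK h)).ne'
    have hn0 : nu (𝓞 K) ≠ 0 := nu_ne (ordK h)
    exact div_ne_zero hk0 hn0
  exact mul_ne_zero h7 h6 h5.symm

end Pool.Agent.K4H55.CX
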